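import Pool.Agent.FBC61.Orb

/-! # Stabilisers of edges and the action of the free group on them -/

namespace Pool.Agent.FBC61

open FreeGroup
set_option linter.unusedSectionVars false

variable {ι : Type} [DecidableEq ι]

/-- Conjugation of a group of permutations by a left translation. -/
def act (g : FreeGroup ι) (V : Subgroup (Equiv.Perm (FreeGroup ι))) :
    Subgroup (Equiv.Perm (FreeGroup ι)) := V.map (MulAut.conj (Lm g)).toMonoidHom

lemma mem_act {g : FreeGroup ι} {V : Subgroup (Equiv.Perm (FreeGroup ι))}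
    {α : Equiv.Perm (FreeGroup ι)} : α ∈ act g V ↔ (Lm g)⁻¹ * α * Lm g ∈ V := by
  unfold act
  rw [Subgroup.mem_map]
  constructor
  · rintro ⟨β, hβ, rfl⟩
    have : (Lm g)⁻¹ * (MulAut.conj (Lm g)).toMonoidHom β * Lm g = β := by
      simp [MulAut.conj_apply]
      group
    rwa [this]
  · intro h
    refine ⟨_, h, ?_⟩
    simp [MulAut.conj_apply]
    group

@[simp] lemma act_one (V : Subgroup (Equiv.Perm (FreeGroup ι))) : act 1 V = V := by
  ext α; rw [mem_act, _root_.map_one]; simp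

lemma act_mul (g h : FreeGroup ι) (V : Subgroup (Equiv.Perm (FreeGroup ι))) :
    act (g * h) V = act g (act h V) := by
  ext α
  rw [mem_act, mem_act, mem_act, _root_.map_mul, mul_inv_rev]
  simp only [mul_assoc]

lemma act_inv_act (g : FreeGroup ι) (V : Subgroup (Equiv.Perm (FreeGroup ι))) :
    act g⁻¹ (act g V) = V := by rw [← act_mul]; simp

lemma act_act_inv (g : FreeGroup ι) (V : Subgroup (Equiv.Perm (FreeGroup ι))) :
    act g (act g⁻¹ V) = V := by rw [← act_mul]; simp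

lemma act_injective (g : FreeGroup ι) {V W : Subgroup (Equiv.Perm (FreeGroup ι))}
    (h : act g V = act g W) : V = W := by
  have := congrArg (act g⁻¹) h
  rwa [act_inv_act, act_inv_act] at this

/-- The normaliser of `V` in the free group. -/
def stF (V : Subgroup (Equiv.Perm (FreeGroup ι))) : Subgroup (FreeGroup ι) where
  carrier := {g | act g V = V}
  one_mem' := act_one V
  mul_mem' := fun {a b} ha hb => by
    change act (a * b) V = V
    rw [act_mul]
    change act a V = V at ha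
    change act b V = V at hb
    rw [hb, ha]
  inv_mem' := fun {a} ha => by
    change act a⁻¹ V = V
    change act a V = V at ha
    conv_lhs => rw [← ha]
    exact act_inv_act a V

lemma mem_stF {V : Subgroup (Equiv.Perm (FreeGroup ι))} {g : FreeGroup ι} :
    g ∈ stF V ↔ act g V = V := Iff.rfl

lemma stF_act (g : FreeGroup ι) (V : Subgroup (Equiv.Perm (FreeGroup ι))) :
    stF (act g V) = (stF V).map (MulAut.conj g).toMonoidHom := by
  ext x
  rw [Subgroup.mem_map]
  constructor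
  · intro hx
    refine ⟨g⁻¹ * x * g, ?_, ?_⟩
    · rw [mem_stF] at hx ⊢
      rw [act_mul, act_mul, hx, act_inv_act]
    · simp [MulAut.conj_apply]; group
  · rintro ⟨y, hy, rfl⟩
    rw [mem_stF] at hy ⊢
    have : (MulAut.conj g).toMonoidHom y = g * y * g⁻¹ := rfl
    rw [this, act_mul, act_mul, act_inv_act, hy]

/-- Conjugation by `φ`. -/
def phiA (φ : MulAut (FreeGroup ι)) (V : Subgroup (Equiv.Perm (FreeGroup ι))) :
    Subgroup (Equiv.Perm (FreeGroup ι)) := V.map (MulAut.conj (pm φ)).toMonoidHom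

lemma mem_phiA {φ : MulAut (FreeGroup ι)} {V : Subgroup (Equiv.Perm (FreeGroup ι))}
    {α : Equiv.Perm (FreeGroup ι)} : α ∈ phiA φ V ↔ (pm φ)⁻¹ * α * pm φ ∈ V := by
  unfold phiA
  rw [Subgroup.mem_map]
  constructor
  · rintro ⟨β, hβ, rfl⟩
    have : (pm φ)⁻¹ * (MulAut.conj (pm φ)).toMonoidHom β * pm φ = β := by
      simp [MulAut.conj_apply]
      group
    rwa [this]
  · intro h
    refine ⟨_, h, ?_⟩
    simp [MulAut.conj_apply]
    group

lemma phiA_injective (φ : MulAut (FreeGroup ι)) {V W : Subgroup (Equiv.Perm (FreeGroup ι))}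
    (h : phiA φ V = phiA φ W) : V = W :=
  Subgroup.map_injective (MulAut.conj (pm φ)).injective h

lemma phiA_act (φ : MulAut (FreeGroup ι)) (g : FreeGroup ι)
    (V : Subgroup (Equiv.Perm (FreeGroup ι))) :
    phiA φ (act g V) = act (φ g) (phiA φ V) := by
  ext α
  rw [mem_phiA, mem_act, mem_act, mem_phiA, ← pm_Lm]
  have : (Lm g)⁻¹ * ((pm φ)⁻¹ * α * pm φ) * Lm g =
      (pm φ)⁻¹ * ((pm φ * Lm g * (pm φ)⁻¹)⁻¹ * α * (pm φ * Lm g * (pm φ)⁻¹)) * pm φ := by
    group
  rw [this]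

lemma stF_phiA (φ : MulAut (FreeGroup ι)) (V : Subgroup (Equiv.Perm (FreeGroup ι))) :
    stF (phiA φ V) = (stF V).map φ.toMonoidHom := by
  ext x
  rw [Subgroup.mem_map]
  constructor
  · intro hx
    refine ⟨φ⁻¹ x, ?_, MulAut.apply_inv_self _ φ x⟩
    rw [mem_stF] at hx ⊢
    apply phiA_injective φ
    rw [phiA_act, MulAut.apply_inv_self, hx]
  · rintro ⟨y, hy, rfl⟩
    rw [mem_stF] at hy ⊢
    have : φ.toMonoidHom y = φ y := rfl
    rw [this, ← phiA_act, hy]

/-- The stabiliser of the edge from `1` with label `x`. -/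
def U (φ : MulAut (FreeGroup ι)) (x : ι × Bool) : Subgroup (Equiv.Perm (FreeGroup ι)) :=
  Kst φ (lt x)

lemma U_le (φ : MulAut (FreeGroup ι)) (x : ι × Bool) : U φ x ≤ Kst φ 1 := Kst_le_one _ _

lemma lt_act (φ : MulAut (FreeGroup ι)) (x : ι × Bool) : act (lt x) (U φ (bar x)) = U φ x := by
  ext α
  rw [mem_act]
  unfold U
  rw [mem_Kst, mem_Kst, lt_bar]
  have e1 : ((Lm (lt x))⁻¹ * α * Lm (lt x)) 1 = (lt x)⁻¹ * α (lt x) := by
    rw [Equiv.Perm.mul_apply, Equiv.Perm.mul_apply, Lm_apply, mul_one, Lm_inv_apply]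
  have e2 : ((Lm (lt x))⁻¹ * α * Lm (lt x)) (lt x)⁻¹ = (lt x)⁻¹ * α 1 := by
    rw [Equiv.Perm.mul_apply, Equiv.Perm.mul_apply, Lm_apply, mul_inv_cancel, Lm_inv_apply]
  rw [e1, e2]
  constructor
  · rintro ⟨h1, h2, h3⟩
    refine ⟨?_, ?_, ?_⟩
    · have := mul_mem (mul_mem (Lm_mem φ (lt x)) h1) (inv_mem (Lm_mem φ (lt x)))
      have e : Lm (lt x) * ((Lm (lt x))⁻¹ * α * Lm (lt x)) * (Lm (lt x))⁻¹ = α := by group
      rwa [e] at this
    · rwa [mul_eq_left] at h3
    · rwa [inv_mul_eq_one, eq_comm] at h2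
  · rintro ⟨h1, h2, h3⟩
    refine ⟨mul_mem (mul_mem (inv_mem (Lm_mem φ (lt x))) h1) (Lm_mem φ (lt x)), ?_, ?_⟩
    · rw [h3, inv_mul_cancel]
    · rw [h2, mul_one]

lemma lt_inv_act (φ : MulAut (FreeGroup ι)) (x : ι × Bool) :
    act (lt x)⁻¹ (U φ x) = U φ (bar x) := by
  rw [← lt_act φ x, act_inv_act]

variable [Finite ι]

lemma U_eq_of_le {φ : MulAut (FreeGroup ι)} (hc : ∀ x y : ι × Bool, o φ (lt x) = o φ (lt y))
    {x y : ι × Bool} (h : U φ x ≤ U φ y) : U φ x = U φ y :=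
  Kst_eq_of_o_le h (hc x y).le

/-- Paths in the finite graph of edge stabilisers. -/
lemma path_step {φ : MulAut (FreeGroup ι)} (hc : ∀ x y : ι × Bool, o φ (lt x) = o φ (lt y))
    {x : ι × Bool} {L : List (ι × Bool)} (hL : IsReduced (x :: L))
    {V W : Subgroup (Equiv.Perm (FreeGroup ι))} (hV : V ∈ Set.range (U φ))
    (hW : W ∈ Set.range (U φ)) (h : W = act (FreeGroup.mk (x :: L)) V) :
    W = U φ x ∧ act (FreeGroup.mk L) V = U φ (bar x) := by
  obtain ⟨y, rfl⟩ := hW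
  obtain ⟨z, rfl⟩ := hV
  have hr3 : IsReduced L := List.IsChain.tail hL
  have hle : U φ y ≤ U φ x := by
    intro β hβ
    have h1 : β ∈ Kst φ 1 := U_le φ y hβ
    have h2 : β ∈ act (FreeGroup.mk (x :: L)) (U φ z) := h ▸ hβ
    rw [mem_act] at h2
    have h3 := (U_le φ z h2).2.1
    rw [Equiv.Perm.mul_apply, Equiv.Perm.mul_apply, Lm_apply, mul_one, Lm_inv_apply,
      inv_mul_eq_one, eq_comm] at h3
    have h4 : β ∈ Kst φ (lt x * FreeGroup.mk L) := ⟨h1.1, h1.2.1, by rw [← mk_cons]; exact h3⟩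
    refine Kst_le_left ?_ h4
    rw [← mk_cons, norm_mk_reduced hL, norm_mk_reduced hr3, norm_lt, List.length_cons]
    omega
  have he := U_eq_of_le hc hle
  refine ⟨he, ?_⟩
  rw [← lt_inv_act, ← he, h, mk_cons, act_mul, act_inv_act]

/-- The stabiliser of `1` and `g` is an edge stabiliser if `g` has the minimal orbit size. -/
lemma Kst_eq_U {φ : MulAut (FreeGroup ι)} (hc : ∀ x y : ι × Bool, o φ (lt x) = o φ (lt y))
    {g : FreeGroup ι} (hg : g ≠ 1) {z : ι × Bool} (ho : o φ g = o φ (lt z)) :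
    ∃ x, Kst φ g = U φ x := by
  rcases hw : toWord g with _ | ⟨x, L⟩
  · exact absurd (toWord_eq_nil_iff.1 hw) hg
  have hr : IsReduced (x :: L) := hw ▸ (isReduced_toWord (x := g))
  have hr3 : IsReduced L := List.IsChain.tail hr
  have hg' : g = lt x * FreeGroup.mk L := by rw [← mk_cons, ← hw, mk_toWord]
  refine ⟨x, ?_⟩
  have hle : Kst φ g ≤ Kst φ (lt x) := by
    rw [hg']
    apply Kst_le_left
    rw [← mk_cons, norm_mk_reduced hr, norm_mk_reduced hr3, norm_lt, List.length_cons]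
    omega
  exact Kst_eq_of_o_le hle (by rw [ho]; exact (hc z x).le)

lemma phiA_Kst (φ : MulAut (FreeGroup ι)) (g : FreeGroup ι) :
    phiA φ (Kst φ g) = Kst φ (φ g) := by
  ext α
  rw [mem_phiA]
  constructor
  · intro h
    have := Kst_conj h
    have e : pm φ * ((pm φ)⁻¹ * α * pm φ) * (pm φ)⁻¹ = α := by group
    rwa [e] at this
  · exact Kst_conj'

lemma phiA_U {φ : MulAut (FreeGroup ι)} (hc : ∀ x y : ι × Bool, o φ (lt x) = o φ (lt y))
    (x : ι × Bool) : phiA φ (U φ x) ∈ Set.range (U φ) := by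
  have hne : φ (lt x) ≠ 1 := by
    intro h
    exact lt_ne_one x ((MulEquiv.map_eq_one_iff φ).1 h)
  obtain ⟨y, hy⟩ := Kst_eq_U hc hne (z := x) (o_phi φ (lt x))
  exact ⟨y, by rw [← hy]; exact (phiA_Kst φ (lt x)).symm⟩

end Pool.Agent.FBC61
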