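import Mathlib

/-! # Free-by-cyclic groups: the standard Cayley graph, irreducible and atoroidal automorphisms -/

namespace Pool.Agent.FBC61

open FreeGroup

/-- The free group of rank `n`. -/
abbrev Fr (n : ℕ) : Type := FreeGroup (Fin n)

/-- The free-by-cyclic group `F_n ⋊_φ ℤ`. -/
abbrev MT {n : ℕ} (φ : MulAut (Fr n)) : Type :=
  Fr n ⋊[zpowersHom (MulAut (Fr n)) φ] Multiplicative ℤ

/-- The basis element `s_i` of the fibre. -/
def gen {n : ℕ} (φ : MulAut (Fr n)) (i : Fin n) : MT φ := SemidirectProduct.inl (FreeGroup.of i)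

/-- The stable letter `t`. -/
def stab {n : ℕ} (φ : MulAut (Fr n)) : MT φ := SemidirectProduct.inr (Multiplicative.ofAdd 1)

/-- `g` and `h` are joined by an edge of the Cayley graph with label in the basis of the fibre. -/
def SAdj {n : ℕ} (φ : MulAut (Fr n)) (g h : MT φ) : Prop :=
  ∃ i : Fin n, h = g * gen φ i ∨ g = h * gen φ i

/-- `g` and `h` are joined by an edge of the Cayley graph with label `t`. -/
def TAdj {n : ℕ} (φ : MulAut (Fr n)) (g h : MT φ) : Prop :=
  h = g * stab φ ∨ g = h * stab φ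

/-- Bestvina and Handel: `φ` is reducible if there is a nonempty finite family of nontrivial
proper free factors, whose free product is a free factor (that is, the factors are generated by
disjoint subsets of one basis), with conjugacy classes permuted by `φ`. -/
def Reducible {n : ℕ} (φ : MulAut (Fr n)) : Prop :=
  ∃ (κ J : Type) (b : FreeGroupBasis J (Fr n)) (B : κ → Set J) (σ : Equiv.Perm κ),
    Finite κ ∧ Nonempty κ ∧ (∀ i j, i ≠ j → Disjoint (B i) (B j)) ∧
    (∀ i, Subgroup.closure (b '' B i) ≠ ⊥ ∧ Subgroup.closure (b '' B i) ≠ ⊤) ∧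
    ∀ i, ∃ g : Fr n, (Subgroup.closure (b '' B i)).map φ.toMonoidHom =
      (Subgroup.closure (b '' B (σ i))).map (MulAut.conj g).toMonoidHom

/-- `φ` is atoroidal: no power `φ^k`, `k ≥ 1`, maps some `g ≠ 1` to a conjugate. -/
def Atoroidal {n : ℕ} (φ : MulAut (Fr n)) : Prop :=
  ∀ g : Fr n, g ≠ 1 → ∀ k : ℕ, 1 ≤ k → ¬ IsConj ((φ ^ k) g) g

/-- `H` acts on the Cayley graph of `F_n ⋊_φ ℤ` by automorphisms that preserve the two kinds of
edges, with finite vertex stabilisers and finitely many orbits of vertices. -/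
def GeometricAction {n : ℕ} (φ : MulAut (Fr n)) {H : Type} [Group H]
    (a : H →* Equiv.Perm (MT φ)) : Prop :=
  (∀ h x y, SAdj φ x y → SAdj φ (a h x) (a h y)) ∧
  (∀ h x y, TAdj φ x y → TAdj φ (a h x) (a h y)) ∧
  (∀ x, {h | a h x = x}.Finite) ∧
  ∃ D : Set (MT φ), D.Finite ∧ ∀ x, ∃ h, ∃ d ∈ D, a h d = x

/-- A subgroup `H₀` of finite index in `H` acts by left multiplications, through an injective
homomorphism `ρ` to `F_n ⋊_φ ℤ` with image of finite index. -/
def VirtuallyLeft {n : ℕ} (φ : MulAut (Fr n)) {H : Type} [Group H]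
    (a : H →* Equiv.Perm (MT φ)) : Prop :=
  ∃ (H₀ : Subgroup H) (ρ : H₀ →* MT φ), H₀.FiniteIndex ∧ Function.Injective ρ ∧
    ρ.range.FiniteIndex ∧ ∀ (h : H₀) (x : MT φ), a h x = ρ h * x

/-- Every subgroup of `G` that is generated by a nontrivial finitely generated free subgroup `B`
and an element `b` that normalises `B` and has no power in `B` (so by a free-by-cyclic group
`B ⋊ ℤ`) has finite index in `G`. -/
def NoThinTorus (G : Type) [Group G] : Prop :=
  ∀ (B : Subgroup G) (b : G), B.FG → B ≠ ⊥ → IsFreeGroup B →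
    B.map (MulAut.conj b).toMonoidHom = B → (∀ k : ℕ, 1 ≤ k → b ^ k ∉ B) →
    (B ⊔ Subgroup.zpowers b).FiniteIndex

end Pool.Agent.FBC61
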