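import Pool.Agent.FBC61.FixPt
import Pool.Agent.FBC61.Defs

/-! # Bounded displacement -/

namespace Pool.Agent.FBC61

open FreeGroup
set_option linter.unusedSectionVars false

lemma exists_letter {n : ℕ} (hn : 2 ≤ n) (l0 y : Fin n × Bool) (τ : Fin n × Bool → Fin n × Bool)
    (hτ : Function.Injective τ) : ∃ l, l ≠ l0 ∧ τ l ≠ y := by
  by_contra hcon
  push Not at hcon
  let i0 : Fin n := ⟨0, by omega⟩
  let i1 : Fin n := ⟨1, by omega⟩
  have h01 : i0 ≠ i1 := by
    intro h
    have := congrArg Fin.val h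
    simp [i0, i1] at this
  have key : ∀ a b : Fin n × Bool, a ≠ b → a ≠ l0 → b ≠ l0 → False := by
    intro a b hab ha hb
    exact hab (hτ ((hcon a ha).trans (hcon b hb).symm))
  have h1 : ((i0, true) : Fin n × Bool) ≠ (i0, false) := by simp
  have h2 : ((i0, true) : Fin n × Bool) ≠ (i1, true) := by simp [h01]
  have h3 : ((i0, false) : Fin n × Bool) ≠ (i1, true) := by simp
  by_cases ha : (i0, true) = l0
  · by_cases hb : (i0, false) = l0
    · exact h1 (ha.trans hb.symm)
    · by_cases hc : (i1, true) = l0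
      · exact h2 (ha.trans hc.symm)
      · exact key _ _ h3 hb hc
  · by_cases hb : (i0, false) = l0
    · by_cases hc : (i1, true) = l0
      · exact h3 (hb.trans hc.symm)
      · exact key _ _ h2 ha hc
    · exact key _ _ h1 ha hb

lemma isReduced_replicate {n : ℕ} (k : ℕ) (l : Fin n × Bool) :
    FreeGroup.IsReduced (List.replicate k l) := by
  induction k with
  | zero => exact List.IsChain.nil
  | succ k ih =>
    cases k with
    | zero => exact List.IsChain.singleton _
    | succ k =>
      refine List.IsChain.cons_cons ?_ ih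
      intro _; rfl

lemma toWord_lt {n : ℕ} (x : Fin n × Bool) : toWord (lt x) = [x] := by
  have h : FreeGroup.IsReduced [x] := List.IsChain.singleton x
  unfold lt
  rw [toWord_mk, h.reduce_eq]

/-- A tree automorphism with bounded displacement is trivial if the rank is at least two. -/
theorem bounded_displacement {n : ℕ} (hn : 2 ≤ n) {α : Equiv.Perm (Fr n)} (hα : IsoT α)
    {C : ℕ} (hC : ∀ w, dd w (α w) ≤ C) : α = 1 := by
  by_contra hne
  obtain ⟨w, hw⟩ : ∃ w, α w ≠ w := by
    by_contra h
    push Not at h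
    exact hne (Equiv.ext h)
  let β : Equiv.Perm (Fr n) := (Lm w)⁻¹ * α * Lm w
  have hβ : IsoT β := ((isoT_Lm w).inv.mul hα).mul (isoT_Lm w)
  have hβa : ∀ x, β x = w⁻¹ * α (w * x) := fun x => by
    change (Lm w)⁻¹ (α (w * x)) = _
    rw [Lm_inv_apply]
  have hβC : ∀ x, dd x (β x) ≤ C := by
    intro x
    have h := hC (w * x)
    unfold dd at h ⊢
    rw [hβa]
    have e : x⁻¹ * (w⁻¹ * α (w * x)) = (w * x)⁻¹ * α (w * x) := by group
    rwa [e]
  let g := β 1
  have hg : g ≠ 1 := by
    intro h
    have h1 : w⁻¹ * α (w * 1) = 1 := by rw [← hβa]; exact h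
    rw [mul_one, inv_mul_eq_one] at h1
    exact hw h1.symm
  have hl : ∀ l : Fin n × Bool, ∃ l', β (lt l) = g * lt l' := by
    intro l
    exact (hβ 1 (lt l)).2 ⟨l, (one_mul _).symm⟩
  choose τ hτ using hl
  have ltinj : ∀ a b : Fin n × Bool, lt a = lt b → a = b := by
    intro a b h
    have h1 := toWord_lt a
    rw [h, toWord_lt b] at h1
    exact (List.cons.inj h1).1.symm
  have hτi : Function.Injective τ := by
    intro a b h
    apply ltinj
    apply β.injective
    rw [hτ, hτ, h]
  obtain ⟨l0, L, hgw⟩ : ∃ l0 L, toWord g = l0 :: L := by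
    rcases h : toWord g with _ | ⟨l0, L⟩
    · exact absurd (toWord_eq_nil_iff.1 h) hg
    · exact ⟨l0, L, rfl⟩
  obtain ⟨y, M, hgi⟩ : ∃ y M, toWord g⁻¹ = y :: M := by
    rcases h : toWord g⁻¹ with _ | ⟨y, M⟩
    · exact absurd (toWord_eq_nil_iff.1 h) (inv_ne_one.2 hg)
    · exact ⟨y, M, rfl⟩
  obtain ⟨l, hl1, hl2⟩ := exists_letter hn l0 y τ hτi
  let u : Fr n := FreeGroup.mk (List.replicate (C + 1) l)
  have hu1 : u = lt l * FreeGroup.mk (List.replicate C l) := by
    rw [← mk_cons]; rfl
  have hnu : FreeGroup.norm u = C + 1 := by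
    rw [norm_mk_reduced (isReduced_replicate _ _), List.length_replicate]
  have hnu' : FreeGroup.norm (FreeGroup.mk (List.replicate C l)) = C := by
    rw [norm_mk_reduced (isReduced_replicate _ _), List.length_replicate]
  have huw : toWord u = l :: List.replicate C l := by
    change toWord (FreeGroup.mk (List.replicate (C + 1) l)) = _
    rw [toWord_mk, (isReduced_replicate _ _).reduce_eq]; rfl
  let v : Fr n := g⁻¹ * β u
  have hv : FreeGroup.norm v = C + 1 := by
    have h := hβ.norm_eq 1 u
    rw [inv_one, one_mul, hnu] at h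
    exact h
  have hv' : FreeGroup.norm ((lt (τ l))⁻¹ * v) = C := by
    have h := hβ.norm_eq (lt l) u
    rw [hτ, hu1, inv_mul_cancel_left, hnu', ← hu1] at h
    rw [← h]
    congr 1
    change (lt (τ l))⁻¹ * (g⁻¹ * β u) = _
    group
  have hvw : toWord v = τ l :: toWord ((lt (τ l))⁻¹ * v) := by
    have h := toWord_mul_of_norm (w := lt (τ l)) (v := (lt (τ l))⁻¹ * v)
      (by rw [mul_inv_cancel_left, hv, hv', norm_lt]; omega)
    rw [mul_inv_cancel_left] at h
    rw [h]
    rw [toWord_lt]; rfl
  have h1 : FreeGroup.norm (g * v) = FreeGroup.norm g + FreeGroup.norm v := by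
    have h := norm_inv_mul hgi hvw (Ne.symm hl2)
    rw [inv_inv, norm_inv_eq] at h
    exact h
  have h2 : toWord (g * v) = l0 :: (L ++ toWord v) := by
    rw [toWord_mul_of_norm h1, hgw]; rfl
  have h3 := norm_inv_mul huw h2 hl1
  have h4 := hβC u
  have h5 : dd u (β u) = FreeGroup.norm (u⁻¹ * (g * v)) := by
    unfold dd
    congr 2
    change β u = g * (g⁻¹ * β u)
    group
  rw [h5, h3, hnu, h1, hv] at h4
  omega

end Pool.Agent.FBC61
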