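import Pool.Agent.FBC61.Zsq

/-! # Mutanguha's criterion passes to commensurable groups -/

namespace Pool.Agent.FBC61

lemma map_conj_pow {G : Type} [Group G] {B : Subgroup G} {b : G}
    (h : B.map (MulAut.conj b).toMonoidHom = B) (k : ℕ) :
    B.map (MulAut.conj (b ^ k)).toMonoidHom = B := by
  induction k with
  | zero =>
    rw [pow_zero, map_one]
    exact Subgroup.map_id B
  | succ k ih =>
    have e : (MulAut.conj (b ^ (k + 1))).toMonoidHom =
        (MulAut.conj (b ^ k)).toMonoidHom.comp (MulAut.conj b).toMonoidHom := by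
      ext x
      simp [pow_succ, mul_assoc]
    rw [e, ← Subgroup.map_map, h, ih]

lemma conj_mem {G : Type} [Group G] {B : Subgroup G} {b : G}
    (h : B.map (MulAut.conj b).toMonoidHom = B) {x : G} : b * x * b⁻¹ ∈ B ↔ x ∈ B := by
  constructor
  · intro hx
    rw [← h] at hx
    obtain ⟨y, hy, e⟩ := hx
    have e' : b * y * b⁻¹ = b * x * b⁻¹ := e
    have : y = x := by
      have := mul_right_cancel e'
      exact mul_left_cancel this
    rwa [← this]
  · intro hx
    rw [← h]
    exact ⟨x, hx, rfl⟩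

lemma map_conj_of_mem {G : Type} [Group G] {B : Subgroup G} {b : G}
    (h : ∀ x, b * x * b⁻¹ ∈ B ↔ x ∈ B) : B.map (MulAut.conj b).toMonoidHom = B := by
  ext y
  constructor
  · rintro ⟨x, hx, rfl⟩
    exact (h x).2 hx
  · intro hy
    refine ⟨b⁻¹ * y * b, ?_, ?_⟩
    · rw [← SetLike.mem_coe] at hy
      apply (h _).1
      have : b * (b⁻¹ * y * b) * b⁻¹ = y := by group
      rw [this]; exact hy
    · change b * (b⁻¹ * y * b) * b⁻¹ = y
      group

lemma free_of_le {G : Type} [Group G] {B C : Subgroup G} (h : B ≤ C) (hC : IsFreeGroup C) :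
    IsFreeGroup B := by
  have h1 : IsFreeGroup (B.subgroupOf C) := subgroupIsFreeOfIsFree _
  exact IsFreeGroup.ofMulEquiv (Subgroup.subgroupOfEquivOfLe h)

/-- The criterion passes from `G` to `H` if a subgroup of finite index in `H` embeds in `G`
and `H` is torsion-free. -/
theorem noThin_transfer {G H : Type} [Group G] [Group H] (H₀ : Subgroup H) (ρ : H₀ →* G)
    (hfi : H₀.FiniteIndex) (hinj : Function.Injective ρ)
    (htf : ∀ (x : H) (k : ℕ), 0 < k → x ^ k = 1 → x = 1) (h : NoThinTorus G) :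
    NoThinTorus H := by
  intro B b hfg hne hfree hconj hpow
  let N : Subgroup H := H₀.normalCore
  have hN : N.FiniteIndex := inferInstance
  have hNle : N ≤ H₀ := Subgroup.normalCore_le H₀
  let B1 : Subgroup H := B ⊓ N
  have hB1 : B1 ≤ B := inf_le_left
  have hB1H : B1 ≤ H₀ := inf_le_right.trans hNle
  have hb : ∀ x, b * x * b⁻¹ ∈ B1 ↔ x ∈ B1 := by
    intro x
    have h1 := conj_mem hconj (x := x)
    have h2 : b * x * b⁻¹ ∈ N ↔ x ∈ N := by
      constructor
      · intro hx
        have := (inferInstance : N.Normal).conj_mem _ hx b⁻¹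
        have e : b⁻¹ * (b * x * b⁻¹) * b⁻¹⁻¹ = x := by group
        rwa [e] at this
      · intro hx
        exact (inferInstance : N.Normal).conj_mem _ hx b
    rw [Subgroup.mem_inf, Subgroup.mem_inf, h1, h2]
  have hb1 := map_conj_of_mem hb
  obtain ⟨M, hM, _, hbM⟩ := Subgroup.exists_pow_mem_of_index_ne_zero hN.index_ne_zero b
  have hb2 := map_conj_pow hb1 M
  -- `B1` is nontrivial
  obtain ⟨⟨x, hx⟩, hx1⟩ := Subgroup.ne_bot_iff_exists_ne_one.1 hne
  have hx1' : x ≠ 1 := fun h => hx1 (Subtype.ext h)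
  obtain ⟨K, hK, _, hxK⟩ := Subgroup.exists_pow_mem_of_index_ne_zero hN.index_ne_zero x
  have hy1 : x ^ K ≠ 1 := fun h => hx1' (htf x K hK h)
  have hyB : x ^ K ∈ B1 := ⟨pow_mem hx K, hxK⟩
  -- the subgroup in `H₀`
  let B2 : Subgroup H₀ := B1.subgroupOf H₀
  let b2 : H₀ := ⟨b ^ M, hNle hbM⟩
  have e1 : B1 ≃* B2 := (Subgroup.subgroupOfEquivOfLe hB1H).symm
  have e2 : B2 ≃* B2.map ρ := Subgroup.equivMapOfInjective _ ρ hinj
  have hB1fg : Group.FG B1 := by
    have h1 : Group.FG B := (Group.fg_iff_subgroup_fg B).2 hfg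
    have h2 : (B1.subgroupOf B).FiniteIndex := by
      have h3 : B1.subgroupOf B = N.subgroupOf B := by
        ext z
        simp only [Subgroup.mem_subgroupOf]
        exact ⟨fun hz => hz.2, fun hz => ⟨z.2, hz⟩⟩
      rw [h3]
      infer_instance
    have h4 : Group.FG (B1.subgroupOf B) := inferInstance
    exact Group.fg_of_surjective (f := (Subgroup.subgroupOfEquivOfLe hB1).toMonoidHom)
      (Subgroup.subgroupOfEquivOfLe hB1).surjective
  have c1 : (B2.map ρ).FG := by
    rw [← Group.fg_iff_subgroup_fg]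
    exact Group.fg_of_surjective (f := (e1.trans e2).toMonoidHom) (e1.trans e2).surjective
  have c2 : B2.map ρ ≠ ⊥ := by
    rw [Ne, Subgroup.map_eq_bot_iff_of_injective _ hinj]
    intro h0
    have h1 : (⟨x ^ K, hB1H hyB⟩ : H₀) ∈ B2 := hyB
    rw [h0, Subgroup.mem_bot] at h1
    exact hy1 (congrArg Subtype.val h1)
  have c3 : IsFreeGroup (B2.map ρ) := by
    have h1 : IsFreeGroup B1 := free_of_le hB1 hfree
    exact IsFreeGroup.ofMulEquiv (e1.trans e2)
  have c4' : B2.map (MulAut.conj b2).toMonoidHom = B2 := by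
    apply map_conj_of_mem
    intro z
    exact conj_mem hb2 (x := (z : H))
  have c4 : (B2.map ρ).map (MulAut.conj (ρ b2)).toMonoidHom = B2.map ρ := by
    have e : (MulAut.conj (ρ b2)).toMonoidHom.comp ρ = ρ.comp (MulAut.conj b2).toMonoidHom := by
      ext z
      simp [MulAut.conj_apply]
    rw [Subgroup.map_map, e, ← Subgroup.map_map, c4']
  have c5 : ∀ k : ℕ, 1 ≤ k → ρ b2 ^ k ∉ B2.map ρ := by
    intro k hk hmem
    rw [← map_pow, Subgroup.mem_map_iff_mem hinj] at hmem
    have h1 : (b ^ M) ^ k ∈ B1 := hmem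
    rw [← pow_mul] at h1
    exact hpow (M * k) (Nat.mul_pos hM hk) h1.1
  have key := h (B2.map ρ) (ρ b2) c1 c2 c3 c4 c5
  have e3 : B2.map ρ ⊔ Subgroup.zpowers (ρ b2) = (B2 ⊔ Subgroup.zpowers b2).map ρ := by
    rw [Subgroup.map_sup, MonoidHom.map_zpowers]
  rw [e3] at key
  have k1 : (B2 ⊔ Subgroup.zpowers b2).FiniteIndex := by
    have h1 : (((B2 ⊔ Subgroup.zpowers b2).map ρ).comap ρ).FiniteIndex := by
      refine ⟨?_⟩
      rw [Subgroup.index_comap]
      have h2 : (((B2 ⊔ Subgroup.zpowers b2).map ρ).subgroupOf ρ.range).FiniteIndex :=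
        inferInstance
      exact h2.index_ne_zero
    rwa [Subgroup.comap_map_eq_self_of_injective hinj] at h1
  have k2 : ((B2 ⊔ Subgroup.zpowers b2).map H₀.subtype).FiniteIndex := by
    refine ⟨?_⟩
    rw [Subgroup.index_map_subtype]
    exact mul_ne_zero k1.index_ne_zero hfi.index_ne_zero
  have k3 : (B2 ⊔ Subgroup.zpowers b2).map H₀.subtype ≤ B ⊔ Subgroup.zpowers b := by
    rw [Subgroup.map_sup, MonoidHom.map_zpowers]
    apply sup_le_sup
    · rintro _ ⟨z, hz, rfl⟩
      exact hB1 hz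
    · rw [Subgroup.zpowers_le]
      exact pow_mem (Subgroup.mem_zpowers b) M
  exact Subgroup.finiteIndex_of_le k3

end Pool.Agent.FBC61
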