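import Pool.Agent.FBC61.Defs

/-! # Cayley graphs for a basis of the fibre and any finite set of elements of height one -/

namespace Pool.Agent.FBC61

open FreeGroup

/-- `φ` is fully irreducible: no power `φ^k`, `k ≥ 1`, maps a nontrivial proper free factor
(generated by a subset of a basis) to a conjugate of itself. -/
def FullyIrreducible {n : ℕ} (φ : MulAut (Fr n)) : Prop :=
  ∀ (J : Type) (b : FreeGroupBasis J (Fr n)) (B : Set J) (k : ℕ) (g : Fr n), 1 ≤ k →
    Subgroup.closure (b '' B) ≠ ⊥ → Subgroup.closure (b '' B) ≠ ⊤ →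
    (Subgroup.closure (b '' B)).map (φ ^ k).toMonoidHom ≠
      (Subgroup.closure (b '' B)).map (MulAut.conj g).toMonoidHom

/-- `g` and `h` are joined by an edge of the Cayley graph with label in `Q`. -/
def QAdj {n : ℕ} (φ : MulAut (Fr n)) (Q : Set (MT φ)) (g h : MT φ) : Prop :=
  ∃ q ∈ Q, h = g * q ∨ g = h * q

/-- `H` acts on the Cayley graph of `F_n ⋊_φ ℤ`, for the basis of the fibre and `Q`, by
automorphisms that preserve the edges with label in the basis and the edges with label in `Q`,
with finite vertex stabilisers and finitely many orbits of vertices. -/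
def GeometricActionQ {n : ℕ} (φ : MulAut (Fr n)) (Q : Set (MT φ)) {H : Type} [Group H]
    (a : H →* Equiv.Perm (MT φ)) : Prop :=
  (∀ h x y, SAdj φ x y → SAdj φ (a h x) (a h y)) ∧
  (∀ h x y, QAdj φ Q x y → QAdj φ Q (a h x) (a h y)) ∧
  (∀ x, {h | a h x = x}.Finite) ∧
  ∃ D : Set (MT φ), D.Finite ∧ ∀ x, ∃ h, ∃ d ∈ D, a h d = x

end Pool.Agent.FBC61
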