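import Pool.Agent.FBC61.Act

/-! # A spanning forest of the finite graph of edge stabilisers and the adapted basis -/

namespace Pool.Agent.FBC61

open FreeGroup
set_option linter.unusedSectionVars false

variable {ι : Type} [DecidableEq ι]

/-- Conjugacy under the free group. -/
def sm : Setoid (Subgroup (Equiv.Perm (FreeGroup ι))) where
  r V W := ∃ g, W = act g V
  iseqv :=
    { refl := fun V => ⟨1, (act_one V).symm⟩
      symm := fun {V W} ⟨g, h⟩ => ⟨g⁻¹, by rw [h, act_inv_act]⟩
      trans := fun {V W Z} ⟨g, h⟩ ⟨k, h'⟩ => ⟨k * g, by rw [h', h, act_mul]⟩ }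

open Classical in
/-- A representative among the edge stabilisers at `1`. -/
noncomputable def rt (φ : MulAut (FreeGroup ι))
    (q : Quotient (sm (ι := ι))) : Subgroup (Equiv.Perm (FreeGroup ι)) :=
  if h : ∃ W ∈ Set.range (U φ), (Quotient.mk sm W) = q then h.choose else ⊥

/-- The root of the component. -/
noncomputable def root (φ : MulAut (FreeGroup ι)) (V : Subgroup (Equiv.Perm (FreeGroup ι))) :
    Subgroup (Equiv.Perm (FreeGroup ι)) := rt φ (Quotient.mk sm V)

lemma root_spec {φ : MulAut (FreeGroup ι)} {V : Subgroup (Equiv.Perm (FreeGroup ι))}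
    (hV : V ∈ Set.range (U φ)) :
    root φ V ∈ Set.range (U φ) ∧ ∃ g, root φ V = act g V := by
  have h : ∃ W ∈ Set.range (U φ), (Quotient.mk sm W) = Quotient.mk sm V := ⟨V, hV, rfl⟩
  have e : root φ V = h.choose := by
    unfold root rt
    rw [dif_pos h]
  rw [e]
  refine ⟨h.choose_spec.1, ?_⟩
  have h2 : sm.r V h.choose := Quotient.exact h.choose_spec.2.symm
  exact h2

lemma root_act (φ : MulAut (FreeGroup ι)) (g : FreeGroup ι)
    (V : Subgroup (Equiv.Perm (FreeGroup ι))) : root φ (act g V) = root φ V := by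
  unfold root
  congr 1
  exact Quotient.sound (sm.symm ⟨g, rfl⟩)

lemma root_root {φ : MulAut (FreeGroup ι)} {V : Subgroup (Equiv.Perm (FreeGroup ι))}
    (hV : V ∈ Set.range (U φ)) : root φ (root φ V) = root φ V := by
  obtain ⟨g, hg⟩ := (root_spec hV).2
  conv_lhs => rw [hg]
  exact root_act φ g V

/-- Distance from the root. -/
noncomputable def dep (φ : MulAut (FreeGroup ι)) (V : Subgroup (Equiv.Perm (FreeGroup ι))) : ℕ :=
  sInf {n | ∃ g, FreeGroup.norm g = n ∧ root φ V = act g V}

lemma dep_le {φ : MulAut (FreeGroup ι)} {V : Subgroup (Equiv.Perm (FreeGroup ι))}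
    {g : FreeGroup ι} (h : root φ V = act g V) : dep φ V ≤ FreeGroup.norm g :=
  Nat.sInf_le ⟨g, rfl, h⟩

lemma exists_dep {φ : MulAut (FreeGroup ι)} {V : Subgroup (Equiv.Perm (FreeGroup ι))}
    (hV : V ∈ Set.range (U φ)) : ∃ g, FreeGroup.norm g = dep φ V ∧ root φ V = act g V := by
  obtain ⟨g, hg⟩ := (root_spec hV).2
  have h : {n | ∃ g, FreeGroup.norm g = n ∧ root φ V = act g V}.Nonempty := ⟨_, g, rfl, hg⟩
  exact Nat.sInf_mem h

section

variable [Finite ι] {φ : MulAut (FreeGroup ι)}

lemma path_last (hc : ∀ x y : ι × Bool, o φ (lt x) = o φ (lt y)) (x : ι × Bool) :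
    ∀ (L : List (ι × Bool)) (V W : Subgroup (Equiv.Perm (FreeGroup ι))),
      V ∈ Set.range (U φ) → W ∈ Set.range (U φ) → IsReduced (L ++ [x]) →
      W = act (FreeGroup.mk (L ++ [x])) V → V = U φ (bar x) ∧ W = act (FreeGroup.mk L) (U φ x) := by
  intro L
  induction L with
  | nil =>
    intro V W hV hW hr h
    obtain ⟨h1, h2⟩ := path_step hc hr hV hW h
    rw [← FreeGroup.one_eq_mk, act_one] at h2
    refine ⟨h2, ?_⟩
    rw [← FreeGroup.one_eq_mk, act_one]
    exact h1
  | cons y L ih =>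
    intro V W hV hW hr h
    obtain ⟨h1, h2⟩ := path_step hc hr hV hW h
    have hr' : IsReduced (L ++ [x]) := List.IsChain.tail hr
    obtain ⟨h3, h4⟩ := ih V (U φ (bar y)) hV ⟨_, rfl⟩ hr' h2.symm
    refine ⟨h3, ?_⟩
    rw [h1, mk_cons, act_mul, ← h4, lt_act]

lemma parent (hc : ∀ x y : ι × Bool, o φ (lt x) = o φ (lt y))
    {V : Subgroup (Equiv.Perm (FreeGroup ι))} (hV : V ∈ Set.range (U φ)) (hne : V ≠ root φ V) :
    ∃ x, V = U φ (bar x) ∧ dep φ (U φ x) < dep φ V := by
  obtain ⟨g, hg1, hg2⟩ := exists_dep hV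
  have hw : toWord g ≠ [] := by
    intro h
    rw [toWord_eq_nil_iff] at h
    rw [h, act_one] at hg2
    exact hne hg2.symm
  obtain ⟨L, x, hL⟩ : ∃ L x, toWord g = L ++ [x] :=
    ⟨_, _, (List.dropLast_append_getLast hw).symm⟩
  have hr : IsReduced (L ++ [x]) := hL ▸ (isReduced_toWord (x := g))
  have hg3 : g = FreeGroup.mk (L ++ [x]) := by rw [← hL, mk_toWord]
  rw [hg3] at hg2
  obtain ⟨h1, h2⟩ := path_last hc x L V (root φ V) hV (root_spec hV).1 hr hg2
  refine ⟨x, h1, ?_⟩
  have h3 : root φ (U φ x) = act (FreeGroup.mk L) (U φ x) := by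
    rw [← h2]
    have := root_act φ (FreeGroup.mk L) (U φ x)
    rw [← this, ← h2, root_root hV]
  have h4 := dep_le h3
  have h5 : FreeGroup.norm g = L.length + 1 := by
    unfold FreeGroup.norm
    rw [hL]; simp
  have h6 := FreeGroup.norm_mk_le (L₁ := L)
  omega

variable [Nonempty ι]

variable (φ) in
/-- The letter of the forest edge that ends in `V`. -/
noncomputable def par (V : Subgroup (Equiv.Perm (FreeGroup ι))) : ι × Bool :=
  Classical.epsilon (fun x => V = U φ (bar x) ∧ dep φ (U φ x) < dep φ V)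

lemma par_spec (hc : ∀ x y : ι × Bool, o φ (lt x) = o φ (lt y))
    {V : Subgroup (Equiv.Perm (FreeGroup ι))} (hV : V ∈ Set.range (U φ)) (hne : V ≠ root φ V) :
    V = U φ (bar (par φ V)) ∧ dep φ (U φ (par φ V)) < dep φ V :=
  Classical.epsilon_spec (parent hc hV hne)

open Classical in
variable (φ) in
/-- The label of the forest path from the root to `V`. -/
noncomputable def uu (V : Subgroup (Equiv.Perm (FreeGroup ι))) : FreeGroup ι :=
  if _ : V ≠ root φ V ∧ dep φ (U φ (par φ V)) < dep φ V then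
    uu (U φ (par φ V)) * lt (par φ V) else 1
termination_by dep φ V
decreasing_by rename_i h; exact h.2

lemma uu_root {V : Subgroup (Equiv.Perm (FreeGroup ι))} (h : V = root φ V) : uu φ V = 1 := by
  rw [uu, dif_neg]
  rintro ⟨h1, _⟩
  exact h1 h

lemma uu_par (hc : ∀ x y : ι × Bool, o φ (lt x) = o φ (lt y))
    {V : Subgroup (Equiv.Perm (FreeGroup ι))} (hV : V ∈ Set.range (U φ)) (hne : V ≠ root φ V) :
    uu φ V = uu φ (U φ (par φ V)) * lt (par φ V) := by
  rw [uu, dif_pos ⟨hne, (par_spec hc hV hne).2⟩]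

lemma root_eq_act (hc : ∀ x y : ι × Bool, o φ (lt x) = o φ (lt y)) :
    ∀ (n : ℕ) (V : Subgroup (Equiv.Perm (FreeGroup ι))), V ∈ Set.range (U φ) → dep φ V ≤ n →
      root φ V = act (uu φ V) V := by
  intro n
  induction n with
  | zero =>
    intro V hV hd
    by_cases h : V = root φ V
    · rw [uu_root h, act_one]; exact h.symm
    · have := (par_spec hc hV h).2
      omega
  | succ n ih =>
    intro V hV hd
    by_cases h : V = root φ V
    · rw [uu_root h, act_one]; exact h.symm
    · obtain ⟨h1, h2⟩ := par_spec hc hV h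
      have h3 := ih (U φ (par φ V)) ⟨_, rfl⟩ (by omega)
      rw [uu_par hc hV h, act_mul]
      have h4 : act (lt (par φ V)) V = U φ (par φ V) :=
        (congrArg (act (lt (par φ V))) h1).trans (lt_act φ _)
      rw [h4, ← h3]
      conv_rhs => rw [← h4, root_act]

variable (φ) in
/-- Forest letters. -/
def TL (x : ι × Bool) : Prop :=
  ∃ V ∈ Set.range (U φ), V ≠ root φ V ∧ (x = par φ V ∨ x = bar (par φ V))

lemma TL_bar {x : ι × Bool} (h : TL φ x) : TL φ (bar x) := by
  obtain ⟨V, hV, hne, h | h⟩ := h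
  · exact ⟨V, hV, hne, Or.inr (by rw [h])⟩
  · exact ⟨V, hV, hne, Or.inl (by rw [h, bar_bar])⟩

variable (φ) in
/-- The loop at the root through the edge `x`. -/
noncomputable def be (x : ι × Bool) : FreeGroup ι :=
  uu φ (U φ x) * lt x * (uu φ (U φ (bar x)))⁻¹

lemma be_bar (x : ι × Bool) : be φ (bar x) = (be φ x)⁻¹ := by
  unfold be
  rw [bar_bar, lt_bar]
  group

lemma be_TL (hc : ∀ x y : ι × Bool, o φ (lt x) = o φ (lt y)) {x : ι × Bool} (h : TL φ x) :
    be φ x = 1 := by
  obtain ⟨V, hV, hne, h | h⟩ := h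
  · unfold be
    have h1 := (par_spec hc hV hne).1
    have h2 := uu_par hc hV hne
    rw [h, ← h1, h2]
    group
  · rw [h, be_bar, inv_eq_one]
    unfold be
    have h1 := (par_spec hc hV hne).1
    have h2 := uu_par hc hV hne
    rw [← h1, h2]
    group

lemma uu_mem (hc : ∀ x y : ι × Bool, o φ (lt x) = o φ (lt y)) :
    ∀ (n : ℕ) (V : Subgroup (Equiv.Perm (FreeGroup ι))), V ∈ Set.range (U φ) → dep φ V ≤ n →
      uu φ V ∈ Subgroup.closure (lt '' {x | TL φ x}) := by
  intro n
  induction n with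
  | zero =>
    intro V hV hd
    by_cases h : V = root φ V
    · rw [uu_root h]; exact one_mem _
    · have := (par_spec hc hV h).2
      omega
  | succ n ih =>
    intro V hV hd
    by_cases h : V = root φ V
    · rw [uu_root h]; exact one_mem _
    · obtain ⟨h1, h2⟩ := par_spec hc hV h
      have h3 := ih (U φ (par φ V)) ⟨_, rfl⟩ (by omega)
      rw [uu_par hc hV h]
      exact mul_mem h3 (Subgroup.subset_closure ⟨_, ⟨V, hV, h, Or.inl rfl⟩, rfl⟩)

lemma fix_TL {f : FreeGroup ι →* FreeGroup ι} (hf : ∀ i, TL φ (i, true) → f (of i) = of i)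
    {u : FreeGroup ι} (hu : u ∈ Subgroup.closure (lt '' {x | TL φ x})) : f u = u := by
  induction hu using Subgroup.closure_induction with
  | mem x hx =>
    obtain ⟨⟨i, b⟩, hi, rfl⟩ := hx
    cases b with
    | true => exact hf i hi
    | false =>
      have hi' : TL φ (i, true) := by
        have := TL_bar hi
        simpa [bar] using this
      rw [lt_false, _root_.map_inv, hf i hi']
  | one => exact _root_.map_one f
  | mul a b _ _ ha hb => rw [_root_.map_mul, ha, hb]
  | inv a _ ha => rw [_root_.map_inv, ha]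

open Classical in
variable (φ) in
/-- Change of basis. -/
noncomputable def eta : FreeGroup ι →* FreeGroup ι :=
  FreeGroup.lift (fun i => if TL φ (i, true) then of i else be φ (i, true))

open Classical in
variable (φ) in
/-- The inverse change of basis. -/
noncomputable def eta' : FreeGroup ι →* FreeGroup ι :=
  FreeGroup.lift (fun i => if TL φ (i, true) then of i else
    (uu φ (U φ (i, true)))⁻¹ * of i * uu φ (U φ (i, false)))

lemma eta_of_TL {i : ι} (h : TL φ (i, true)) : eta φ (of i) = of i := by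
  unfold eta; rw [FreeGroup.lift_apply_of, if_pos h]

lemma eta_of_not {i : ι} (h : ¬ TL φ (i, true)) : eta φ (of i) = be φ (i, true) := by
  unfold eta; rw [FreeGroup.lift_apply_of, if_neg h]

lemma eta'_of_TL {i : ι} (h : TL φ (i, true)) : eta' φ (of i) = of i := by
  unfold eta'; rw [FreeGroup.lift_apply_of, if_pos h]

lemma eta'_of_not {i : ι} (h : ¬ TL φ (i, true)) : eta' φ (of i) =
    (uu φ (U φ (i, true)))⁻¹ * of i * uu φ (U φ (i, false)) := by
  unfold eta'; rw [FreeGroup.lift_apply_of, if_neg h]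

lemma be_true (i : ι) : be φ (i, true) =
    uu φ (U φ (i, true)) * of i * (uu φ (U φ (i, false)))⁻¹ := rfl

lemma eta_eta' (hc : ∀ x y : ι × Bool, o φ (lt x) = o φ (lt y)) (g : FreeGroup ι) :
    eta φ (eta' φ g) = g := by
  have : (eta φ).comp (eta' φ) = MonoidHom.id _ := by
    apply FreeGroup.ext_hom
    intro i
    rw [MonoidHom.comp_apply, MonoidHom.id_apply]
    by_cases h : TL φ (i, true)
    · rw [eta'_of_TL h, eta_of_TL h]
    · rw [eta'_of_not h, _root_.map_mul, _root_.map_mul, _root_.map_inv, eta_of_not h,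
        fix_TL (fun i hi => eta_of_TL hi) (uu_mem hc _ _ ⟨_, rfl⟩ le_rfl),
        fix_TL (fun i hi => eta_of_TL hi) (uu_mem hc _ _ ⟨_, rfl⟩ le_rfl), be_true]
      group
  exact DFunLike.congr_fun this g

lemma eta'_eta (hc : ∀ x y : ι × Bool, o φ (lt x) = o φ (lt y)) (g : FreeGroup ι) :
    eta' φ (eta φ g) = g := by
  have : (eta' φ).comp (eta φ) = MonoidHom.id _ := by
    apply FreeGroup.ext_hom
    intro i
    rw [MonoidHom.comp_apply, MonoidHom.id_apply]
    by_cases h : TL φ (i, true)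
    · rw [eta_of_TL h, eta'_of_TL h]
    · rw [eta_of_not h, be_true, _root_.map_mul, _root_.map_mul, _root_.map_inv, eta'_of_not h,
        fix_TL (fun i hi => eta'_of_TL hi) (uu_mem hc _ _ ⟨_, rfl⟩ le_rfl),
        fix_TL (fun i hi => eta'_of_TL hi) (uu_mem hc _ _ ⟨_, rfl⟩ le_rfl)]
      group
  exact DFunLike.congr_fun this g

/-- The change of basis as an isomorphism. -/
noncomputable def etaE (hc : ∀ x y : ι × Bool, o φ (lt x) = o φ (lt y)) :
    FreeGroup ι ≃* FreeGroup ι where
  toFun := eta φ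
  invFun := eta' φ
  left_inv := eta'_eta hc
  right_inv := eta_eta' hc
  map_mul' := _root_.map_mul _

/-- The adapted basis. -/
noncomputable def bas (hc : ∀ x y : ι × Bool, o φ (lt x) = o φ (lt y)) :
    FreeGroupBasis ι (FreeGroup ι) := (FreeGroupBasis.ofFreeGroup ι).map (etaE hc)

lemma bas_apply (hc : ∀ x y : ι × Bool, o φ (lt x) = o φ (lt y)) (i : ι) :
    bas hc i = eta φ (of i) := rfl

variable (φ) in
/-- The basis elements that are loops at the root `R`. -/
def BB (R : Subgroup (Equiv.Perm (FreeGroup ι))) : Set ι :=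
  {i | ¬ TL φ (i, true) ∧ root φ (U φ (i, true)) = R}

lemma root_bar (x : ι × Bool) : root φ (U φ (bar x)) = root φ (U φ x) := by
  rw [← lt_act φ x, root_act]

lemma closure_le_stF (hc : ∀ x y : ι × Bool, o φ (lt x) = o φ (lt y))
    (R : Subgroup (Equiv.Perm (FreeGroup ι))) :
    Subgroup.closure (bas hc '' BB φ R) ≤ stF R := by
  rw [Subgroup.closure_le]
  rintro _ ⟨i, ⟨hi1, hi2⟩, rfl⟩
  change bas hc i ∈ stF R
  rw [bas_apply, eta_of_not hi1, mem_stF]
  unfold be
  have h1 := root_eq_act hc _ (U φ (i, true)) ⟨_, rfl⟩ le_rfl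
  have h2 := root_eq_act hc _ (U φ (bar (i, true))) ⟨_, rfl⟩ le_rfl
  rw [root_bar, hi2] at h2
  rw [hi2] at h1
  rw [act_mul, act_mul]
  conv_lhs => rw [h2]
  rw [act_inv_act, lt_act, ← h1]

lemma be_mem (hc : ∀ x y : ι × Bool, o φ (lt x) = o φ (lt y)) (x : ι × Bool) :
    be φ x ∈ Subgroup.closure (bas hc '' BB φ (root φ (U φ x))) := by
  by_cases h : TL φ x
  · rw [be_TL hc h]; exact one_mem _
  · obtain ⟨i, b⟩ := x
    cases b with
    | true =>
      apply Subgroup.subset_closure
      refine ⟨i, ⟨h, rfl⟩, ?_⟩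
      rw [bas_apply, eta_of_not h]
    | false =>
      have h' : ¬ TL φ (i, true) := fun h2 => h (TL_bar h2)
      have e : be φ (i, false) = (be φ (i, true))⁻¹ := be_bar (φ := φ) (i, true)
      rw [e]
      apply inv_mem
      apply Subgroup.subset_closure
      refine ⟨i, ⟨h', ?_⟩, ?_⟩
      · exact (root_bar (φ := φ) (i, true)).symm
      · rw [bas_apply, eta_of_not h']

lemma path_mem (hc : ∀ x y : ι × Bool, o φ (lt x) = o φ (lt y)) :
    ∀ (L : List (ι × Bool)) (V W : Subgroup (Equiv.Perm (FreeGroup ι))),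
      V ∈ Set.range (U φ) → W ∈ Set.range (U φ) → IsReduced L → W = act (FreeGroup.mk L) V →
      uu φ W * FreeGroup.mk L * (uu φ V)⁻¹ ∈
        Subgroup.closure (bas hc '' BB φ (root φ V)) := by
  intro L
  induction L with
  | nil =>
    intro V W hV hW _ h
    rw [← FreeGroup.one_eq_mk, act_one] at h
    rw [h, ← FreeGroup.one_eq_mk]
    simp [one_mem]
  | cons x L ih =>
    intro V W hV hW hr h
    obtain ⟨h1, h2⟩ := path_step hc hr hV hW h
    have hr' : IsReduced L := List.IsChain.tail hr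
    have h3 := ih V (U φ (bar x)) hV ⟨_, rfl⟩ hr' h2.symm
    have h4 := be_mem hc x
    have h5 : root φ (U φ x) = root φ V := by
      rw [← h1, h, root_act]
    rw [h5] at h4
    have h6 : uu φ W * FreeGroup.mk (x :: L) * (uu φ V)⁻¹ =
        be φ x * (uu φ (U φ (bar x)) * FreeGroup.mk L * (uu φ V)⁻¹) := by
      unfold be
      rw [mk_cons, h1]
      group
    rw [h6]
    exact mul_mem h4 h3

/-- The factor generated by the loops at a root is the normaliser of the root. -/
lemma closure_eq_stF (hc : ∀ x y : ι × Bool, o φ (lt x) = o φ (lt y))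
    {R : Subgroup (Equiv.Perm (FreeGroup ι))} (hR : R ∈ Set.range (U φ)) (hroot : root φ R = R) :
    Subgroup.closure (bas hc '' BB φ R) = stF R := by
  refine le_antisymm (closure_le_stF hc R) ?_
  intro g hg
  rw [mem_stF] at hg
  have h := path_mem hc (toWord g) R R hR hR isReduced_toWord (by rw [mk_toWord, hg])
  rwa [mk_toWord, uu_root hroot.symm, hroot, one_mul, inv_one, mul_one] at h

end

end Pool.Agent.FBC61
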