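import Pool.Agent.FBC61.Defs
import Pool.Agent.FBC61.Forest

/-! # The vertex stabiliser is finite if the automorphism is irreducible of infinite order -/

namespace Pool.Agent.FBC61

open FreeGroup
set_option linter.unusedSectionVars false

lemma of_mem_closure {n : ℕ} {B : Set (Fin n)} {j : Fin n}
    (h : (of j : Fr n) ∈ Subgroup.closure (of '' B)) : j ∈ B := by
  by_contra hj
  let f : Fr n →* Multiplicative ℤ :=
    FreeGroup.lift (fun i => if i = j then Multiplicative.ofAdd 1 else 1)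
  have hle : Subgroup.closure (of '' B) ≤ f.ker := by
    rw [Subgroup.closure_le]
    rintro _ ⟨i, hi, rfl⟩
    change f (of i) = 1
    have hij : i ≠ j := fun h => hj (h ▸ hi)
    simp only [f, FreeGroup.lift_apply_of, if_neg hij]
  have h1 : f (of j) = 1 := hle h
  simp only [f, FreeGroup.lift_apply_of, if_true] at h1
  have h2 := congrArg Multiplicative.toAdd h1
  simp at h2

lemma mk_mem {n : ℕ} {H : Subgroup (Fr n)} :
    ∀ L : List (Fin n × Bool), (∀ x ∈ L, lt x ∈ H) → (FreeGroup.mk L : Fr n) ∈ H := by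
  intro L
  induction L with
  | nil => intro _; rw [← FreeGroup.one_eq_mk]; exact one_mem _
  | cons x L ih =>
    intro h
    rw [mk_cons]
    exact mul_mem (h x (by simp)) (ih fun y hy => h y (by simp [hy]))

/-- If `φ` is irreducible then all letters have the same orbit size. -/
lemma letters_eq {n : ℕ} {φ : MulAut (Fr n)} (hirr : ¬ Reducible φ) (x y : Fin n × Bool) :
    o φ (lt x) = o φ (lt y) := by
  haveI : Nonempty (Fin n × Bool) := ⟨x⟩
  obtain ⟨x0, hx0⟩ := Finite.exists_min (fun z : Fin n × Bool => o φ (lt z))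
  let B : Set (Fin n) := {i | o φ (of i) = o φ (lt x0)}
  let H : Subgroup (Fr n) := Subgroup.closure (of '' B)
  have c1 : ∀ z : Fin n × Bool, o φ (lt z) = o φ (lt x0) → lt z ∈ H := by
    rintro ⟨i, b⟩ hz
    cases b with
    | true => exact Subgroup.subset_closure ⟨i, hz, rfl⟩
    | false =>
      rw [lt_false] at hz ⊢
      rw [o_inv] at hz
      exact inv_mem (Subgroup.subset_closure ⟨i, hz, rfl⟩)
  have c2 : ∀ g : Fr n, o φ g ≤ o φ (lt x0) → g ∈ H := by
    intro g hg
    rw [← mk_toWord (x := g)]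
    apply mk_mem
    intro z hz
    apply c1
    exact le_antisymm ((o_letter_le hz).trans hg) (hx0 z)
  have c3 : H.map φ.toMonoidHom = H := by
    apply le_antisymm
    · rw [Subgroup.map_le_iff_le_comap, Subgroup.closure_le]
      rintro _ ⟨i, hi, rfl⟩
      change φ (of i) ∈ H
      apply c2
      rw [o_phi]
      exact le_of_eq hi
    · rw [Subgroup.closure_le]
      rintro _ ⟨i, hi, rfl⟩
      refine ⟨φ⁻¹ (of i), ?_, MulAut.apply_inv_self _ φ _⟩
      apply c2
      have e : o φ (φ (φ⁻¹ (of i))) = o φ (φ⁻¹ (of i)) := o_phi _ _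
      rw [MulAut.apply_inv_self] at e
      rw [← e]
      exact le_of_eq hi
  have hbot : H ≠ ⊥ := by
    intro h
    have := c1 x0 rfl
    rw [h, Subgroup.mem_bot] at this
    exact lt_ne_one _ this
  have htop : H = ⊤ := by
    by_contra hne
    apply hirr
    refine ⟨Unit, Fin n, FreeGroupBasis.ofFreeGroup (Fin n), fun _ => B, 1, inferInstance,
      inferInstance, fun i j h => absurd (Subsingleton.elim i j) h, fun _ => ⟨hbot, hne⟩,
      fun _ => ⟨1, ?_⟩⟩
    change H.map φ.toMonoidHom = H.map (MulAut.conj 1).toMonoidHom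
    rw [c3, _root_.map_one]
    exact (Subgroup.map_id H).symm
  have c4 : ∀ z : Fin n × Bool, o φ (lt z) = o φ (lt x0) := by
    rintro ⟨i, b⟩
    have h1 : (of i : Fr n) ∈ H := by rw [htop]; trivial
    have h2 : o φ (of i) = o φ (lt x0) := of_mem_closure h1
    cases b with
    | true => exact h2
    | false => rw [lt_false, o_inv]; exact h2
  rw [c4 x, c4 y]

section

variable {n : ℕ} {φ : MulAut (Fr n)}

/-- Case A. -/
lemma finite_of_top {x : Fin n × Bool} (h : stF (U φ x) = ⊤) :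
    ((Kst φ 1 : Subgroup (Equiv.Perm (Fr n))) : Set (Equiv.Perm (Fr n))).Finite := by
  have h1 : ∀ α ∈ U φ x, α = 1 := by
    intro α hα
    apply Equiv.ext
    intro g
    have hg : g ∈ stF (U φ x) := by rw [h]; trivial
    rw [mem_stF] at hg
    rw [← hg, mem_act] at hα
    have h3 := (U_le φ x hα).2.1
    rwa [Equiv.Perm.mul_apply, Equiv.Perm.mul_apply, Lm_apply, mul_one, Lm_inv_apply,
      inv_mul_eq_one, eq_comm] at h3
  refine Set.Finite.of_injOn (f := fun α : Equiv.Perm (Fr n) => α (lt x)) (t := orb φ (lt x))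
    ?_ ?_ (orb_finite φ (lt x))
  · intro α hα
    exact ⟨α, hα, rfl⟩
  · intro α hα β hβ hab
    have h2 : β⁻¹ * α ∈ U φ x := by
      have h3 : β⁻¹ * α ∈ Kst φ 1 := mul_mem (inv_mem hβ) hα
      refine ⟨h3.1, h3.2.1, ?_⟩
      rw [Equiv.Perm.mul_apply]
      have h4 : α (lt x) = β (lt x) := hab
      rw [h4, pia]
    have h5 := h1 _ h2
    rw [inv_mul_eq_one] at h5
    exact h5.symm

lemma phiA_iter_act (φ : MulAut (Fr n)) (g : Fr n) (V : Subgroup (Equiv.Perm (Fr n))) (p : ℕ) :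
    (phiA φ)^[p] (act g V) = act ((φ ^ p) g) ((phiA φ)^[p] V) := by
  induction p with
  | zero => simp
  | succ p ih =>
    rw [Function.iterate_succ_apply', Function.iterate_succ_apply', ih, phiA_act, pow_succ']
    rfl

/-- Case C. -/
lemma order_of_bot (hc : ∀ x y : Fin n × Bool, o φ (lt x) = o φ (lt y))
    (h : ∀ x, stF (U φ x) = ⊥) : ∃ k : ℕ, 1 ≤ k ∧ φ ^ k = 1 := by
  let f : {V // V ∈ Set.range (U φ)} → {V // V ∈ Set.range (U φ)} := fun V =>
    ⟨phiA φ V.1, by obtain ⟨x, hx⟩ := V.2; rw [← hx]; exact phiA_U hc x⟩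
  have hf : Function.Injective f := by
    intro V W hVW
    apply Subtype.ext
    exact phiA_injective φ (congrArg Subtype.val hVW)
  haveI : Finite {V // V ∈ Set.range (U φ)} := Set.finite_range (U φ)
  let π : Equiv.Perm {V // V ∈ Set.range (U φ)} :=
    Equiv.ofBijective f (Finite.injective_iff_bijective.1 hf)
  have hπ : ∀ (p : ℕ) V, ((π ^ p) V).1 = (phiA φ)^[p] V.1 := by
    intro p
    induction p with
    | zero => intro V; simp
    | succ p ih =>
      intro V
      rw [pow_succ', Equiv.Perm.mul_apply, Function.iterate_succ_apply', ← ih]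
      rfl
  refine ⟨orderOf π, orderOf_pos π, ?_⟩
  have h1 : ∀ x, (phiA φ)^[orderOf π] (U φ x) = U φ x := by
    intro x
    have := hπ (orderOf π) ⟨U φ x, ⟨x, rfl⟩⟩
    rw [pow_orderOf_eq_one] at this
    exact this.symm
  have h2 : ∀ x : Fin n × Bool, (φ ^ orderOf π) (lt x) = lt x := by
    intro x
    have h3 := phiA_iter_act φ (lt x) (U φ (bar x)) (orderOf π)
    rw [lt_act, h1, h1] at h3
    have h4 : (lt x)⁻¹ * (φ ^ orderOf π) (lt x) ∈ stF (U φ (bar x)) := by
      rw [mem_stF, act_mul, ← h3, lt_inv_act]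
    rw [h, Subgroup.mem_bot, inv_mul_eq_one] at h4
    exact h4.symm
  have h5 : (φ ^ orderOf π).toMonoidHom = MonoidHom.id (Fr n) := by
    apply FreeGroup.ext_hom
    intro i
    exact h2 (i, true)
  ext g : 1
  exact DFunLike.congr_fun h5 g

lemma map_conj_bot {A : Subgroup (Fr n)} {g : Fr n}
    (h : A.map (MulAut.conj g).toMonoidHom = ⊥) : A = ⊥ := by
  rwa [Subgroup.map_eq_bot_iff_of_injective _ (MulAut.conj g).injective] at h

/-- Case B. -/
lemma reducible_of (hc : ∀ x y : Fin n × Bool, o φ (lt x) = o φ (lt y))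
    (htop : ∀ x, stF (U φ x) ≠ ⊤) {x0 : Fin n × Bool} (hx0 : stF (U φ x0) ≠ ⊥) :
    Reducible φ := by
  haveI : Nonempty (Fin n) := ⟨x0.1⟩
  let κ : Type := {R : Subgroup (Equiv.Perm (Fr n)) //
    R ∈ Set.range (U φ) ∧ root φ R = R ∧ stF R ≠ ⊥}
  have hfin : Finite κ := by
    have h1 : {R : Subgroup (Equiv.Perm (Fr n)) |
        R ∈ Set.range (U φ) ∧ root φ R = R ∧ stF R ≠ ⊥}.Finite :=
      (Set.finite_range (U φ)).subset fun R hR => hR.1
    exact h1
  have hne : Nonempty κ := by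
    obtain ⟨h1, g, hg⟩ := root_spec (φ := φ) (V := U φ x0) ⟨_, rfl⟩
    refine ⟨⟨root φ (U φ x0), h1, root_root ⟨_, rfl⟩, ?_⟩⟩
    intro h2
    rw [hg, stF_act] at h2
    exact hx0 (map_conj_bot h2)
  have hphi : ∀ R : κ, phiA φ R.1 ∈ Set.range (U φ) := by
    intro R
    obtain ⟨x, hx⟩ := R.2.1
    rw [← hx]
    exact phiA_U hc x
  have hstep : ∀ R : κ, root φ (phiA φ R.1) ∈ Set.range (U φ) ∧
      root φ (root φ (phiA φ R.1)) = root φ (phiA φ R.1) ∧ stF (root φ (phiA φ R.1)) ≠ ⊥ := by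
    intro R
    obtain ⟨h1, g, hg⟩ := root_spec (hphi R)
    refine ⟨h1, root_root (hphi R), ?_⟩
    intro h2
    rw [hg, stF_act] at h2
    have h3 := map_conj_bot h2
    rw [stF_phiA, Subgroup.map_eq_bot_iff_of_injective _ φ.injective] at h3
    exact R.2.2.2 h3
  let f : κ → κ := fun R => ⟨root φ (phiA φ R.1), hstep R⟩
  have hf : Function.Injective f := by
    intro R R' hRR
    have h1 : root φ (phiA φ R.1) = root φ (phiA φ R'.1) := congrArg Subtype.val hRR
    obtain ⟨_, g, hg⟩ := root_spec (hphi R)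
    obtain ⟨_, g', hg'⟩ := root_spec (hphi R')
    rw [hg, hg'] at h1
    have h2 : phiA φ R.1 = phiA φ (act (φ⁻¹ (g⁻¹ * g')) R'.1) := by
      rw [phiA_act, MulAut.apply_inv_self, act_mul, ← h1, act_inv_act]
    have h3 := phiA_injective φ h2
    have h4 : root φ R.1 = root φ R'.1 := by rw [h3, root_act]
    rw [R.2.2.1, R'.2.2.1] at h4
    exact Subtype.ext h4
  refine ⟨κ, Fin n, bas hc, fun R => BB φ R.1,
    Equiv.ofBijective f (Finite.injective_iff_bijective.1 hf), hfin, hne, ?_, ?_, ?_⟩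
  · intro R R' hRR
    rw [Set.disjoint_left]
    rintro i ⟨_, h1⟩ ⟨_, h2⟩
    exact hRR (Subtype.ext (h1.symm.trans h2))
  · intro R
    change Subgroup.closure (bas hc '' BB φ R.1) ≠ ⊥ ∧ Subgroup.closure (bas hc '' BB φ R.1) ≠ ⊤
    rw [closure_eq_stF hc R.2.1 R.2.2.1]
    refine ⟨R.2.2.2, ?_⟩
    obtain ⟨x, hx⟩ := R.2.1
    rw [← hx]
    exact htop x
  · intro R
    change ∃ g : Fr n, (Subgroup.closure (bas hc '' BB φ R.1)).map φ.toMonoidHom =
      (Subgroup.closure (bas hc '' BB φ (root φ (phiA φ R.1)))).map (MulAut.conj g).toMonoidHom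
    rw [closure_eq_stF hc R.2.1 R.2.2.1, closure_eq_stF hc (hstep R).1 (hstep R).2.1]
    obtain ⟨_, g, hg⟩ := root_spec (hphi R)
    refine ⟨g⁻¹, ?_⟩
    rw [← stF_act, hg, act_inv_act, stF_phiA]

/-- The vertex stabiliser is finite. -/
theorem Kst_finite (hirr : ¬ Reducible φ) (hinf : ∀ k : ℕ, 1 ≤ k → φ ^ k ≠ 1) :
    ((Kst φ 1 : Subgroup (Equiv.Perm (Fr n))) : Set (Equiv.Perm (Fr n))).Finite := by
  have hc : ∀ x y : Fin n × Bool, o φ (lt x) = o φ (lt y) := letters_eq hirr
  by_cases htop : ∃ x, stF (U φ x) = ⊤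
  · obtain ⟨x, hx⟩ := htop
    exact finite_of_top hx
  · have htop' : ∀ x, stF (U φ x) ≠ ⊤ := fun x h => htop ⟨x, h⟩
    by_cases hbot : ∃ x, stF (U φ x) ≠ ⊥
    · obtain ⟨x, hx⟩ := hbot
      exact absurd (reducible_of hc htop' hx) hirr
    · have hbot' : ∀ x, stF (U φ x) = ⊥ := fun x => by
        by_contra h
        exact hbot ⟨x, h⟩
      obtain ⟨k, hk, hk'⟩ := order_of_bot hc hbot'
      exact absurd hk' (hinf k hk)

end

end Pool.Agent.FBC61
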