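import Pool.Agent.FBC61.Model

/-! # Commuting elements of mapping tori -/

namespace Pool.Agent.FBC61

open FreeGroup
set_option linter.unusedSectionVars false

lemma of_comm {X : Type*} {i j : X} (h : (of i : FreeGroup X) * of j = of j * of i) : i = j := by
  classical
  have h1 := congrArg toWord h
  have e : ∀ a b : X, toWord ((of a : FreeGroup X) * of b) = [(a, true), (b, true)] := by
    intro a b
    rw [toWord_mul, toWord_of, toWord_of]
    apply IsReduced.reduce_eq
    simp [FreeGroup.IsReduced]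
  rw [e, e] at h1
  simp only [List.cons.injEq, Prod.mk.injEq] at h1
  exact h1.1.1

/-- Commuting elements of a free group satisfy a relation. -/
lemma free_comm {n : ℕ} {x y : Fr n} (h : x * y = y * x) :
    ∃ p q : ℤ, (p ≠ 0 ∨ q ≠ 0) ∧ x ^ p * y ^ q = 1 := by
  classical
  let P : Subgroup (Fr n) := Subgroup.closure {x, y}
  have hx : x ∈ P := Subgroup.subset_closure (by simp)
  have hy : y ∈ P := Subgroup.subset_closure (by simp)
  have hcomm : ∀ a b : P, a * b = b * a := by
    intro a b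
    have := Subgroup.isMulCommutative_closure (k := ({x, y} : Set (Fr n))) (by
      intro a ha b hb
      rcases ha with rfl | ha <;> rcases hb with rfl | hb
      · rfl
      · rw [Set.mem_singleton_iff] at hb; rw [hb, h]
      · rw [Set.mem_singleton_iff] at ha; rw [ha, h]
      · rw [Set.mem_singleton_iff] at ha hb; rw [ha, hb])
    exact this.is_comm.comm a b
  haveI : IsFreeGroup P := subgroupIsFreeOfIsFree P
  let b := IsFreeGroup.basis P
  have hsub : Subsingleton (IsFreeGroup.Generators P) := by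
    refine ⟨fun i j => ?_⟩
    have h1 := hcomm (b i) (b j)
    have h2 := congrArg b.repr h1
    rw [_root_.map_mul, _root_.map_mul, FreeGroupBasis.repr_apply_coe,
      FreeGroupBasis.repr_apply_coe] at h2
    exact of_comm h2
  by_cases hne : Nonempty (IsFreeGroup.Generators P)
  · obtain ⟨i0⟩ := hne
    have hU : Unique (IsFreeGroup.Generators P) :=
      { default := i0, uniq := fun a => Subsingleton.elim _ _ }
    obtain ⟨g, hg⟩ := (inferInstance : IsCyclic (FreeGroup (IsFreeGroup.Generators P)))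
    obtain ⟨p, hp⟩ := hg (b.repr ⟨x, hx⟩)
    obtain ⟨q, hq⟩ := hg (b.repr ⟨y, hy⟩)
    have hrel : ∀ (r s : ℤ), (g ^ p) ^ r * (g ^ q) ^ s = 1 → x ^ r * y ^ s = 1 := by
      intro r s hrs
      have h3 : b.repr ((⟨x, hx⟩ : P) ^ r * (⟨y, hy⟩ : P) ^ s) = 1 := by
        rw [_root_.map_mul, map_zpow, map_zpow]
        rw [← hp, ← hq]
        exact hrs
      rw [EmbeddingLike.map_eq_one_iff] at h3
      have h4 := congrArg Subtype.val h3
      simpa using h4
    by_cases hpq : p = 0 ∧ q = 0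
    · refine ⟨1, 0, Or.inl one_ne_zero, hrel 1 0 ?_⟩
      rw [hpq.1]; simp
    · refine ⟨q, -p, ?_, hrel q (-p) ?_⟩
      · by_contra hcon
        push Not at hcon
        exact hpq ⟨by omega, hcon.1⟩
      · rw [← zpow_mul, ← zpow_mul, ← zpow_add]
        have : p * q + q * -p = 0 := by ring
        rw [this, zpow_zero]
  · have hE : IsEmpty (IsFreeGroup.Generators P) := not_nonempty_iff.1 hne
    have hs : ∀ z : P, z = 1 := by
      intro z
      apply b.repr.injective
      rw [_root_.map_one]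
      exact Subsingleton.elim _ _
    refine ⟨1, 0, Or.inl one_ne_zero, ?_⟩
    have := congrArg Subtype.val (hs ⟨x, hx⟩)
    simpa using this

lemma zpow_height {n : ℕ} {φ : MulAut (Fr n)} (g : MT φ) (k : ℤ) : ht (g ^ k) = k * ht g := by
  induction k using Int.induction_on with
  | zero => rw [zpow_zero, ht_one, zero_mul]
  | succ i ih => rw [zpow_add_one, ht_mul, ih]; ring
  | pred i ih => rw [zpow_sub_one, ht_mul, ih, ht_inv]; ring

lemma eq_il {n : ℕ} {φ : MulAut (Fr n)} {g : MT φ} (h : ht g = 0) : g = il φ g.left := by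
  conv_lhs => rw [decomp g, h, tt_zero, mul_one]

lemma il_pow {n : ℕ} {φ : MulAut (Fr n)} (x : Fr n) (k : ℤ) : il φ (x ^ k) = il φ x ^ k :=
  map_zpow (SemidirectProduct.inl (φ := zpowersHom (MulAut (Fr n)) φ)) x k

/-- An element of nonzero height does not commute with a nontrivial element of the fibre. -/
lemma no_comm_pos {n : ℕ} {φ : MulAut (Fr n)} (ha : Atoroidal φ) {w : Fr n} (hw : w ≠ 1)
    {g : MT φ} (hg : 0 < ht g) (hc : g * il φ w = il φ w * g) : False := by
  obtain ⟨k, hk⟩ : ∃ k : ℕ, ht g = (k : ℤ) := ⟨(ht g).toNat, by omega⟩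
  apply ha w hw k (by omega)
  rw [isConj_iff]
  refine ⟨g.left, ?_⟩
  have hd := decomp g
  rw [hk] at hd
  rw [hd] at hc
  have e1 : il φ g.left * tt φ (k : ℤ) * il φ w =
      il φ (g.left * (φ ^ (k : ℤ)) w) * tt φ (k : ℤ) := by
    rw [mul_assoc, tt_il, il_mul, mul_assoc]
  have e2 : il φ w * (il φ g.left * tt φ (k : ℤ)) = il φ (w * g.left) * tt φ (k : ℤ) := by
    rw [il_mul, mul_assoc]
  rw [e1, e2] at hc
  have h1 := il_mul_tt_inj hc
  rw [zpow_natCast] at h1
  rw [h1, mul_inv_cancel_right]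

lemma no_comm {n : ℕ} {φ : MulAut (Fr n)} (ha : Atoroidal φ) {w : Fr n} (hw : w ≠ 1)
    {g : MT φ} (hg : ht g ≠ 0) (hc : g * il φ w = il φ w * g) : False := by
  rcases lt_or_gt_of_ne hg with h | h
  · refine no_comm_pos ha hw (g := g⁻¹) (by rw [ht_inv]; omega) ?_
    rw [inv_mul_eq_iff_eq_mul, ← mul_assoc, hc, mul_assoc, mul_inv_cancel, mul_one]
  · exact no_comm_pos ha hw h hc

/-- A mapping torus of an atoroidal automorphism contains no `ℤ²`. -/
lemma noZsq {n : ℕ} {φ : MulAut (Fr n)} (ha : Atoroidal φ) {g1 g2 : MT φ}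
    (hc : g1 * g2 = g2 * g1) : ∃ p q : ℤ, (p ≠ 0 ∨ q ≠ 0) ∧ g1 ^ p * g2 ^ q = 1 := by
  have hC : Commute g1 g2 := hc
  by_cases h0 : ht g1 = 0 ∧ ht g2 = 0
  · obtain ⟨h1, h2⟩ := h0
    have e1 := eq_il h1
    have e2 := eq_il h2
    have h3 : g1.left * g2.left = g2.left * g1.left := by
      apply il_injective (φ := φ)
      rw [il_mul, il_mul, ← e1, ← e2, hc]
    obtain ⟨p, q, hpq, h4⟩ := free_comm h3
    refine ⟨p, q, hpq, ?_⟩
    rw [e1, e2, ← il_pow, ← il_pow, ← il_mul, h4]
    exact _root_.map_one _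
  · by_cases hz : g1 ^ (ht g2) * g2 ^ (-(ht g1)) = 1
    · refine ⟨ht g2, -(ht g1), ?_, hz⟩
      by_contra hcon
      push Not at hcon
      exact h0 ⟨by omega, hcon.1⟩
    · exfalso
      have hh : ht (g1 ^ (ht g2) * g2 ^ (-(ht g1))) = 0 := by
        rw [ht_mul, zpow_height, zpow_height]; ring
      have hw := eq_il hh
      have hw1 : (g1 ^ (ht g2) * g2 ^ (-(ht g1))).left ≠ 1 := by
        intro h
        apply hz
        rw [hw, h]
        exact _root_.map_one _
      have c1 : Commute g1 (g1 ^ (ht g2) * g2 ^ (-(ht g1))) :=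
        ((Commute.refl g1).zpow_right _).mul_right (hC.zpow_right _)
      have c2 : Commute g2 (g1 ^ (ht g2) * g2 ^ (-(ht g1))) :=
        (hC.symm.zpow_right _).mul_right ((Commute.refl g2).zpow_right _)
      by_cases h1 : ht g1 = 0
      · have h2 : ht g2 ≠ 0 := fun h => h0 ⟨h1, h⟩
        refine no_comm ha hw1 h2 ?_
        rw [← hw]; exact c2
      · refine no_comm ha hw1 h1 ?_
        rw [← hw]; exact c1

/-- (T1) Atoroidality passes to commensurable mapping tori. -/
theorem atoroidal_of_embedding {n m : ℕ} {φ : MulAut (Fr n)} {ψ : MulAut (Fr m)}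
    (H₀ : Subgroup (MT ψ)) (ρ : H₀ →* MT φ) (hfi : H₀.FiniteIndex)
    (hinj : Function.Injective ρ) (ha : Atoroidal φ) : Atoroidal ψ := by
  intro x hx k hk hconj
  rw [isConj_iff] at hconj
  obtain ⟨c, hcx⟩ := hconj
  have hcomm : (il ψ c * tt ψ (k : ℤ)) * il ψ x = il ψ x * (il ψ c * tt ψ (k : ℤ)) := by
    rw [mul_assoc, tt_il, ← mul_assoc, ← mul_assoc, ← il_mul, ← il_mul, zpow_natCast,
      mul_inv_eq_iff_eq_mul.1 hcx]
  have hidx : H₀.index ≠ 0 := hfi.index_ne_zero
  obtain ⟨N1, hN1, _, hm1⟩ := Subgroup.exists_pow_mem_of_index_ne_zero hidx (il ψ x)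
  obtain ⟨N2, hN2, _, hm2⟩ := Subgroup.exists_pow_mem_of_index_ne_zero hidx (il ψ c * tt ψ (k : ℤ))
  have hC : Commute (il ψ x) (il ψ c * tt ψ (k : ℤ)) := hcomm.symm
  have hC2 : Commute (⟨_, hm1⟩ : H₀) ⟨_, hm2⟩ := Subtype.ext (hC.pow_pow N1 N2)
  obtain ⟨p, q, hpq, h⟩ := noZsq ha (g1 := ρ ⟨_, hm1⟩) (g2 := ρ ⟨_, hm2⟩)
    (hC2.map ρ)
  rw [← map_zpow, ← map_zpow, ← _root_.map_mul] at h
  have h1 : (⟨_, hm1⟩ : H₀) ^ p * (⟨_, hm2⟩ : H₀) ^ q = 1 := hinj (by rw [h, _root_.map_one])
  have h2 : (il ψ x ^ N1) ^ p * ((il ψ c * tt ψ (k : ℤ)) ^ N2) ^ q = 1 := by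
    have := congrArg Subtype.val h1
    simpa using this
  have h3 : ht ((il ψ x ^ N1) ^ p * ((il ψ c * tt ψ (k : ℤ)) ^ N2) ^ q) = q * (N2 * k) := by
    rw [ht_mul, zpow_height, zpow_height, ← zpow_natCast, ← zpow_natCast, zpow_height,
      zpow_height, ht_il, ht_mul, ht_il, ht_tt]
    ring
  rw [h2, ht_one] at h3
  have hq : q = 0 := by
    rcases mul_eq_zero.1 h3.symm with h | h
    · exact h
    · exfalso
      have : (N2 : ℤ) * k ≠ 0 := by positivity
      exact this h
  rw [hq, zpow_zero, mul_one] at h2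
  have hp : p ≠ 0 := by
    rcases hpq with h | h
    · exact h
    · exact absurd hq h
  rw [← zpow_natCast, ← zpow_mul, ← il_pow] at h2
  have h4 : x ^ ((N1 : ℤ) * p) = 1 := by
    apply il_injective (φ := ψ)
    rw [h2]; exact (_root_.map_one _).symm
  have h5 : (N1 : ℤ) * p ≠ 0 := mul_ne_zero (by omega) hp
  have h6 : x = 1 := by
    have := (zpow_left_injective (G := Fr m) h5)
    apply this
    change x ^ ((N1 : ℤ) * p) = 1 ^ ((N1 : ℤ) * p)
    rw [h4, one_zpow]
  exact hx h6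

/-- A mapping torus is torsion-free. -/
lemma torsion_free {m : ℕ} {ψ : MulAut (Fr m)} {g : MT ψ} {k : ℕ} (hk : 0 < k)
    (h : g ^ k = 1) : g = 1 := by
  have h1 : ht (g ^ (k : ℤ)) = 0 := by rw [zpow_natCast, h, ht_one]
  rw [zpow_height] at h1
  have h2 : ht g = 0 := by
    rcases mul_eq_zero.1 h1 with h | h
    · omega
    · exact h
  have h3 := eq_il h2
  have h4 : g.left ^ (k : ℤ) = 1 := by
    apply il_injective (φ := ψ)
    rw [il_pow, ← h3, zpow_natCast, h]
    exact (_root_.map_one _).symm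
  have h5 : g.left = 1 := by
    have := (zpow_left_injective (G := Fr m) (n := (k : ℤ)) (by omega))
    apply this
    change g.left ^ (k : ℤ) = 1 ^ (k : ℤ)
    rw [h4, one_zpow]
  rw [h3, h5]
  exact _root_.map_one _

end Pool.Agent.FBC61
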