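import Pool.Agent.FBC61.LevelQ
import Pool.Agent.FBC61.Zsq

/-! # An element of positive height that normalises the stabiliser of the vertex `1` -/

namespace Pool.Agent.FBC61

open FreeGroup
set_option linter.unusedSectionVars false

variable {n : ℕ} {φ : MulAut (Fr n)} {Q : Set (MT φ)}

/-- `κ` preserves the edge `{x, y}`. -/
def PE (x y : MT φ) (κ : Equiv.Perm (MT φ)) : Prop :=
  (κ x = x ∧ κ y = y) ∨ (κ x = y ∧ κ y = x)

/-- The stabiliser of `p`. -/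
def StL (Q : Set (MT φ)) (p : MT φ) : Subgroup (L0 φ Q) where
  carrier := {κ | κ.1 p = p}
  one_mem' := rfl
  mul_mem' := fun {a b} ha hb => by
    change a.1 (b.1 p) = p
    rw [hb, ha]
  inv_mem' := fun {a} ha => by
    change a.1⁻¹ p = p
    rw [Equiv.Perm.inv_eq_iff_eq]; exact ha.symm

lemma vertex_or_edge (hQ : ∀ q ∈ Q, ht q = 1) (hne : Q.Nonempty) (hfin : Q.Finite)
    (p : MT φ) :
    (∃ g : Fr n, SameSt Q p (il φ g)) ∨
    ∃ (g : Fr n) (l : Fin n × Bool), ∀ κ ∈ L0 φ Q, κ p = p ↔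
      PE (il φ g) (il φ (g * lt l)) κ := by
  have hiso : ∀ α ∈ (StL Q p).map rr, IsoT α := by
    rintro α ⟨κ, _, rfl⟩
    exact rr_isoT κ
  have hO : {y | ∃ α ∈ (StL Q p).map rr, α 1 = y}.Finite := by
    have h := (FO_all hQ hne hfin p (il φ 1)).image (fun y : MT φ => y.left)
    refine h.subset ?_
    rintro y ⟨_, ⟨κ, hκ, rfl⟩, rfl⟩
    refine ⟨κ.1 (il φ 1), ⟨κ.1, κ.2, hκ, rfl⟩, rfl⟩
  rcases fix_vertex_or_edge hiso hO with ⟨g, hg⟩ | ⟨g, g', hgg, hd, hg⟩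
  · left
    refine ⟨g, fun κ hκ => ⟨fun h => ?_, fun h => ?_⟩⟩
    · have h1 := hg (rr ⟨κ, hκ⟩) ⟨⟨κ, hκ⟩, h, rfl⟩
      have h2 := rr_spec ⟨κ, hκ⟩ g
      rw [h1] at h2
      exact h2
    · apply eq_of_stab_le (Q := Q) (P := fun κ => κ (il φ g) = il φ g) ?_ ?_ ?_ hκ h
      · intro κ hκ h
        have h1 := hg (rr ⟨κ, hκ⟩) ⟨⟨κ, hκ⟩, h, rfl⟩
        have h2 := rr_spec ⟨κ, hκ⟩ g
        rw [h1] at h2
        exact h2
      · intro f hf
        rw [LG_apply, mul_eq_right] at hf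
        exact il_injective (φ := φ) (hf.trans (_root_.map_one _).symm)
      · intro κ κ' h1 h2
        rw [Equiv.Perm.mul_apply]
        have h3 : κ'⁻¹ (il φ g) = il φ g := by rw [Equiv.Perm.inv_eq_iff_eq]; exact h2.symm
        rw [h3, h1]
  · right
    obtain ⟨l, hl⟩ := List.length_eq_one_iff.1 (show (toWord (g⁻¹ * g')).length = 1 from hd)
    have hg' : g' = g * lt l := by
      have : g⁻¹ * g' = lt l := by
        apply toWord_injective; rw [hl, toWord_lt]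
      rw [← this]; group
    subst hg'
    have hst : ∀ κ ∈ L0 φ Q, κ p = p → PE (il φ g) (il φ (g * lt l)) κ := by
      intro κ hκ h
      have h2 := rr_spec ⟨κ, hκ⟩ g
      have h3 := rr_spec ⟨κ, hκ⟩ (g * lt l)
      rcases hg (rr ⟨κ, hκ⟩) ⟨⟨κ, hκ⟩, h, rfl⟩ with ⟨ha, hb⟩ | ⟨ha, hb⟩
      · rw [ha] at h2; rw [hb] at h3
        exact Or.inl ⟨h2, h3⟩
      · rw [ha] at h2; rw [hb] at h3
        exact Or.inr ⟨h2, h3⟩
    refine ⟨g, l, fun κ hκ => ⟨hst κ hκ, fun h => ?_⟩⟩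
    apply eq_of_stab_le (Q := Q) (P := PE (il φ g) (il φ (g * lt l))) hst ?_ ?_ hκ h
    · intro f hf
      rcases hf with ⟨h1, _⟩ | ⟨h1, h2⟩
      · rw [LG_apply, mul_eq_right] at h1
        exact il_injective (φ := φ) (h1.trans (_root_.map_one _).symm)
      · rw [LG_apply] at h1 h2
        rw [← h1, ← mul_assoc, mul_eq_right] at h2
        have h3 : (il φ f) ^ 2 = 1 := by rw [pow_two]; exact h2
        have h4 := torsion_free (k := 2) (by norm_num) h3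
        exact il_injective (φ := φ) (h4.trans (_root_.map_one _).symm)
    · intro κ κ' h1 h2
      have h2' : PE (il φ g) (il φ (g * lt l)) κ'⁻¹ := by
        rcases h2 with ⟨ha, hb⟩ | ⟨ha, hb⟩
        · exact Or.inl ⟨Equiv.Perm.inv_eq_iff_eq.2 ha.symm, Equiv.Perm.inv_eq_iff_eq.2 hb.symm⟩
        · exact Or.inr ⟨Equiv.Perm.inv_eq_iff_eq.2 hb.symm, Equiv.Perm.inv_eq_iff_eq.2 ha.symm⟩
      unfold PE
      rw [Equiv.Perm.mul_apply, Equiv.Perm.mul_apply]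
      rcases h1 with ⟨ha, hb⟩ | ⟨ha, hb⟩ <;> rcases h2' with ⟨hc, hd⟩ | ⟨hc, hd⟩
      · left; rw [hc, hd]; exact ⟨ha, hb⟩
      · right; rw [hc, hd]; exact ⟨hb, ha⟩
      · right; rw [hc, hd]; exact ⟨ha, hb⟩
      · left; rw [hc, hd]; exact ⟨hb, ha⟩

/-- There is an element of positive height with the same stabiliser as `1`. -/
theorem exists_b (hQ : ∀ q ∈ Q, ht q = 1) (hne : Q.Nonempty) (hfin : Q.Finite) :
    ∃ b : MT φ, 1 ≤ ht b ∧ SameSt Q 1 b := by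
  by_cases hA : ∃ (j : ℕ) (g : Fr n), SameSt Q (tt φ ((j : ℤ) + 1)) (il φ g)
  · obtain ⟨j, g, h⟩ := hA
    refine ⟨(il φ g)⁻¹ * tt φ ((j : ℤ) + 1), ?_, ?_⟩
    · rw [ht_mul, ht_inv, ht_il, ht_tt]; omega
    · have h1 := h.mul (il φ g)⁻¹
      rw [inv_mul_cancel] at h1
      exact h1.symm
  · push Not at hA
    have hB : ∀ j : ℕ, ∃ (g : Fr n) (l : Fin n × Bool), ∀ κ ∈ L0 φ Q,
        κ (tt φ ((j : ℤ) + 1)) = tt φ ((j : ℤ) + 1) ↔ PE (il φ g) (il φ (g * lt l)) κ := by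
      intro j
      rcases vertex_or_edge hQ hne hfin (tt φ ((j : ℤ) + 1)) with ⟨g, hg⟩ | h
      · exact absurd hg (hA j g)
      · exact h
    choose g l hgl using hB
    obtain ⟨i, j, hij, hl⟩ : ∃ i j : ℕ, i < j ∧ l i = l j := by
      obtain ⟨i, j, hne', h⟩ := Finite.exists_ne_map_eq_of_infinite l
      rcases lt_or_gt_of_ne hne' with h' | h'
      · exact ⟨i, j, h', h⟩
      · exact ⟨j, i, h', h.symm⟩
    have key : SameSt Q (tt φ ((i : ℤ) + 1)) (il φ (g i * (g j)⁻¹) * tt φ ((j : ℤ) + 1)) := by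
      intro κ hκ
      rw [hgl i κ hκ]
      have h1 := hgl j _ (conj_mem_L0' (il φ (g i * (g j)⁻¹)) hκ)
      have e1 : ∀ x y : MT φ,
          ((LG φ (il φ (g i * (g j)⁻¹)))⁻¹ * κ * LG φ (il φ (g i * (g j)⁻¹))) x = y ↔
          κ (il φ (g i * (g j)⁻¹) * x) = il φ (g i * (g j)⁻¹) * y := by
        intro x y
        rw [Equiv.Perm.mul_apply, Equiv.Perm.mul_apply, LG_inv_apply, LG_apply,
          inv_mul_eq_iff_eq_mul]
      rw [e1] at h1
      rw [h1]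
      unfold PE
      rw [e1, e1, e1, e1, ← il_mul, ← il_mul]
      have e2 : g i * (g j)⁻¹ * g j = g i := by group
      have e3 : g i * (g j)⁻¹ * (g j * lt (l j)) = g i * lt (l i) := by rw [hl]; group
      rw [e2, e3]
    refine ⟨(tt φ ((i : ℤ) + 1))⁻¹ * (il φ (g i * (g j)⁻¹) * tt φ ((j : ℤ) + 1)), ?_, ?_⟩
    · rw [ht_mul, ht_mul, ht_inv, ht_il, ht_tt, ht_tt]; omega
    · have h1 := key.mul (tt φ ((i : ℤ) + 1))⁻¹
      rw [inv_mul_cancel] at h1
      exact h1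

/-- Every height preserving automorphism commutes with the right multiplication by `b`. -/
lemma comm_b {b : MT φ} (hb : SameSt Q 1 b) {κ : Equiv.Perm (MT φ)} (hκ : κ ∈ L0 φ Q)
    (x : MT φ) : κ (x * b) = κ x * b := by
  obtain ⟨f, hf⟩ := L0_split hκ x
  have h1 := hb.mul x
  rw [mul_one] at h1
  have h2 : (LG φ (il φ f))⁻¹ * κ ∈ L0 φ Q := mul_mem (inv_mem (LG_il_mem f)) hκ
  have h3 : ((LG φ (il φ f))⁻¹ * κ) x = x := by
    rw [Equiv.Perm.mul_apply, LG_inv_apply, hf, inv_mul_cancel_left]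
  have h4 := (h1 _ h2).1 h3
  rw [Equiv.Perm.mul_apply, LG_inv_apply, inv_mul_eq_iff_eq_mul] at h4
  rw [h4, hf, mul_assoc]

lemma comm_b_zpow {b : MT φ} (hb : SameSt Q 1 b) {κ : Equiv.Perm (MT φ)} (hκ : κ ∈ L0 φ Q)
    (k : ℤ) (x : MT φ) : κ (x * b ^ k) = κ x * b ^ k := by
  induction k using Int.induction_on generalizing x with
  | zero => simp
  | succ i ih => rw [zpow_add_one, ← mul_assoc, comm_b hb hκ, ih, mul_assoc]
  | pred i ih =>
    have h1 := comm_b hb hκ (x * b ^ (-(i : ℤ) - 1))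
    have e : x * b ^ (-(i : ℤ) - 1) * b = x * b ^ (-(i : ℤ)) := by
      rw [mul_assoc, ← zpow_add_one, sub_add_cancel]
    rw [e, ih] at h1
    have e2 : κ x * b ^ (-(i : ℤ)) = κ x * b ^ (-(i : ℤ) - 1) * b := by
      rw [mul_assoc, ← zpow_add_one, sub_add_cancel]
    rw [e2] at h1
    exact (mul_right_cancel h1).symm

end Pool.Agent.FBC61
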