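import Pool.Agent.FBC61.Tree

/-! # Finite orbits and bounded displacement in the Cayley tree of a free group -/

namespace Pool.Agent.FBC61

open FreeGroup
set_option linter.unusedSectionVars false

variable {ι : Type} [DecidableEq ι]

/-- The distance of the Cayley tree. -/
def dd (x y : FreeGroup ι) : ℕ := FreeGroup.norm (x⁻¹ * y)

lemma dd_comm (x y : FreeGroup ι) : dd x y = dd y x := by
  unfold dd
  rw [← norm_inv_eq]
  congr 1
  group

lemma dd_self (x : FreeGroup ι) : dd x x = 0 := by
  unfold dd; rw [inv_mul_cancel, FreeGroup.norm_one]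

lemma dd_iso {α : Equiv.Perm (FreeGroup ι)} (h : IsoT α) (x y : FreeGroup ι) :
    dd (α x) (α y) = dd x y := h.norm_eq x y

lemma dd_eq_zero {x y : FreeGroup ι} (h : dd x y = 0) : x = y := by
  unfold dd at h
  rw [FreeGroup.norm_eq_zero, inv_mul_eq_one] at h
  exact h

/-- A product of two words that start with different letters, the first one inverted, is
reduced. -/
lemma norm_inv_mul {u v : FreeGroup ι} {x y : ι × Bool} {L M : List (ι × Bool)}
    (hu : toWord u = x :: L) (hv : toWord v = y :: M) (hxy : x ≠ y) :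
    FreeGroup.norm (u⁻¹ * v) = FreeGroup.norm u + FreeGroup.norm v := by
  have hru : FreeGroup.IsReduced (toWord u⁻¹) := isReduced_toWord
  have hrv : FreeGroup.IsReduced (toWord v) := isReduced_toWord
  have hi : toWord u⁻¹ = FreeGroup.invRev L ++ [bar x] := by
    rw [toWord_inv, hu]
    simp [FreeGroup.invRev, bar]
  have hred : FreeGroup.IsReduced (toWord u⁻¹ ++ toWord v) := by
    rw [hi] at hru ⊢
    rw [hv] at hrv ⊢
    unfold FreeGroup.IsReduced at hru hrv ⊢
    rw [List.isChain_append]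
    refine ⟨hru, hrv, ?_⟩
    intro a ha b hb
    simp only [List.getLast?_append, List.getLast?_singleton, Option.some_or, Option.mem_def,
      Option.some.injEq] at ha
    simp only [List.head?_cons, Option.mem_def, Option.some.injEq] at hb
    subst ha; subst hb
    intro h1
    by_contra h2
    apply hxy
    refine Prod.ext h1 ?_
    change ¬ ((!x.2) = y.2) at h2
    rcases x with ⟨_, _ | _⟩ <;> rcases y with ⟨_, _ | _⟩ <;> simp_all
  have h1 : toWord (u⁻¹ * v) = toWord u⁻¹ ++ toWord v := by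
    rw [toWord_mul, hred.reduce_eq]
  unfold FreeGroup.norm
  rw [h1, List.length_append]
  congr 1
  have := norm_inv_eq (x := u)
  exact this

/-- The convexity of the distance in a tree. -/
lemma dd_mid {x x' : FreeGroup ι} (h : 2 ≤ dd x x') :
    ∃ z, ∀ y, dd z y + 1 ≤ max (dd x y) (dd x' y) := by
  rcases hw : toWord (x⁻¹ * x') with _ | ⟨l, L⟩
  · have : dd x x' = 0 := by
      unfold dd FreeGroup.norm; rw [hw]; rfl
    omega
  refine ⟨x * lt l, fun y => ?_⟩
  have hr : FreeGroup.IsReduced (l :: L) := hw ▸ (isReduced_toWord (x := x⁻¹ * x'))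
  rcases hy : toWord (x⁻¹ * y) with _ | ⟨l', M⟩
  · have e : x = y := by
      rw [toWord_eq_nil_iff, inv_mul_eq_one] at hy; exact hy
    subst e
    have h1 : dd (x * lt l) x = 1 := by
      unfold dd
      have : (x * lt l)⁻¹ * x = (lt l)⁻¹ := by group
      rw [this, norm_inv_eq, norm_lt]
    rw [h1, dd_comm x' x]
    omega
  · have hr' : FreeGroup.IsReduced (l' :: M) := hy ▸ (isReduced_toWord (x := x⁻¹ * y))
    by_cases hll : l = l'
    · subst hll
      have h1 : x⁻¹ * y = lt l * FreeGroup.mk M := by rw [← mk_cons, ← hy, mk_toWord]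
      have h2 : dd (x * lt l) y = M.length := by
        unfold dd
        have : (x * lt l)⁻¹ * y = FreeGroup.mk M := by
          rw [mul_inv_rev, mul_assoc, h1, inv_mul_cancel_left]
        have hM : FreeGroup.IsReduced M := List.IsChain.tail hr'
        rw [this, norm_mk_reduced hM]
      have h3 : dd x y = M.length + 1 := by
        unfold dd FreeGroup.norm; rw [hy]; simp
      omega
    · have h1 : dd x' y = dd x x' + dd x y := by
        have := norm_inv_mul (u := x⁻¹ * x') (v := x⁻¹ * y) hw hy hll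
        have e : (x⁻¹ * x')⁻¹ * (x⁻¹ * y) = x'⁻¹ * y := by group
        rw [e] at this
        exact this
      have h2 : dd (x * lt l) y ≤ 1 + dd x y := by
        unfold dd
        have e : (x * lt l)⁻¹ * y = (lt l)⁻¹ * (x⁻¹ * y) := by group
        rw [e]
        refine (FreeGroup.norm_mul_le _ _).trans ?_
        rw [norm_inv_eq, norm_lt]
      omega

/-- The word metric is bipartite: three points cannot be pairwise adjacent. -/
lemma dd_bip {x y z : FreeGroup ι} (h1 : dd x y ≤ 1) (h2 : dd x z ≤ 1) (h3 : dd y z ≤ 1)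
    (hxy : x ≠ y) (hxz : x ≠ z) : y = z := by
  by_contra hyz
  have e1 : dd x y = 1 := by
    have : dd x y ≠ 0 := fun h => hxy (dd_eq_zero h)
    omega
  have e2 : dd x z = 1 := by
    have : dd x z ≠ 0 := fun h => hxz (dd_eq_zero h)
    omega
  obtain ⟨l, hl⟩ := List.length_eq_one_iff.1 (show (toWord (x⁻¹ * y)).length = 1 from e1)
  obtain ⟨m, hm⟩ := List.length_eq_one_iff.1 (show (toWord (x⁻¹ * z)).length = 1 from e2)
  by_cases hlm : l = m
  · apply hyz
    have : x⁻¹ * y = x⁻¹ * z := by
      apply toWord_injective; rw [hl, hm, hlm]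
    exact mul_left_cancel this
  · have := norm_inv_mul (u := x⁻¹ * y) (v := x⁻¹ * z) hl hm hlm
    have e : (x⁻¹ * y)⁻¹ * (x⁻¹ * z) = y⁻¹ * z := by group
    rw [e] at this
    unfold dd at h3 e1 e2
    omega

/-- A group of automorphisms of the tree with a finite orbit fixes a vertex or preserves an
edge. -/
theorem fix_vertex_or_edge {V : Subgroup (Equiv.Perm (FreeGroup ι))} (hV : ∀ α ∈ V, IsoT α)
    {p : FreeGroup ι} (hO : {y | ∃ α ∈ V, α p = y}.Finite) :
    (∃ g, ∀ α ∈ V, α g = g) ∨
    ∃ g g', g ≠ g' ∧ dd g g' = 1 ∧ ∀ α ∈ V, (α g = g ∧ α g' = g') ∨ (α g = g' ∧ α g' = g) := by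
  classical
  let O : Finset (FreeGroup ι) := hO.toFinset
  have hOmem : ∀ y, y ∈ O ↔ ∃ α ∈ V, α p = y := fun y => by simp [O]
  let R : FreeGroup ι → ℕ := fun x => O.sup (fun y => dd x y)
  have hRinv : ∀ α ∈ V, ∀ x, R (α x) ≤ R x := by
    intro α hα x
    apply Finset.sup_le
    intro y hy
    obtain ⟨β, hβ, rfl⟩ := (hOmem y).1 hy
    have h1 : α⁻¹ (β p) ∈ O := (hOmem _).2 ⟨α⁻¹ * β, mul_mem (inv_mem hα) hβ, rfl⟩
    have h2 : dd (α x) (β p) = dd x (α⁻¹ (β p)) := by
      rw [← dd_iso (hV α hα) x, pai]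
    rw [h2]
    exact Finset.le_sup (f := fun y => dd x y) h1
  obtain ⟨r, ⟨c, hc⟩, hmin⟩ : ∃ r, (∃ c, R c = r) ∧ ∀ x, r ≤ R x := by
    have hne : ∃ r, ∃ c, R c = r := ⟨R 1, 1, rfl⟩
    refine ⟨Nat.find hne, Nat.find_spec hne, fun x => Nat.find_min' hne ⟨x, rfl⟩⟩
  have hmv : ∀ α ∈ V, ∀ x, R x = r → R (α x) = r := fun α hα x hx =>
    le_antisymm (hx ▸ hRinv α hα x) (hmin _)
  have hclose : ∀ x x', R x = r → R x' = r → dd x x' ≤ 1 := by
    intro x x' hx hx'
    by_contra hcon
    obtain ⟨z, hz⟩ := dd_mid (show 2 ≤ dd x x' by omega)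
    have hOne : O.Nonempty := ⟨p, (hOmem p).2 ⟨1, one_mem _, rfl⟩⟩
    obtain ⟨y, hy, hy2⟩ := Finset.exists_mem_eq_sup O hOne (fun y => dd z y)
    have h1 : R z = dd z y := hy2
    have h2 := hz y
    have h3 : dd x y ≤ R x := Finset.le_sup (f := fun y => dd x y) hy
    have h4 : dd x' y ≤ R x' := Finset.le_sup (f := fun y => dd x' y) hy
    have h5 := hmin z
    omega
  by_cases hfix : ∀ α ∈ V, α c = c
  · exact Or.inl ⟨c, hfix⟩
  · right
    push Not at hfix
    obtain ⟨α, hα, hαc⟩ := hfix
    have hc' := hmv α hα c hc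
    refine ⟨c, α c, fun h => hαc h.symm, ?_, ?_⟩
    · have h1 := hclose c (α c) hc hc'
      have h2 : dd c (α c) ≠ 0 := fun h => hαc (dd_eq_zero h).symm
      omega
    · have honly : ∀ x, R x = r → x = c ∨ x = α c := by
        intro x hx
        by_contra hcon
        push Not at hcon
        exact hcon.2 (dd_bip (hclose c x hc hx) (hclose c (α c) hc hc') (hclose x (α c) hx hc')
          (fun h => hcon.1 h.symm) (fun h => hαc h.symm))
      intro β hβ
      have h1 := honly (β c) (hmv β hβ c hc)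
      have h2 := honly (β (α c)) (hmv β hβ _ hc')
      have hinj : β c ≠ β (α c) := fun h => hαc (β.injective h).symm
      rcases h1 with h1 | h1 <;> rcases h2 with h2 | h2
      · exact absurd (h1.trans h2.symm) hinj
      · exact Or.inl ⟨h1, h2⟩
      · exact Or.inr ⟨h1, h2⟩
      · exact absurd (h1.trans h2.symm) hinj

end Pool.Agent.FBC61
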