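import Pool.Agent.FBC61.Defs

/-! # The height of an element of the mapping torus -/

namespace Pool.Agent.FBC61

/-- The height of an element of the mapping torus. -/
def ht {n : ℕ} {φ : MulAut (Fr n)} (g : MT φ) : ℤ := Multiplicative.toAdd g.right

end Pool.Agent.FBC61
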