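import Pool.Agent.FBC61.ModelQ

/-! # Restriction to a level is injective; finite orbits -/

namespace Pool.Agent.FBC61

open FreeGroup
set_option linter.unusedSectionVars false

variable {n : ℕ} {φ : MulAut (Fr n)} {Q : Set (MT φ)}

lemma level_conj (θ : MulAut (Fr n)) (c : MT φ) (h : ∀ x, il φ (θ x) = c⁻¹ * il φ x * c)
    (x y : Fr n) : SAdj φ (il φ x * c) (il φ y * c) ↔ adj (θ x) (θ y) := by
  rw [SAdj_iff_lt]
  constructor
  · rintro ⟨l, hl⟩
    refine ⟨l, il_injective (φ := φ) ?_⟩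
    rw [il_mul, h, h, mul_assoc c⁻¹, hl]
    group
  · rintro ⟨l, hl⟩
    refine ⟨l, ?_⟩
    have h1 := congrArg (il φ) hl
    rw [il_mul, h, h] at h1
    have h2 : il φ y * c = c * (c⁻¹ * il φ y * c) := by group
    rw [h2, h1]
    group

lemma rr_isoT (κ : L0 φ Q) : IsoT (rr κ) := by
  intro x y
  have h0 : ∀ z : Fr n, il φ ((1 : MulAut (Fr n)) z) = (1 : MT φ)⁻¹ * il φ z * 1 := by
    intro z; simp
  have h1 := level_conj 1 1 h0 x y
  have h2 := level_conj 1 1 h0 (rr κ x) (rr κ y)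
  rw [mul_one, mul_one] at h1 h2
  rw [← rr_spec, ← rr_spec, κ.2.1.1, h1] at h2
  exact h2.symm

/-- Bounded displacement on a level. -/
lemma fix_level (hn : 2 ≤ n) {κ : Equiv.Perm (MT φ)} (hκ : κ ∈ L0 φ Q) {k : ℤ} {D : Set (MT φ)}
    (hD : D.Finite) (h : ∀ y, ht y = k → y⁻¹ * κ y ∈ D) : ∀ y, ht y = k → κ y = y := by
  obtain ⟨C, hC⟩ : ∃ C : ℕ, ∀ d ∈ D, FreeGroup.norm d.left ≤ C := by
    obtain ⟨C, hC⟩ := (hD.image (fun d : MT φ => FreeGroup.norm d.left)).bddAbove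
    exact ⟨C, fun d hd => hC ⟨d, hd, rfl⟩⟩
  let κ' : L0 φ Q := ⟨(LG φ (tt φ k))⁻¹ * κ * LG φ (tt φ k), conj_mem_L0' _ hκ⟩
  have hκ' : ∀ x, κ'.1 x = (tt φ k)⁻¹ * κ (tt φ k * x) := by
    intro x
    change ((LG φ (tt φ k))⁻¹ * κ * LG φ (tt φ k)) x = _
    rw [Equiv.Perm.mul_apply, Equiv.Perm.mul_apply, LG_inv_apply, LG_apply]
  have h1 : rr κ' = 1 := by
    apply bounded_displacement hn (rr_isoT κ') (C := C)
    intro w
    have h2 := h (tt φ k * il φ w) (by rw [ht_mul, ht_tt, ht_il, add_zero])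
    have h3 : (tt φ k * il φ w)⁻¹ * κ (tt φ k * il φ w) = il φ (w⁻¹ * rr κ' w) := by
      have h4 := rr_spec κ' w
      rw [hκ'] at h4
      have h5 : il φ (w⁻¹) = (il φ w)⁻¹ := _root_.map_inv _ _
      rw [il_mul, ← h4, h5]
      group
    rw [h3] at h2
    exact hC _ h2
  intro y hy
  have h2 : (tt φ k)⁻¹ * y = il φ ((tt φ k)⁻¹ * y).left := by
    apply eq_il_of_ht
    rw [ht_mul, ht_inv, ht_tt, hy]; omega
  have h3 := rr_spec κ' ((tt φ k)⁻¹ * y).left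
  rw [h1, Equiv.Perm.one_apply, ← h2, hκ', mul_inv_cancel_left] at h3
  exact mul_left_cancel h3

/-- An automorphism that fixes the level `0` is trivial. -/
lemma eq_one_of_level (hn : 2 ≤ n) (hQ : ∀ q ∈ Q, ht q = 1) (hne : Q.Nonempty) (hfin : Q.Finite)
    {κ : Equiv.Perm (MT φ)} (hκ : κ ∈ L0 φ Q) (h0 : ∀ y, ht y = 0 → κ y = y) : κ = 1 := by
  obtain ⟨q0, hq0⟩ := hne
  have hup : ∀ k : ℤ, (∀ y, ht y = k → κ y = y) → ∀ y, ht y = k + 1 → κ y = y := by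
    intro k hk
    apply fix_level hn hκ (hfin.image (fun q => q0⁻¹ * q))
    intro y hy
    have h1 : ht (y * q0⁻¹) = k := by rw [ht_mul, ht_inv, hy, hQ q0 hq0]; omega
    have h2 : QAdj φ Q (κ (y * q0⁻¹)) (κ y) :=
      (hκ.1.2 _ _).2 ⟨q0, hq0, Or.inl (by group)⟩
    rw [hk _ h1] at h2
    obtain ⟨q, hq, h | h⟩ := h2
    · exact ⟨q, hq, by rw [h]; group⟩
    · exfalso
      have h3 := congrArg ht h
      rw [h1, ht_mul, hκ.2, hy, hQ q hq] at h3
      omega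
  have hdown : ∀ k : ℤ, (∀ y, ht y = k → κ y = y) → ∀ y, ht y = k - 1 → κ y = y := by
    intro k hk
    apply fix_level hn hκ (hfin.image (fun q => q0 * q⁻¹))
    intro y hy
    have h1 : ht (y * q0) = k := by rw [ht_mul, hy, hQ q0 hq0]; omega
    have h2 : QAdj φ Q (κ (y * q0)) (κ y) :=
      (hκ.1.2 _ _).2 ⟨q0, hq0, Or.inr rfl⟩
    rw [hk _ h1] at h2
    obtain ⟨q, hq, h | h⟩ := h2
    · exfalso
      have h3 := congrArg ht h
      rw [hκ.2, ht_mul, h1, hy, hQ q hq] at h3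
      omega
    · refine ⟨q, hq, ?_⟩
      have h3 : κ y = y * q0 * q⁻¹ := by rw [h]; group
      rw [h3]; group
  have hall : ∀ k : ℤ, ∀ y, ht y = k → κ y = y := by
    intro k
    induction k using Int.induction_on with
    | zero => exact h0
    | succ i ih => exact hup _ ih
    | pred i ih => exact hdown _ ih
  exact Equiv.ext fun y => hall _ y rfl

lemma rr_injective (hn : 2 ≤ n) (hQ : ∀ q ∈ Q, ht q = 1) (hne : Q.Nonempty) (hfin : Q.Finite) :
    Function.Injective (rr (φ := φ) (Q := Q)) := by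
  rw [injective_iff_map_eq_one]
  intro κ hκ
  apply Subtype.ext
  apply eq_one_of_level hn hQ hne hfin κ.2
  intro y hy
  rw [eq_il_of_ht hy, rr_spec, hκ, Equiv.Perm.one_apply]

/-- The orbit of `x` under the stabiliser of `p` is finite. -/
def FO (Q : Set (MT φ)) (p x : MT φ) : Prop := {y | ∃ κ ∈ L0 φ Q, κ p = p ∧ κ x = y}.Finite

lemma FO_self (p : MT φ) : FO Q p p := by
  refine (Set.finite_singleton p).subset ?_
  rintro y ⟨κ, _, h1, h2⟩
  rw [← h2, h1]; rfl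

lemma FO_S {p x x' : MT φ} (h : FO Q p x) (ha : SAdj φ x x') : FO Q p x' := by
  have h1 : (⋃ y ∈ {y | ∃ κ ∈ L0 φ Q, κ p = p ∧ κ x = y},
      Set.range (fun l : Fin n × Bool => y * il φ (lt l))).Finite :=
    Set.Finite.biUnion h fun y _ => Set.finite_range _
  refine h1.subset ?_
  rintro z ⟨κ, hκ, hp, rfl⟩
  simp only [Set.mem_iUnion]
  refine ⟨κ x, ⟨κ, hκ, hp, rfl⟩, ?_⟩
  obtain ⟨l, hl⟩ := SAdj_iff_lt.1 ((hκ.1.1 x x').2 ha)
  exact ⟨l, hl.symm⟩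

lemma FO_Q (hfin : Q.Finite) {p x x' : MT φ} (h : FO Q p x) (ha : QAdj φ Q x x') :
    FO Q p x' := by
  have h1 : (⋃ y ∈ {y | ∃ κ ∈ L0 φ Q, κ p = p ∧ κ x = y},
      ((fun q => y * q) '' Q ∪ (fun q => y * q⁻¹) '' Q)).Finite :=
    Set.Finite.biUnion h fun y _ => (hfin.image _).union (hfin.image _)
  refine h1.subset ?_
  rintro z ⟨κ, hκ, hp, rfl⟩
  simp only [Set.mem_iUnion]
  refine ⟨κ x, ⟨κ, hκ, hp, rfl⟩, ?_⟩
  obtain ⟨q, hq, h2 | h2⟩ := (hκ.1.2 x x').2 ha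
  · exact Or.inl ⟨q, hq, h2.symm⟩
  · refine Or.inr ⟨q, hq, ?_⟩
    change κ x * q⁻¹ = κ x'
    rw [h2]; group

lemma FO_all (hQ : ∀ q ∈ Q, ht q = 1) (hne : Q.Nonempty) (hfin : Q.Finite) (p x : MT φ) :
    FO Q p x := by
  obtain ⟨q0, hq0⟩ := hne
  have h1 : ∀ (L : List (Fin n × Bool)) (y : MT φ), FO Q p y →
      FO Q p (y * il φ (FreeGroup.mk L)) := by
    intro L
    induction L with
    | nil =>
      intro y hy
      rw [← FreeGroup.one_eq_mk]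
      have : il φ (1 : Fr n) = 1 := _root_.map_one _
      rw [this, mul_one]; exact hy
    | cons l L ih =>
      intro y hy
      rw [mk_cons, il_mul, ← mul_assoc]
      exact ih _ (FO_S hy (SAdj_iff_lt.2 ⟨l, rfl⟩))
  have h2 : ∀ (k : ℤ) (y : MT φ), FO Q p y → FO Q p (y * q0 ^ k) := by
    intro k y hy
    induction k using Int.induction_on with
    | zero => simpa using hy
    | succ i ih =>
      rw [zpow_add_one, ← mul_assoc]
      exact FO_Q hfin ih ⟨q0, hq0, Or.inl rfl⟩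
    | pred i ih =>
      refine FO_Q hfin ih ⟨q0, hq0, Or.inr ?_⟩
      rw [zpow_sub_one]; group
  have h3 : ∀ k : ℤ, ht (q0 ^ k) = k := by
    intro k
    induction k using Int.induction_on with
    | zero => rfl
    | succ i ih => rw [zpow_add_one, ht_mul, ih, hQ q0 hq0]
    | pred i ih => rw [zpow_sub_one, ht_mul, ih, ht_inv, hQ q0 hq0]; rfl
  have h4 : ht (p⁻¹ * x * (q0 ^ ht (p⁻¹ * x))⁻¹) = 0 := by
    rw [ht_mul, ht_inv, h3]; omega
  have h5 := eq_il_of_ht h4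
  have h6 : x = p * il φ (p⁻¹ * x * (q0 ^ ht (p⁻¹ * x))⁻¹).left * q0 ^ ht (p⁻¹ * x) := by
    rw [← h5]; group
  rw [h6]
  apply h2
  rw [← mk_toWord (x := (p⁻¹ * x * (q0 ^ ht (p⁻¹ * x))⁻¹).left)]
  exact h1 _ _ (FO_self p)

end Pool.Agent.FBC61
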