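import Pool.Agent.FBC61.Tree

/-! # The group of automorphisms of all levels and the orbit sizes of its vertex stabiliser -/

namespace Pool.Agent.FBC61

open FreeGroup
set_option linter.unusedSectionVars false

variable {ι : Type} [DecidableEq ι]

/-- An automorphism as a permutation. -/
def pm (φ : MulAut (FreeGroup ι)) : Equiv.Perm (FreeGroup ι) := MulAut.toPerm _ φ

@[simp] lemma pm_apply (φ : MulAut (FreeGroup ι)) (x : FreeGroup ι) : pm φ x = φ x := rfl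

lemma pm_pow (φ : MulAut (FreeGroup ι)) (k : ℕ) : pm φ ^ k = pm (φ ^ k) :=
  (map_pow (MulAut.toPerm _) φ k).symm

lemma pm_zpow (φ : MulAut (FreeGroup ι)) (k : ℤ) : pm φ ^ k = pm (φ ^ k) :=
  (map_zpow (MulAut.toPerm _) φ k).symm

lemma pm_inv (φ : MulAut (FreeGroup ι)) : (pm φ)⁻¹ = pm φ⁻¹ :=
  (map_inv (MulAut.toPerm _) φ).symm

lemma pm_one_fix (φ : MulAut (FreeGroup ι)) : pm φ 1 = 1 := _root_.map_one φ

lemma pm_Lm (φ : MulAut (FreeGroup ι)) (g : FreeGroup ι) :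
    pm φ * Lm g * (pm φ)⁻¹ = Lm (φ g) := by
  apply Equiv.ext
  intro x
  rw [pm_inv]
  change φ (g * φ⁻¹ x) = φ g * x
  rw [_root_.map_mul]
  congr 1
  exact MulAut.apply_inv_self _ φ x

/-- Permutations that act by tree automorphisms on all levels. -/
def autA (φ : MulAut (FreeGroup ι)) : Subgroup (Equiv.Perm (FreeGroup ι)) where
  carrier := {α | ∀ k : ℤ, IsoT (pm φ ^ k * α * (pm φ ^ k)⁻¹)}
  one_mem' := fun k => by
    simpa using (IsoT.one (ι := ι))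
  mul_mem' := fun {a b} ha hb k => by
    have : pm φ ^ k * (a * b) * (pm φ ^ k)⁻¹ =
      (pm φ ^ k * a * (pm φ ^ k)⁻¹) * (pm φ ^ k * b * (pm φ ^ k)⁻¹) := by group
    rw [this]
    exact (ha k).mul (hb k)
  inv_mem' := fun {a} ha k => by
    have : pm φ ^ k * a⁻¹ * (pm φ ^ k)⁻¹ = (pm φ ^ k * a * (pm φ ^ k)⁻¹)⁻¹ := by group
    rw [this]
    exact (ha k).inv

lemma mem_autA {φ : MulAut (FreeGroup ι)} {α : Equiv.Perm (FreeGroup ι)} :
    α ∈ autA φ ↔ ∀ k : ℤ, IsoT (pm φ ^ k * α * (pm φ ^ k)⁻¹) := Iff.rfl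

lemma autA_isoT {φ : MulAut (FreeGroup ι)} {α : Equiv.Perm (FreeGroup ι)} (h : α ∈ autA φ) :
    IsoT α := by
  simpa using h 0

lemma autA_conj {φ : MulAut (FreeGroup ι)} {α : Equiv.Perm (FreeGroup ι)} (h : α ∈ autA φ) :
    pm φ * α * (pm φ)⁻¹ ∈ autA φ := fun k => by
  have : pm φ ^ k * (pm φ * α * (pm φ)⁻¹) * (pm φ ^ k)⁻¹ =
    pm φ ^ (k + 1) * α * (pm φ ^ (k + 1))⁻¹ := by
    rw [zpow_add_one]; group
  rw [this]
  exact h (k + 1)

lemma autA_conj' {φ : MulAut (FreeGroup ι)} {α : Equiv.Perm (FreeGroup ι)} (h : α ∈ autA φ) :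
    (pm φ)⁻¹ * α * pm φ ∈ autA φ := fun k => by
  have : pm φ ^ k * ((pm φ)⁻¹ * α * pm φ) * (pm φ ^ k)⁻¹ =
    pm φ ^ (k - 1) * α * (pm φ ^ (k - 1))⁻¹ := by
    rw [zpow_sub_one]; group
  rw [this]
  exact h (k - 1)

lemma Lm_mem (φ : MulAut (FreeGroup ι)) (g : FreeGroup ι) : Lm g ∈ autA φ := fun k => by
  rw [pm_zpow, pm_Lm]
  exact isoT_Lm _

/-- The common stabiliser of the vertices `1` and `g`. -/
def Kst (φ : MulAut (FreeGroup ι)) (g : FreeGroup ι) : Subgroup (Equiv.Perm (FreeGroup ι)) where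
  carrier := {α | α ∈ autA φ ∧ α 1 = 1 ∧ α g = g}
  one_mem' := ⟨one_mem _, rfl, rfl⟩
  mul_mem' := fun {a b} ha hb => ⟨mul_mem ha.1 hb.1, by
    rw [Equiv.Perm.mul_apply, hb.2.1, ha.2.1], by
    rw [Equiv.Perm.mul_apply, hb.2.2, ha.2.2]⟩
  inv_mem' := fun {a} ha => ⟨inv_mem ha.1, by
    rw [Equiv.Perm.inv_eq_iff_eq]; exact ha.2.1.symm, by
    rw [Equiv.Perm.inv_eq_iff_eq]; exact ha.2.2.symm⟩

lemma mem_Kst {φ : MulAut (FreeGroup ι)} {g : FreeGroup ι} {α : Equiv.Perm (FreeGroup ι)} :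
    α ∈ Kst φ g ↔ α ∈ autA φ ∧ α 1 = 1 ∧ α g = g := Iff.rfl

lemma mem_Kone {φ : MulAut (FreeGroup ι)} {α : Equiv.Perm (FreeGroup ι)} :
    α ∈ Kst φ 1 ↔ α ∈ autA φ ∧ α 1 = 1 :=
  ⟨fun h => ⟨h.1, h.2.1⟩, fun h => ⟨h.1, h.2, h.2⟩⟩

lemma Kst_le_one (φ : MulAut (FreeGroup ι)) (g : FreeGroup ι) : Kst φ g ≤ Kst φ 1 :=
  fun _ h => mem_Kone.2 ⟨h.1, h.2.1⟩

lemma Kst_conj {φ : MulAut (FreeGroup ι)} {g : FreeGroup ι} {α : Equiv.Perm (FreeGroup ι)}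
    (h : α ∈ Kst φ g) : pm φ * α * (pm φ)⁻¹ ∈ Kst φ (φ g) := by
  refine ⟨autA_conj h.1, ?_, ?_⟩
  · rw [Equiv.Perm.mul_apply, Equiv.Perm.mul_apply]
    have : (pm φ)⁻¹ (1 : FreeGroup ι) = 1 := by
      rw [Equiv.Perm.inv_eq_iff_eq, pm_one_fix]
    rw [this, h.2.1, pm_one_fix]
  · rw [Equiv.Perm.mul_apply, Equiv.Perm.mul_apply]
    have : (pm φ)⁻¹ (φ g) = g := by
      rw [Equiv.Perm.inv_eq_iff_eq, pm_apply]
    rw [this, h.2.2, pm_apply]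

lemma Kst_conj' {φ : MulAut (FreeGroup ι)} {g : FreeGroup ι} {α : Equiv.Perm (FreeGroup ι)}
    (h : α ∈ Kst φ (φ g)) : (pm φ)⁻¹ * α * pm φ ∈ Kst φ g := by
  refine ⟨autA_conj' h.1, ?_, ?_⟩
  · rw [Equiv.Perm.mul_apply, Equiv.Perm.mul_apply, pm_one_fix, h.2.1,
      Equiv.Perm.inv_eq_iff_eq, pm_one_fix]
  · rw [Equiv.Perm.mul_apply, Equiv.Perm.mul_apply, pm_apply, h.2.2,
      Equiv.Perm.inv_eq_iff_eq, pm_apply]

/-- The orbit of `g` under the stabiliser of `1`. -/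
def orb (φ : MulAut (FreeGroup ι)) (g : FreeGroup ι) : Set (FreeGroup ι) :=
  {h | ∃ α ∈ Kst φ 1, α g = h}

lemma self_mem_orb (φ : MulAut (FreeGroup ι)) (g : FreeGroup ι) : g ∈ orb φ g :=
  ⟨1, one_mem _, rfl⟩

lemma orb_norm {φ : MulAut (FreeGroup ι)} {g h : FreeGroup ι} (hh : h ∈ orb φ g) :
    FreeGroup.norm h = FreeGroup.norm g := by
  obtain ⟨α, hα, rfl⟩ := hh
  have := (autA_isoT hα.1).norm_eq 1 g
  simpa [hα.2.1] using this

lemma orb_finite [Finite ι] (φ : MulAut (FreeGroup ι)) (g : FreeGroup ι) : (orb φ g).Finite :=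
  (finite_ball (FreeGroup.norm g)).subset fun _ hh => (orb_norm hh).le

lemma orb_phi (φ : MulAut (FreeGroup ι)) (g : FreeGroup ι) : orb φ (φ g) = φ '' orb φ g := by
  ext h
  constructor
  · rintro ⟨α, hα, rfl⟩
    have h1 : α ∈ Kst φ (φ 1) := by rwa [_root_.map_one]
    refine ⟨_, ⟨_, Kst_conj' h1, rfl⟩, ?_⟩
    rw [Equiv.Perm.mul_apply, Equiv.Perm.mul_apply, pm_apply, ← pm_apply φ, pai]
  · rintro ⟨_, ⟨α, hα, rfl⟩, rfl⟩
    have h1 := Kst_conj hα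
    rw [_root_.map_one] at h1
    refine ⟨_, h1, ?_⟩
    rw [Equiv.Perm.mul_apply, Equiv.Perm.mul_apply, ← pm_apply φ g, pia, pm_apply]

lemma orb_inv_sub (φ : MulAut (FreeGroup ι)) (g : FreeGroup ι) {h : FreeGroup ι}
    (hh : h ∈ orb φ g⁻¹) : h⁻¹ ∈ orb φ g := by
  obtain ⟨α, hα, rfl⟩ := hh
  refine ⟨Lm (α g⁻¹)⁻¹ * α * Lm g⁻¹, mem_Kone.2 ⟨?_, ?_⟩, ?_⟩
  · exact mul_mem (mul_mem (Lm_mem _ _) hα.1) (Lm_mem _ _)
  · change (α g⁻¹)⁻¹ * α (g⁻¹ * 1) = 1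
    rw [mul_one, inv_mul_cancel]
  · change (α g⁻¹)⁻¹ * α (g⁻¹ * g) = (α g⁻¹)⁻¹
    rw [inv_mul_cancel, hα.2.1, mul_one]

lemma orb_inv (φ : MulAut (FreeGroup ι)) (g : FreeGroup ι) :
    orb φ g⁻¹ = (fun x => x⁻¹) '' orb φ g := by
  ext h
  constructor
  · intro hh
    exact ⟨h⁻¹, orb_inv_sub φ g hh, inv_inv h⟩
  · rintro ⟨x, hx, rfl⟩
    exact orb_inv_sub φ g⁻¹ (by rwa [inv_inv])

/-- The orbit size. -/
noncomputable def o (φ : MulAut (FreeGroup ι)) (g : FreeGroup ι) : ℕ := (orb φ g).ncard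

lemma o_phi (φ : MulAut (FreeGroup ι)) (g : FreeGroup ι) : o φ (φ g) = o φ g := by
  unfold o
  rw [orb_phi, Set.ncard_image_of_injective _ (MulEquiv.injective φ)]

lemma o_inv (φ : MulAut (FreeGroup ι)) (g : FreeGroup ι) : o φ g⁻¹ = o φ g := by
  unfold o
  rw [orb_inv, Set.ncard_image_of_injective _ inv_injective]

/-- The map `orb g → orb w` when the stabiliser of `g` fixes `w`. -/
lemma orb_map {φ : MulAut (FreeGroup ι)} {g w : FreeGroup ι} (h : Kst φ g ≤ Kst φ w) :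
    ∃ f : FreeGroup ι → FreeGroup ι, (∀ α ∈ Kst φ 1, f (α g) = α w) ∧ f '' orb φ g = orb φ w := by
  classical
  have key : ∀ x ∈ orb φ g, ∃ α ∈ Kst φ 1, α g = x := fun x hx => hx
  choose! a ha using key
  refine ⟨fun x => a x w, ?_, ?_⟩
  · intro α hα
    have hx : α g ∈ orb φ g := ⟨α, hα, rfl⟩
    obtain ⟨h1, h2⟩ := ha (α g) hx
    have h3 : α⁻¹ * a (α g) ∈ Kst φ g := by
      have h4 : α⁻¹ * a (α g) ∈ Kst φ 1 := mul_mem (inv_mem hα) h1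
      refine ⟨h4.1, h4.2.1, ?_⟩
      rw [Equiv.Perm.mul_apply, h2, pia]
    have h5 := (h h3).2.2
    rw [Equiv.Perm.mul_apply, Equiv.Perm.inv_eq_iff_eq] at h5
    exact h5
  · ext y
    constructor
    · rintro ⟨x, hx, rfl⟩
      exact ⟨a x, (ha x hx).1, rfl⟩
    · rintro ⟨α, hα, rfl⟩
      have hx : α g ∈ orb φ g := ⟨α, hα, rfl⟩
      refine ⟨α g, hx, ?_⟩
      obtain ⟨h1, h2⟩ := ha (α g) hx
      have h3 : α⁻¹ * a (α g) ∈ Kst φ g := by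
        have h4 : α⁻¹ * a (α g) ∈ Kst φ 1 := mul_mem (inv_mem hα) h1
        refine ⟨h4.1, h4.2.1, ?_⟩
        rw [Equiv.Perm.mul_apply, h2, pia]
      have h5 := (h h3).2.2
      rw [Equiv.Perm.mul_apply, Equiv.Perm.inv_eq_iff_eq] at h5
      exact h5

lemma o_le_of_Kst_le [Finite ι] {φ : MulAut (FreeGroup ι)} {g w : FreeGroup ι}
    (h : Kst φ g ≤ Kst φ w) : o φ w ≤ o φ g := by
  obtain ⟨f, _, hf⟩ := orb_map h
  unfold o
  rw [← hf]
  exact Set.ncard_image_le (orb_finite φ g)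

lemma Kst_eq_of_o_le [Finite ι] {φ : MulAut (FreeGroup ι)} {g w : FreeGroup ι}
    (h : Kst φ g ≤ Kst φ w) (ho : o φ g ≤ o φ w) : Kst φ g = Kst φ w := by
  refine le_antisymm h ?_
  obtain ⟨f, hf1, hf2⟩ := orb_map h
  have he : (f '' orb φ g).ncard = (orb φ g).ncard := by
    rw [hf2]
    exact le_antisymm (o_le_of_Kst_le h) ho
  have hinj : Set.InjOn f (orb φ g) :=
    (Set.ncard_image_iff (orb_finite φ g)).1 he
  intro α hα
  have hα1 : α ∈ Kst φ 1 := Kst_le_one _ _ hα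
  refine ⟨hα.1, hα.2.1, ?_⟩
  apply hinj ⟨α, hα1, rfl⟩ (self_mem_orb φ g)
  rw [hf1 α hα1, hα.2.2]
  have := hf1 1 (one_mem _)
  simpa using this.symm

lemma Kst_le_left {φ : MulAut (FreeGroup ι)} {w v : FreeGroup ι}
    (hn : FreeGroup.norm (w * v) = FreeGroup.norm w + FreeGroup.norm v) :
    Kst φ (w * v) ≤ Kst φ w := fun _ hα =>
  ⟨hα.1, hα.2.1, (autA_isoT hα.1).fix_left hα.2.1 hn hα.2.2⟩

lemma o_le_left [Finite ι] {φ : MulAut (FreeGroup ι)} {w v : FreeGroup ι}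
    (hn : FreeGroup.norm (w * v) = FreeGroup.norm w + FreeGroup.norm v) :
    o φ w ≤ o φ (w * v) := o_le_of_Kst_le (Kst_le_left hn)

lemma o_le_right [Finite ι] {φ : MulAut (FreeGroup ι)} {w v : FreeGroup ι}
    (hn : FreeGroup.norm (w * v) = FreeGroup.norm w + FreeGroup.norm v) :
    o φ v ≤ o φ (w * v) := by
  rw [← o_inv φ v, ← o_inv φ (w * v), mul_inv_rev]
  apply o_le_left
  rw [← mul_inv_rev, norm_inv_eq, norm_inv_eq, norm_inv_eq, hn, add_comm]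

/-- every letter of `g` has orbit size at most that of `g`. -/
lemma o_letter_le [Finite ι] {φ : MulAut (FreeGroup ι)} {g : FreeGroup ι} {x : ι × Bool}
    (hx : x ∈ toWord g) : o φ (lt x) ≤ o φ g := by
  obtain ⟨L1, L2, hL⟩ := List.append_of_mem hx
  have hr : IsReduced (L1 ++ x :: L2) := hL ▸ (isReduced_toWord (x := g))
  have hr2 : IsReduced (x :: L2) := List.IsChain.right_of_append hr
  have hr3 : IsReduced L2 := List.IsChain.tail hr2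
  have hr1 : IsReduced L1 := List.IsChain.left_of_append hr
  have hg : g = FreeGroup.mk L1 * (lt x * FreeGroup.mk L2) := by
    rw [← mk_cons, FreeGroup.mul_mk, ← hL, mk_toWord]
  have n0 : FreeGroup.norm g = L1.length + (L2.length + 1) := by
    unfold FreeGroup.norm
    rw [hL]; simp
  have n1 := norm_mk_reduced hr1
  have n2 : FreeGroup.norm (lt x * FreeGroup.mk L2) = L2.length + 1 := by
    rw [← mk_cons, norm_mk_reduced hr2]; simp
  have n3 := norm_mk_reduced hr3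
  calc o φ (lt x) ≤ o φ (lt x * FreeGroup.mk L2) := by
        apply o_le_left; rw [n2, n3, norm_lt]; omega
    _ ≤ o φ (FreeGroup.mk L1 * (lt x * FreeGroup.mk L2)) := by
        apply o_le_right; rw [← hg, n0, n1, n2]
    _ = o φ g := by rw [← hg]

end Pool.Agent.FBC61
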