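import Pool.Agent.FBC61.Ht
import Pool.Agent.FBC61.Orb

/-! # Groups acting on the standard Cayley graph of a free-by-cyclic group -/

namespace Pool.Agent.FBC61

open FreeGroup
set_option linter.unusedSectionVars false

variable {n : ℕ} {φ : MulAut (Fr n)}

lemma ht_mul (a b : MT φ) : ht (a * b) = ht a + ht b := rfl

lemma ht_one : ht (1 : MT φ) = 0 := rfl

lemma ht_inv (a : MT φ) : ht a⁻¹ = - ht a := by
  have h := ht_mul a a⁻¹
  rw [mul_inv_cancel, ht_one] at h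
  omega

/-- Powers of the stable letter. -/
def tt (φ : MulAut (Fr n)) (k : ℤ) : MT φ := SemidirectProduct.inr (Multiplicative.ofAdd k)

/-- The inclusion of the fibre. -/
def il (φ : MulAut (Fr n)) (x : Fr n) : MT φ := SemidirectProduct.inl x

lemma ht_tt (k : ℤ) : ht (tt φ k) = k := rfl

lemma ht_il (x : Fr n) : ht (il φ x) = 0 := rfl

lemma tt_add (j k : ℤ) : tt φ (j + k) = tt φ j * tt φ k := by
  unfold tt
  rw [ofAdd_add, _root_.map_mul]

lemma tt_one : tt φ 1 = stab φ := rfl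

lemma tt_zero : tt φ 0 = 1 := rfl

lemma tt_neg_one : tt φ (-1) = (stab φ)⁻¹ := by
  rw [eq_inv_iff_mul_eq_one, ← tt_one, ← tt_add]; rfl

lemma il_mul (x y : Fr n) : il φ (x * y) = il φ x * il φ y := _root_.map_mul _ x y

lemma decomp (g : MT φ) : g = il φ g.left * tt φ (ht g) := by
  unfold il tt ht
  rw [ofAdd_toAdd]
  exact (SemidirectProduct.inl_left_mul_inr_right g).symm

lemma tt_il (k : ℤ) (x : Fr n) : tt φ k * il φ x = il φ ((φ ^ k) x) * tt φ k := by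
  unfold tt il
  have h := SemidirectProduct.inl_aut (φ := zpowersHom (MulAut (Fr n)) φ)
    (Multiplicative.ofAdd k) x
  have e : (zpowersHom (MulAut (Fr n)) φ) (Multiplicative.ofAdd k) = φ ^ k := by
    rw [zpowersHom_apply]; rfl
  rw [e] at h
  rw [h, mul_assoc, ← _root_.map_mul, inv_mul_cancel, _root_.map_one, mul_one]

lemma il_injective : Function.Injective (il φ) := SemidirectProduct.inl_injective

lemma il_mul_tt_inj {x y : Fr n} {j : ℤ} (h : il φ x * tt φ j = il φ y * tt φ j) : x = y :=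
  il_injective (mul_right_cancel h)

lemma SAdj_iff_lt {g h : MT φ} : SAdj φ g h ↔ ∃ l : Fin n × Bool, h = g * il φ (lt l) := by
  constructor
  · rintro ⟨i, hi | hi⟩
    · exact ⟨(i, true), hi⟩
    · refine ⟨(i, false), ?_⟩
      rw [lt_false]
      have e : il φ (of i)⁻¹ = (gen φ i)⁻¹ := _root_.map_inv _ _
      rw [e, hi]
      group
  · rintro ⟨⟨i, b⟩, hi⟩
    cases b with
    | true => exact ⟨i, Or.inl hi⟩
    | false =>
      refine ⟨i, Or.inr ?_⟩
      rw [lt_false] at hi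
      have e : il φ (of i)⁻¹ = (gen φ i)⁻¹ := _root_.map_inv _ _
      rw [hi, e]
      group

lemma SAdj_level (u v : Fr n) (j : ℤ) :
    SAdj φ (il φ u * tt φ j) (il φ v * tt φ j) ↔ adj ((φ ^ (-j)) u) ((φ ^ (-j)) v) := by
  rw [SAdj_iff_lt]
  have key : ∀ l : Fin n × Bool, il φ u * tt φ j * il φ (lt l) =
      il φ (u * (φ ^ j) (lt l)) * tt φ j := by
    intro l
    rw [mul_assoc, tt_il, il_mul, mul_assoc]
  have hinv : ∀ z : Fr n, (φ ^ (-j)) ((φ ^ j) z) = z := by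
    intro z
    rw [← MulAut.mul_apply, ← zpow_add]
    simp
  have hinv' : ∀ z : Fr n, (φ ^ j) ((φ ^ (-j)) z) = z := by
    intro z
    rw [← MulAut.mul_apply, ← zpow_add]
    simp
  constructor
  · rintro ⟨l, hl⟩
    rw [key] at hl
    have h1 := il_mul_tt_inj hl
    refine ⟨l, ?_⟩
    rw [h1, _root_.map_mul, hinv]
  · rintro ⟨l, hl⟩
    refine ⟨l, ?_⟩
    rw [key]
    congr 2
    have h2 := congrArg (φ ^ j) hl
    rwa [_root_.map_mul, hinv', hinv'] at h2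

/-- Colour preserving automorphisms of the Cayley graph. -/
def AutX (φ : MulAut (Fr n)) : Subgroup (Equiv.Perm (MT φ)) where
  carrier := {κ | (∀ x y, SAdj φ (κ x) (κ y) ↔ SAdj φ x y) ∧
    ∀ x y, TAdj φ (κ x) (κ y) ↔ TAdj φ x y}
  one_mem' := ⟨fun _ _ => Iff.rfl, fun _ _ => Iff.rfl⟩
  mul_mem' := fun {a b} ha hb =>
    ⟨fun x y => (ha.1 (b x) (b y)).trans (hb.1 x y), fun x y => (ha.2 (b x) (b y)).trans (hb.2 x y)⟩
  inv_mem' := fun {a} ha => ⟨fun x y => by rw [← ha.1, pai, pai], fun x y => by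
    rw [← ha.2, pai, pai]⟩

/-- Left multiplications. -/
def LG (φ : MulAut (Fr n)) : MT φ →* Equiv.Perm (MT φ) := MulAction.toPermHom _ _

lemma LG_apply (g x : MT φ) : LG φ g x = g * x := rfl

lemma LG_mem (g : MT φ) : LG φ g ∈ AutX φ := by
  refine ⟨fun x y => ?_, fun x y => ?_⟩
  · simp only [SAdj, LG_apply, mul_assoc, mul_right_inj]
  · simp only [TAdj, LG_apply, mul_assoc, mul_right_inj]

lemma ht_of_SAdj {x y : MT φ} (h : SAdj φ x y) : ht x = ht y := by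
  obtain ⟨l, hl⟩ := SAdj_iff_lt.1 h
  rw [hl, ht_mul, ht_il, add_zero]

lemma ht_chain {κ : Equiv.Perm (MT φ)} (hκ : κ ∈ AutX φ) :
    ∀ (L : List (Fin n × Bool)) (x : MT φ), ht (κ (x * il φ (FreeGroup.mk L))) = ht (κ x) := by
  intro L
  induction L with
  | nil =>
    intro x
    rw [← FreeGroup.one_eq_mk]
    have : il φ (1 : Fr n) = 1 := _root_.map_one _
    rw [this, mul_one]
  | cons l L ih =>
    intro x
    rw [mk_cons, il_mul, ← mul_assoc, ih]
    have h1 : SAdj φ (κ x) (κ (x * il φ (lt l))) := (hκ.1 _ _).2 (SAdj_iff_lt.2 ⟨l, rfl⟩)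
    exact (ht_of_SAdj h1).symm

lemma ht_congr {κ : Equiv.Perm (MT φ)} (hκ : κ ∈ AutX φ) {x y : MT φ} (h : ht x = ht y) :
    ht (κ x) = ht (κ y) := by
  have h1 : ht (x⁻¹ * y) = 0 := by rw [ht_mul, ht_inv, h]; omega
  have h2 : x⁻¹ * y = il φ (x⁻¹ * y).left := by
    conv_lhs => rw [decomp (x⁻¹ * y), h1, tt_zero, mul_one]
  have h3 : y = x * il φ (FreeGroup.mk (toWord (x⁻¹ * y).left)) := by
    rw [mk_toWord, ← h2]; group
  rw [h3, ht_chain hκ]

/-- The change of height along a `t`-edge. -/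
def dl (κ : Equiv.Perm (MT φ)) (x : MT φ) : ℤ := ht (κ (x * stab φ)) - ht (κ x)

lemma dl_cases {κ : Equiv.Perm (MT φ)} (hκ : κ ∈ AutX φ) (x : MT φ) :
    (dl κ x = 1 ∧ κ (x * stab φ) = κ x * stab φ) ∨
    (dl κ x = -1 ∧ κ (x * stab φ) = κ x * (stab φ)⁻¹) := by
  have hst : ht (stab φ) = 1 := rfl
  rcases (hκ.2 x (x * stab φ)).2 (Or.inl rfl) with h | h
  · left
    refine ⟨?_, h⟩
    unfold dl
    rw [h, ht_mul, hst]; omega
  · right
    have h' : κ (x * stab φ) = κ x * (stab φ)⁻¹ := by rw [h]; group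
    refine ⟨?_, h'⟩
    unfold dl
    rw [h', ht_mul, ht_inv, hst]; omega

lemma dl_congr {κ : Equiv.Perm (MT φ)} (hκ : κ ∈ AutX φ) {x y : MT φ} (h : ht x = ht y) :
    dl κ x = dl κ y := by
  unfold dl
  rw [ht_congr hκ h, ht_congr hκ (x := x * stab φ) (y := y * stab φ)]
  rw [ht_mul, ht_mul, h]

lemma dl_step {κ : Equiv.Perm (MT φ)} (hκ : κ ∈ AutX φ) (x : MT φ) :
    dl κ (x * stab φ) = dl κ x := by
  by_contra hne
  have h1 : ht (κ (x * stab φ * stab φ)) = ht (κ x) := by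
    have e1 : dl κ (x * stab φ) = ht (κ (x * stab φ * stab φ)) - ht (κ (x * stab φ)) := rfl
    have e2 : dl κ x = ht (κ (x * stab φ)) - ht (κ x) := rfl
    rcases dl_cases hκ x with ⟨h, _⟩ | ⟨h, _⟩ <;>
    rcases dl_cases hκ (x * stab φ) with ⟨h', _⟩ | ⟨h', _⟩ <;>
    omega
  have h2 := ht_congr (inv_mem hκ) h1
  rw [pia, pia, ht_mul, ht_mul] at h2
  have hst : ht (stab φ) = 1 := rfl
  omega

lemma dl_tt {κ : Equiv.Perm (MT φ)} (hκ : κ ∈ AutX φ) (k : ℤ) : dl κ (tt φ k) = dl κ 1 := by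
  induction k using Int.induction_on with
  | zero => rfl
  | succ i ih => rw [tt_add, tt_one, dl_step hκ, ih]
  | pred i ih =>
    rw [← ih]
    have h := dl_step hκ (tt φ (-(i : ℤ) - 1))
    rw [← tt_one, ← tt_add, sub_add_cancel] at h
    exact h.symm

lemma dl_const {κ : Equiv.Perm (MT φ)} (hκ : κ ∈ AutX φ) (x : MT φ) : dl κ x = dl κ 1 := by
  rw [← dl_tt hκ (ht x)]
  exact dl_congr hκ (ht_tt (ht x)).symm

/-- The automorphisms that preserve the direction of the `t`-edges. -/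
def Dp (κ : Equiv.Perm (MT φ)) : Prop := ∀ x, κ (x * stab φ) = κ x * stab φ

/-- The automorphisms that reverse the direction of the `t`-edges. -/
def Dm (κ : Equiv.Perm (MT φ)) : Prop := ∀ x, κ (x * stab φ) = κ x * (stab φ)⁻¹

lemma Dp_or_Dm {κ : Equiv.Perm (MT φ)} (hκ : κ ∈ AutX φ) : Dp κ ∨ Dm κ := by
  rcases dl_cases hκ 1 with ⟨h, _⟩ | ⟨h, _⟩
  · left
    intro x
    rcases dl_cases hκ x with ⟨_, h'⟩ | ⟨h', _⟩
    · exact h'
    · rw [dl_const hκ, h] at h'; omega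
  · right
    intro x
    rcases dl_cases hκ x with ⟨h', _⟩ | ⟨_, h'⟩
    · rw [dl_const hκ, h] at h'; omega
    · exact h'

lemma Dm_Dm {κ κ' : Equiv.Perm (MT φ)} (h : Dm κ) (h' : Dm κ') : Dp (κ⁻¹ * κ') := by
  intro x
  rw [Equiv.Perm.mul_apply, Equiv.Perm.mul_apply, h' x, Equiv.Perm.inv_eq_iff_eq, h, pai]

lemma Dp_tt {κ : Equiv.Perm (MT φ)} (h : Dp κ) (k : ℤ) (x : MT φ) :
    κ (x * tt φ k) = κ x * tt φ k := by
  induction k using Int.induction_on generalizing x with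
  | zero => rw [tt_zero, mul_one, mul_one]
  | succ i ih => rw [tt_add, tt_one, ← mul_assoc, h, ih, mul_assoc]
  | pred i ih =>
    have h1 := h (x * tt φ (-(i : ℤ) - 1))
    have e : x * tt φ (-(i : ℤ) - 1) * stab φ = x * tt φ (-(i : ℤ)) := by
      rw [mul_assoc, ← tt_one, ← tt_add, sub_add_cancel]
    rw [e, ih] at h1
    have e2 : κ x * tt φ (-(i : ℤ)) = κ x * tt φ (-(i : ℤ) - 1) * stab φ := by
      rw [mul_assoc, ← tt_one, ← tt_add, sub_add_cancel]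
    rw [e2] at h1
    exact (mul_right_cancel h1).symm

/-- The stabiliser of `1`, with preserved directions. -/
def S1 (φ : MulAut (Fr n)) : Set (Equiv.Perm (MT φ)) := {κ | κ ∈ AutX φ ∧ κ 1 = 1 ∧ Dp κ}

lemma S1_inv {κ : Equiv.Perm (MT φ)} (h : κ ∈ S1 φ) : κ⁻¹ ∈ S1 φ := by
  refine ⟨inv_mem h.1, ?_, ?_⟩
  · rw [Equiv.Perm.inv_eq_iff_eq]; exact h.2.1.symm
  · intro x
    rw [Equiv.Perm.inv_eq_iff_eq, h.2.2, pai]

lemma S1_il {κ : Equiv.Perm (MT φ)} (h : κ ∈ S1 φ) (x : Fr n) :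
    κ (il φ x) = il φ (κ (il φ x)).left := by
  have h1 : ht (κ (il φ x)) = 0 := by
    have := ht_congr h.1 (x := il φ x) (y := 1) rfl
    rw [this, h.2.1]; rfl
  conv_lhs => rw [decomp (κ (il φ x)), h1, tt_zero, mul_one]

/-- The induced permutation of the fibre. -/
def toK {κ : Equiv.Perm (MT φ)} (h : κ ∈ S1 φ) : Equiv.Perm (Fr n) where
  toFun x := (κ (il φ x)).left
  invFun x := (κ⁻¹ (il φ x)).left
  left_inv x := by
    change (κ⁻¹ (il φ (κ (il φ x)).left)).left = x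
    rw [← S1_il h, pia]; rfl
  right_inv x := by
    change (κ (il φ (κ⁻¹ (il φ x)).left)).left = x
    rw [← S1_il (S1_inv h), pai]; rfl

lemma toK_spec {κ : Equiv.Perm (MT φ)} (h : κ ∈ S1 φ) (x : Fr n) (k : ℤ) :
    κ (il φ x * tt φ k) = il φ (toK h x) * tt φ k := by
  rw [Dp_tt h.2.2, S1_il h]; rfl

lemma toK_mem {κ : Equiv.Perm (MT φ)} (h : κ ∈ S1 φ) : toK h ∈ Kst φ 1 := by
  rw [mem_Kone]
  constructor
  · intro k x y
    have e : ∀ z : Fr n, (pm φ ^ k * toK h * (pm φ ^ k)⁻¹) z =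
        (φ ^ k) (toK h ((φ ^ (-k)) z)) := by
      intro z
      rw [Equiv.Perm.mul_apply, Equiv.Perm.mul_apply, pm_zpow, pm_inv, ← zpow_neg]
      rfl
    have hinv' : ∀ z : Fr n, (φ ^ k) ((φ ^ (-k)) z) = z := by
      intro z
      rw [← MulAut.mul_apply, ← zpow_add]
      simp
    rw [e, e]
    have h1 := SAdj_level (φ := φ) (toK h ((φ ^ (-k)) x)) (toK h ((φ ^ (-k)) y)) (-k)
    have h2 := SAdj_level (φ := φ) ((φ ^ (-k)) x) ((φ ^ (-k)) y) (-k)
    rw [neg_neg] at h1 h2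
    rw [← h1, ← toK_spec, ← toK_spec, h.1.1, h2, hinv', hinv']
  · change (κ (il φ 1)).left = 1
    have : il φ (1 : Fr n) = 1 := _root_.map_one _
    rw [this, h.2.1]; rfl

lemma toK_inj {κ κ' : Equiv.Perm (MT φ)} (h : κ ∈ S1 φ) (h' : κ' ∈ S1 φ)
    (e : toK h = toK h') : κ = κ' := by
  apply Equiv.ext
  intro g
  rw [decomp g, toK_spec h, toK_spec h', e]

lemma S1_finite (hK : ((Kst φ 1 : Subgroup (Equiv.Perm (Fr n))) :
    Set (Equiv.Perm (Fr n))).Finite) : (S1 φ).Finite := by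
  classical
  have : Finite (Kst φ 1 : Subgroup (Equiv.Perm (Fr n))) := hK
  have hf : Function.Injective (fun κ : S1 φ => (⟨toK κ.2, toK_mem κ.2⟩ : Kst φ 1)) := by
    intro κ κ' h
    exact Subtype.ext (toK_inj κ.2 κ'.2 (congrArg Subtype.val h))
  exact Finite.of_injective _ hf

/-- The stabiliser of `1`. -/
def S0 (φ : MulAut (Fr n)) : Set (Equiv.Perm (MT φ)) := {κ | κ ∈ AutX φ ∧ κ 1 = 1}

lemma S0_finite (hK : ((Kst φ 1 : Subgroup (Equiv.Perm (Fr n))) :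
    Set (Equiv.Perm (Fr n))).Finite) : (S0 φ).Finite := by
  have h1 := S1_finite hK
  by_cases hm : ∃ κ0 ∈ S0 φ, Dm κ0
  · obtain ⟨κ0, h0, hm⟩ := hm
    refine (h1.union (h1.image (fun κ => κ0 * κ))).subset ?_
    intro κ hκ
    rcases Dp_or_Dm hκ.1 with h | h
    · exact Or.inl ⟨hκ.1, hκ.2, h⟩
    · right
      refine ⟨κ0⁻¹ * κ, ⟨mul_mem (inv_mem h0.1) hκ.1, ?_, Dm_Dm hm h⟩, by simp⟩
      rw [Equiv.Perm.mul_apply, hκ.2, Equiv.Perm.inv_eq_iff_eq, h0.2]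
  · refine h1.subset ?_
    intro κ hκ
    rcases Dp_or_Dm hκ.1 with h | h
    · exact ⟨hκ.1, hκ.2, h⟩
    · exact absurd ⟨κ, hκ, h⟩ hm

lemma finiteIndex_of_map {G X : Type*} [Group G] [Finite X] (H : Subgroup G) (f : G → X)
    (h : ∀ a b, f a = f b → a⁻¹ * b ∈ H) : H.FiniteIndex := by
  have hf : Function.Injective (fun q : G ⧸ H => f q.out) := by
    intro q q' hq
    have h1 := h _ _ hq
    rw [← QuotientGroup.eq] at h1
    simpa using h1
  have : Finite (G ⧸ H) := Finite.of_injective _ hf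
  exact Subgroup.finiteIndex_of_finite_quotient

/-- (C') Every group that acts properly and cocompactly on the Cayley graph by colour preserving
automorphisms acts, after passage to a subgroup of finite index, by left translations. -/
theorem acts_by_translations {H : Type} [Group H]
    (hK : ((Kst φ 1 : Subgroup (Equiv.Perm (Fr n))) : Set (Equiv.Perm (Fr n))).Finite)
    (a : H →* Equiv.Perm (MT φ)) (hS : ∀ h x y, SAdj φ x y → SAdj φ (a h x) (a h y))
    (hT : ∀ h x y, TAdj φ x y → TAdj φ (a h x) (a h y))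
    (D : Set (MT φ)) (hD : D.Finite) (hcov : ∀ x, ∃ h, ∃ d ∈ D, a h d = x) :
    ∃ (H₀ : Subgroup H) (ρ : H₀ →* MT φ), H₀.FiniteIndex ∧ ρ.range.FiniteIndex ∧
      ∀ (h : H₀) (x : MT φ), a h x = ρ h * x := by
  classical
  have hmem : ∀ h, a h ∈ AutX φ := by
    intro h
    have hinv : ∀ x, a h⁻¹ (a h x) = x := by
      intro x
      rw [← Equiv.Perm.mul_apply, ← _root_.map_mul, inv_mul_cancel, _root_.map_one]; rfl
    refine ⟨fun x y => ⟨fun hxy => ?_, hS h x y⟩, fun x y => ⟨fun hxy => ?_, hT h x y⟩⟩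
    · have := hS h⁻¹ _ _ hxy
      rwa [hinv, hinv] at this
    · have := hT h⁻¹ _ _ hxy
      rwa [hinv, hinv] at this
  let H₀ : Subgroup H := (LG φ).range.comap a
  have hH₀ : ∀ h : H, h ∈ H₀ ↔ ∃ g, LG φ g = a h := fun h => Iff.rfl
  have hspec : ∀ h : H₀, ∀ x, a h x = a h 1 * x := by
    rintro ⟨h, hh⟩ x
    obtain ⟨g, hg⟩ := (hH₀ h).1 hh
    change a h x = a h 1 * x
    rw [← hg, LG_apply, LG_apply, mul_one]
  let ρ : H₀ →* MT φ :=
    { toFun := fun h => a h 1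
      map_one' := by simp
      map_mul' := fun h h' => by
        rw [Subgroup.coe_mul, _root_.map_mul, Equiv.Perm.mul_apply]
        exact hspec h _ }
  have hfin : Finite (S0 φ) := S0_finite hK
  let f : H → S0 φ := fun h => ⟨(LG φ (a h 1))⁻¹ * a h, mul_mem (inv_mem (LG_mem _)) (hmem h), by
    rw [Equiv.Perm.mul_apply, Equiv.Perm.inv_eq_iff_eq, LG_apply, mul_one]⟩
  have hf : ∀ h h', f h = f h' → h * h'⁻¹ ∈ H₀ := by
    intro h h' e
    have e1 : (LG φ (a h 1))⁻¹ * a h = (LG φ (a h' 1))⁻¹ * a h' := congrArg Subtype.val e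
    rw [hH₀]
    refine ⟨a h 1 * (a h' 1)⁻¹, ?_⟩
    rw [_root_.map_mul, _root_.map_inv, _root_.map_mul, _root_.map_inv]
    have e2 : a h = LG φ (a h 1) * ((LG φ (a h' 1))⁻¹ * a h') := by
      rw [← e1]; group
    conv_rhs => rw [e2]
    group
  refine ⟨H₀, ρ, ?_, ?_, hspec⟩
  · apply finiteIndex_of_map H₀ (fun h => f h⁻¹)
    intro h h' e
    have := hf _ _ e
    simpa using this
  · choose hh dd hdd using hcov
    have hDf : Finite D := hD
    apply finiteIndex_of_map ρ.range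
      (fun g : MT φ => (f (hh g⁻¹), (⟨dd g⁻¹, (hdd g⁻¹).1⟩ : D)))
    intro g g' e
    have e1 : f (hh g⁻¹) = f (hh g'⁻¹) := congrArg Prod.fst e
    have e2 : dd g⁻¹ = dd g'⁻¹ := congrArg Subtype.val (congrArg Prod.snd e)
    have h1 := hf _ _ e1
    have h3 := hspec ⟨_, h1⟩ g'⁻¹
    have h5 : (a (hh g'⁻¹))⁻¹ g'⁻¹ = dd g'⁻¹ := by
      rw [Equiv.Perm.inv_eq_iff_eq]; exact (hdd g'⁻¹).2.symm
    have h4 : a (hh g⁻¹ * (hh g'⁻¹)⁻¹) g'⁻¹ = g⁻¹ := by
      have h6 : a (hh g⁻¹ * (hh g'⁻¹)⁻¹) = a (hh g⁻¹) * (a (hh g'⁻¹))⁻¹ := by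
        rw [_root_.map_mul, _root_.map_inv a]
      rw [h6, Equiv.Perm.mul_apply, h5, ← e2]
      exact (hdd g⁻¹).2
    exact ⟨⟨_, h1⟩, eq_mul_of_mul_inv_eq (h3.symm.trans h4)⟩

end Pool.Agent.FBC61
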