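import Pool.Agent.FBC61.DefsQ
import Pool.Agent.FBC61.Model
import Pool.Agent.FBC61.BD

/-! # Automorphisms of the Cayley graph for a finite set of elements of height one -/

namespace Pool.Agent.FBC61

open FreeGroup
set_option linter.unusedSectionVars false

variable {n : ℕ} {φ : MulAut (Fr n)} {Q : Set (MT φ)}

/-- Automorphisms that preserve the two kinds of edges. -/
def AutQ (φ : MulAut (Fr n)) (Q : Set (MT φ)) : Subgroup (Equiv.Perm (MT φ)) where
  carrier := {κ | (∀ x y, SAdj φ (κ x) (κ y) ↔ SAdj φ x y) ∧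
    ∀ x y, QAdj φ Q (κ x) (κ y) ↔ QAdj φ Q x y}
  one_mem' := ⟨fun _ _ => Iff.rfl, fun _ _ => Iff.rfl⟩
  mul_mem' := fun {a b} ha hb =>
    ⟨fun x y => (ha.1 (b x) (b y)).trans (hb.1 x y), fun x y => (ha.2 (b x) (b y)).trans (hb.2 x y)⟩
  inv_mem' := fun {a} ha => ⟨fun x y => by rw [← ha.1, pai, pai], fun x y => by
    rw [← ha.2, pai, pai]⟩

lemma LG_memQ (g : MT φ) : LG φ g ∈ AutQ φ Q := by
  refine ⟨fun x y => ?_, fun x y => ?_⟩
  · simp only [SAdj, LG_apply, mul_assoc, mul_right_inj]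
  · simp only [QAdj, LG_apply, mul_assoc, mul_right_inj]

lemma LG_inv_apply (g x : MT φ) : (LG φ g)⁻¹ x = g⁻¹ * x := by
  rw [Equiv.Perm.inv_eq_iff_eq, LG_apply, mul_inv_cancel_left]

/-- `κ` preserves the fibre edges. -/
def PS (κ : Equiv.Perm (MT φ)) : Prop := ∀ x y, SAdj φ (κ x) (κ y) ↔ SAdj φ x y

lemma PS.inv {κ : Equiv.Perm (MT φ)} (h : PS κ) : PS κ⁻¹ := fun x y => by
  rw [← h, pai, pai]

lemma PS.chain {κ : Equiv.Perm (MT φ)} (hκ : PS κ) :
    ∀ (L : List (Fin n × Bool)) (x : MT φ), ht (κ (x * il φ (FreeGroup.mk L))) = ht (κ x) := by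
  intro L
  induction L with
  | nil =>
    intro x
    rw [← FreeGroup.one_eq_mk]
    have : il φ (1 : Fr n) = 1 := _root_.map_one _
    rw [this, mul_one]
  | cons l L ih =>
    intro x
    rw [mk_cons, il_mul, ← mul_assoc, ih]
    have h1 : SAdj φ (κ x) (κ (x * il φ (lt l))) := (hκ _ _).2 (SAdj_iff_lt.2 ⟨l, rfl⟩)
    exact (ht_of_SAdj h1).symm

lemma eq_il_of_ht {x : MT φ} (h : ht x = 0) : x = il φ x.left := by
  conv_lhs => rw [decomp x, h, tt_zero, mul_one]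

lemma PS.congr {κ : Equiv.Perm (MT φ)} (hκ : PS κ) {x y : MT φ} (h : ht x = ht y) :
    ht (κ x) = ht (κ y) := by
  have h1 : ht (x⁻¹ * y) = 0 := by rw [ht_mul, ht_inv, h]; omega
  have h2 := eq_il_of_ht h1
  have h3 : y = x * il φ (FreeGroup.mk (toWord (x⁻¹ * y).left)) := by
    rw [mk_toWord, ← h2]; group
  rw [h3, hκ.chain]

lemma step_fun (f : ℤ → ℤ) (hinj : Function.Injective f)
    (hs : ∀ k, f (k + 1) = f k + 1 ∨ f (k + 1) = f k - 1) :
    (∀ k, f k = f 0 + k) ∨ (∀ k, f k = f 0 - k) := by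
  have hne : ∀ k, f (k + 2) ≠ f k := fun k h => by
    have := hinj h; omega
  have hst : ∀ k, f (k + 2) - f (k + 1) = f (k + 1) - f k := by
    intro k
    have h1 := hs k
    have h2 := hs (k + 1)
    have h3 := hne k
    rw [show k + 1 + 1 = k + 2 by ring] at h2
    omega
  have hd : ∀ k, f (k + 1) - f k = f 1 - f 0 := by
    intro k
    induction k using Int.induction_on with
    | zero => simp
    | succ i ih =>
      have := hst i
      rw [show (i : ℤ) + 1 + 1 = i + 2 by ring]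
      omega
    | pred i ih =>
      have := hst (-(i : ℤ) - 1)
      rw [show -(i : ℤ) - 1 + 2 = -i + 1 by ring, show -(i : ℤ) - 1 + 1 = -i by ring] at this
      rw [show -(i : ℤ) - 1 + 1 = -i by ring]
      omega
  have h0 := hs 0
  rw [zero_add] at h0
  rcases h0 with h0 | h0
  · left
    intro k
    induction k using Int.induction_on with
    | zero => simp
    | succ i ih => have := hd i; omega
    | pred i ih =>
      have := hd (-(i : ℤ) - 1)
      rw [show -(i : ℤ) - 1 + 1 = -i by ring] at this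
      omega
  · right
    intro k
    induction k using Int.induction_on with
    | zero => simp
    | succ i ih => have := hd i; omega
    | pred i ih =>
      have := hd (-(i : ℤ) - 1)
      rw [show -(i : ℤ) - 1 + 1 = -i by ring] at this
      omega

lemma ht_QAdj (hQ : ∀ q ∈ Q, ht q = 1) {x y : MT φ} (h : QAdj φ Q x y) :
    ht y = ht x + 1 ∨ ht y = ht x - 1 := by
  obtain ⟨q, hq, h | h⟩ := h
  · left; rw [h, ht_mul, hQ q hq]
  · right; rw [h, ht_mul, hQ q hq]; omega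

/-- An automorphism acts on the heights by a translation or a reflection. -/
lemma ht_autQ (hQ : ∀ q ∈ Q, ht q = 1) (hne : Q.Nonempty) {κ : Equiv.Perm (MT φ)}
    (hκ : κ ∈ AutQ φ Q) :
    (∀ x, ht (κ x) = ht (κ 1) + ht x) ∨ (∀ x, ht (κ x) = ht (κ 1) - ht x) := by
  obtain ⟨q0, hq0⟩ := hne
  have hPS : PS κ := hκ.1
  have hf : ∀ x, ht (κ x) = ht (κ (tt φ (ht x))) := fun x => hPS.congr (ht_tt (ht x)).symm
  have hinj : Function.Injective (fun k : ℤ => ht (κ (tt φ k))) := by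
    intro j k h
    have h1 := hPS.inv.congr (x := κ (tt φ j)) (y := κ (tt φ k)) h
    rw [pia, pia] at h1
    exact h1
  have hs : ∀ k : ℤ, ht (κ (tt φ (k + 1))) = ht (κ (tt φ k)) + 1 ∨
      ht (κ (tt φ (k + 1))) = ht (κ (tt φ k)) - 1 := by
    intro k
    have h1 : QAdj φ Q (κ (tt φ k)) (κ (tt φ k * q0)) := (hκ.2 _ _).2 ⟨q0, hq0, Or.inl rfl⟩
    have h2 : ht (κ (tt φ k * q0)) = ht (κ (tt φ (k + 1))) := by
      apply hPS.congr
      rw [ht_mul, hQ q0 hq0]; rfl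
    rw [← h2]
    exact ht_QAdj hQ h1
  rcases step_fun _ hinj hs with h | h
  · left
    intro x
    rw [hf x]
    exact h (ht x)
  · right
    intro x
    rw [hf x]
    exact h (ht x)

/-- The automorphisms that preserve the height. -/
def L0 (φ : MulAut (Fr n)) (Q : Set (MT φ)) : Subgroup (Equiv.Perm (MT φ)) where
  carrier := {κ | κ ∈ AutQ φ Q ∧ ∀ x, ht (κ x) = ht x}
  one_mem' := ⟨one_mem _, fun _ => rfl⟩
  mul_mem' := fun {a b} ha hb => ⟨mul_mem ha.1 hb.1, fun x => by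
    rw [Equiv.Perm.mul_apply, ha.2, hb.2]⟩
  inv_mem' := fun {a} ha => ⟨inv_mem ha.1, fun x => by
    rw [← ha.2 (a⁻¹ x), pai]⟩

lemma conj_mem_L0 (g : MT φ) {κ : Equiv.Perm (MT φ)} (h : κ ∈ L0 φ Q) :
    LG φ g * κ * (LG φ g)⁻¹ ∈ L0 φ Q := by
  refine ⟨mul_mem (mul_mem (LG_memQ g) h.1) (inv_mem (LG_memQ g)), fun x => ?_⟩
  rw [Equiv.Perm.mul_apply, Equiv.Perm.mul_apply, LG_inv_apply, LG_apply, ht_mul, h.2, ht_mul,
    ht_inv]
  omega

lemma conj_mem_L0' (g : MT φ) {κ : Equiv.Perm (MT φ)} (h : κ ∈ L0 φ Q) :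
    (LG φ g)⁻¹ * κ * LG φ g ∈ L0 φ Q := by
  refine ⟨mul_mem (mul_mem (inv_mem (LG_memQ g)) h.1) (LG_memQ g), fun x => ?_⟩
  rw [Equiv.Perm.mul_apply, Equiv.Perm.mul_apply, LG_inv_apply, LG_apply, ht_mul, h.2, ht_mul,
    ht_inv]
  omega

lemma LG_il_mem (x : Fr n) : LG φ (il φ x) ∈ L0 φ Q :=
  ⟨LG_memQ _, fun y => by rw [LG_apply, ht_mul, ht_il, zero_add]⟩

/-- `κ x = f x` with `f` in the fibre. -/
lemma L0_split {κ : Equiv.Perm (MT φ)} (h : κ ∈ L0 φ Q) (x : MT φ) :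
    ∃ f : Fr n, κ x = il φ f * x := by
  have h1 : ht (κ x * x⁻¹) = 0 := by rw [ht_mul, ht_inv, h.2]; omega
  refine ⟨(κ x * x⁻¹).left, ?_⟩
  rw [← eq_il_of_ht h1]; group

/-- `x` and `y` have the same stabiliser. -/
def SameSt (Q : Set (MT φ)) (x y : MT φ) : Prop := ∀ κ ∈ L0 φ Q, κ x = x ↔ κ y = y

lemma SameSt.symm {x y : MT φ} (h : SameSt Q x y) : SameSt Q y x := fun κ hκ => (h κ hκ).symm

lemma SameSt.trans {x y z : MT φ} (h : SameSt Q x y) (h' : SameSt Q y z) : SameSt Q x z :=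
  fun κ hκ => (h κ hκ).trans (h' κ hκ)

lemma SameSt.mul {x y : MT φ} (h : SameSt Q x y) (g : MT φ) : SameSt Q (g * x) (g * y) := by
  intro κ hκ
  have h1 := h _ (conj_mem_L0' g hκ)
  rw [Equiv.Perm.mul_apply, Equiv.Perm.mul_apply, Equiv.Perm.mul_apply, Equiv.Perm.mul_apply,
    LG_inv_apply, LG_inv_apply, LG_apply, LG_apply, inv_mul_eq_iff_eq_mul,
    inv_mul_eq_iff_eq_mul] at h1
  exact h1

/-- If a subgroup without nontrivial translations of the fibre contains the stabiliser of `x`,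
then it is the stabiliser of `x`. -/
lemma eq_of_stab_le {x : MT φ} {P : Equiv.Perm (MT φ) → Prop}
    (h1 : ∀ κ ∈ L0 φ Q, κ x = x → P κ)
    (h2 : ∀ f : Fr n, P (LG φ (il φ f)) → f = 1)
    (h3 : ∀ κ κ', P κ → P κ' → P (κ * κ'⁻¹)) {κ : Equiv.Perm (MT φ)} (hκ : κ ∈ L0 φ Q)
    (hP : P κ) : κ x = x := by
  obtain ⟨f, hf⟩ := L0_split hκ x
  have h4 : (LG φ (il φ f))⁻¹ * κ ∈ L0 φ Q := mul_mem (inv_mem (LG_il_mem f)) hκ
  have h5 : ((LG φ (il φ f))⁻¹ * κ) x = x := by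
    rw [Equiv.Perm.mul_apply, LG_inv_apply, hf, inv_mul_cancel_left]
  have h6 := h3 _ _ hP (h1 _ h4 h5)
  have h7 : κ * ((LG φ (il φ f))⁻¹ * κ)⁻¹ = LG φ (il φ f) := by group
  rw [h7] at h6
  have h8 := h2 f h6
  have e : il φ (1 : Fr n) = 1 := _root_.map_one _
  rw [hf, h8, e, one_mul]

/-- The induced permutation of the fibre. -/
def rr : L0 φ Q →* Equiv.Perm (Fr n) where
  toFun κ :=
    { toFun := fun x => (κ.1 (il φ x)).left
      invFun := fun x => (κ.1⁻¹ (il φ x)).left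
      left_inv := fun x => by
        have h := eq_il_of_ht (x := κ.1 (il φ x)) (by rw [κ.2.2, ht_il])
        change (κ.1⁻¹ (il φ (κ.1 (il φ x)).left)).left = x
        rw [← h, pia]; rfl
      right_inv := fun x => by
        have h := eq_il_of_ht (x := κ.1⁻¹ (il φ x)) (by rw [(inv_mem κ.2).2, ht_il])
        change (κ.1 (il φ (κ.1⁻¹ (il φ x)).left)).left = x
        rw [← h, pai]; rfl }
  map_one' := by ext x; rfl
  map_mul' := fun κ κ' => by
    apply Equiv.ext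
    intro x
    have h := eq_il_of_ht (x := κ'.1 (il φ x)) (by rw [κ'.2.2, ht_il])
    change ((κ.1 * κ'.1) (il φ x)).left = (κ.1 (il φ (κ'.1 (il φ x)).left)).left
    rw [← h]; rfl

lemma rr_spec (κ : L0 φ Q) (x : Fr n) : κ.1 (il φ x) = il φ (rr κ x) :=
  eq_il_of_ht (by rw [κ.2.2, ht_il])

end Pool.Agent.FBC61
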