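import Pool.Agent.FBC61.Crit

/-! # Mutanguha's criterion implies irreducibility -/

namespace Pool.Agent.FBC61

open FreeGroup
set_option linter.unusedSectionVars false

lemma perm_pow {n : ℕ} {θ : MulAut (Fr n)} {κ : Type} {A : κ → Subgroup (Fr n)}
    {σ : Equiv.Perm κ} (hmap : ∀ i, ∃ g : Fr n, (A i).map θ.toMonoidHom =
      (A (σ i)).map (MulAut.conj g).toMonoidHom) (k : ℕ) :
    ∀ j, ∃ g : Fr n, (A j).map (θ ^ k).toMonoidHom =
      (A ((σ ^ k) j)).map (MulAut.conj g).toMonoidHom := by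
  induction k with
  | zero => intro j; exact ⟨1, by simp⟩
  | succ k ih =>
    intro j
    obtain ⟨g, hg⟩ := hmap j
    obtain ⟨g', hg'⟩ := ih (σ j)
    refine ⟨(θ ^ k) g * g', ?_⟩
    have e1 : (A j).map (θ ^ (k + 1)).toMonoidHom =
        ((A j).map θ.toMonoidHom).map (θ ^ k).toMonoidHom := by
      rw [Subgroup.map_map, pow_succ]; rfl
    have e2 : ((A (σ j)).map (MulAut.conj g).toMonoidHom).map
        (θ ^ k).toMonoidHom = ((A (σ j)).map
          (θ ^ k).toMonoidHom).map (MulAut.conj ((θ ^ k) g)).toMonoidHom := by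
      rw [Subgroup.map_map, Subgroup.map_map]
      congr 1
      ext x
      simp [MulAut.conj_apply]
    have e3 : ((A ((σ ^ k) (σ j))).map
        (MulAut.conj g').toMonoidHom).map (MulAut.conj ((θ ^ k) g)).toMonoidHom =
        (A ((σ ^ k) (σ j))).map
        (MulAut.conj ((θ ^ k) g * g')).toMonoidHom := by
      rw [Subgroup.map_map]
      congr 1
      ext x
      simp [MulAut.conj_apply]
    rw [e1, hg, e2, hg', e3, pow_succ]; rfl

/-- An element of `B ⊔ ⟨b⟩` is `β b^p`. -/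
lemma mem_sup_zpowers {G : Type} [Group G] {B : Subgroup G} {b : G}
    (h : B.map (MulAut.conj b).toMonoidHom = B) {x : G} (hx : x ∈ B ⊔ Subgroup.zpowers b) :
    ∃ β ∈ B, ∃ p : ℤ, x = β * b ^ p := by
  have hc : ∀ (p : ℤ) (y : G), y ∈ B → b ^ p * y * (b ^ p)⁻¹ ∈ B := by
    intro p
    induction p using Int.induction_on with
    | zero => intro y hy; simpa using hy
    | succ i ih =>
      intro y hy
      have h1 := ih _ ((conj_mem h (x := y)).2 hy)
      have e : b ^ ((i : ℤ) + 1) * y * (b ^ ((i : ℤ) + 1))⁻¹ =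
          b ^ (i : ℤ) * (b * y * b⁻¹) * (b ^ (i : ℤ))⁻¹ := by
        rw [zpow_add_one]; group
      rw [e]; exact h1
    | pred i ih =>
      intro y hy
      have h0 : b⁻¹ * y * b ∈ B := by
        apply (conj_mem h (x := b⁻¹ * y * b)).1
        have e : b * (b⁻¹ * y * b) * b⁻¹ = y := by group
        rw [e]; exact hy
      have h1 := ih _ h0
      have e : b ^ (-(i : ℤ) - 1) * y * (b ^ (-(i : ℤ) - 1))⁻¹ =
          b ^ (-(i : ℤ)) * (b⁻¹ * y * b) * (b ^ (-(i : ℤ)))⁻¹ := by
        rw [zpow_sub_one]; group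
      rw [e]; exact h1
  let K : Subgroup G :=
    { carrier := {x | ∃ β ∈ B, ∃ p : ℤ, x = β * b ^ p}
      one_mem' := ⟨1, one_mem _, 0, by simp⟩
      mul_mem' := by
        rintro x y ⟨β, hβ, p, rfl⟩ ⟨γ, hγ, q, rfl⟩
        refine ⟨β * (b ^ p * γ * (b ^ p)⁻¹), mul_mem hβ (hc p γ hγ), p + q, ?_⟩
        rw [zpow_add]; group
      inv_mem' := by
        rintro x ⟨β, hβ, p, rfl⟩
        refine ⟨b ^ (-p) * β⁻¹ * (b ^ (-p))⁻¹, hc (-p) _ (inv_mem hβ), -p, ?_⟩
        group }
  have hle : B ⊔ Subgroup.zpowers b ≤ K := by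
    apply sup_le
    · intro y hy
      exact ⟨y, hy, 0, by simp⟩
    · rw [Subgroup.zpowers_le]
      exact ⟨1, one_mem _, 1, by simp⟩
  exact hle hx

open Classical in
/-- The retraction on the free factor generated by `B`. -/
noncomputable def retr {n : ℕ} {J : Type} (b : FreeGroupBasis J (Fr n)) (B : Set J) :
    Fr n →* Fr n :=
  b.lift (fun j => if j ∈ B then b j else 1)

lemma retr_mem {n : ℕ} {J : Type} (b : FreeGroupBasis J (Fr n)) {B : Set J} {j : J}
    (hj : j ∈ B) : retr b B (b j) = b j := by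
  unfold retr
  rw [FreeGroupBasis.lift_apply_apply, FreeGroupBasis.repr_apply_coe, FreeGroup.lift_apply_of, if_pos hj]

lemma retr_notMem {n : ℕ} {J : Type} (b : FreeGroupBasis J (Fr n)) {B : Set J} {j : J}
    (hj : j ∉ B) : retr b B (b j) = 1 := by
  unfold retr
  rw [FreeGroupBasis.lift_apply_apply, FreeGroupBasis.repr_apply_coe, FreeGroup.lift_apply_of, if_neg hj]

lemma retr_fix {n : ℕ} {J : Type} (b : FreeGroupBasis J (Fr n)) {B : Set J} {x : Fr n}
    (hx : x ∈ Subgroup.closure (b '' B)) : retr b B x = x := by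
  induction hx using Subgroup.closure_induction with
  | mem x hx =>
    obtain ⟨j, hj, rfl⟩ := hx
    exact retr_mem b hj
  | one => exact _root_.map_one _
  | mul a c _ _ ha hc => rw [_root_.map_mul, ha, hc]
  | inv a _ ha => rw [_root_.map_inv, ha]

lemma closure_basis {n : ℕ} {J : Type} (b : FreeGroupBasis J (Fr n)) :
    Subgroup.closure (Set.range b) = ⊤ := by
  have h1 : Subgroup.closure (Set.range b) =
      (Subgroup.closure (Set.range (FreeGroup.of : J → FreeGroup J))).map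
        b.repr.symm.toMonoidHom := by
    rw [MonoidHom.map_closure]
    congr 1
    ext x
    constructor
    · rintro ⟨j, rfl⟩
      exact ⟨FreeGroup.of j, ⟨j, rfl⟩, rfl⟩
    · rintro ⟨_, ⟨j, rfl⟩, rfl⟩
      exact ⟨j, rfl⟩
  rw [h1, FreeGroup.closure_range_of, ← MonoidHom.range_eq_map, MonoidHom.range_eq_top]
  exact b.repr.symm.surjective

lemma retr_range {n : ℕ} {J : Type} (b : FreeGroupBasis J (Fr n)) (B : Set J) :
    (retr b B).range = Subgroup.closure (b '' B) := by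
  apply le_antisymm
  · rw [MonoidHom.range_eq_map, ← closure_basis b, MonoidHom.map_closure, Subgroup.closure_le]
    rintro _ ⟨_, ⟨j, rfl⟩, rfl⟩
    by_cases hj : j ∈ B
    · rw [SetLike.mem_coe, retr_mem b hj]
      exact Subgroup.subset_closure ⟨j, hj, rfl⟩
    · rw [SetLike.mem_coe, retr_notMem b hj]
      exact one_mem _
  · intro x hx
    exact ⟨x, retr_fix b hx⟩

/-- If the mapping torus of `ψ` satisfies Mutanguha's criterion then `ψ` is irreducible. -/
theorem not_reducible_of_noThin {m : ℕ} {ψ : MulAut (Fr m)} (h : NoThinTorus (MT ψ)) :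
    ¬ Reducible ψ := by
  rintro ⟨κ, J, bs, B, σ, hκ, ⟨i⟩, _, hpr, hmap⟩
  obtain ⟨N, hN, hσ⟩ : ∃ N : ℕ, 0 < N ∧ σ ^ N = 1 := by
    rw [← isOfFinOrder_iff_pow_eq_one]
    exact isOfFinOrder_of_finite σ
  obtain ⟨g, hg⟩ := perm_pow (A := fun i => Subgroup.closure (bs '' B i)) hmap N i
  rw [hσ, Equiv.Perm.one_apply] at hg
  let A : Subgroup (Fr m) := Subgroup.closure (bs '' B i)
  let ι : Fr m →* MT ψ := SemidirectProduct.inl
  have hι : Function.Injective ι := SemidirectProduct.inl_injective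
  let b : MT ψ := (il ψ g)⁻¹ * tt ψ N
  have hb : ∀ x : Fr m, b * il ψ x * b⁻¹ = il ψ (g⁻¹ * (ψ ^ N) x * g) := by
    intro x
    have h1 := tt_il (φ := ψ) (N : ℤ) x
    rw [zpow_natCast] at h1
    have h2 : il ψ (g⁻¹) = (il ψ g)⁻¹ := _root_.map_inv _ _
    rw [il_mul, il_mul, h2]
    have h3 : il ψ ((ψ ^ N) x) = tt ψ N * il ψ x * (tt ψ N)⁻¹ := by rw [h1]; group
    rw [h3]
    change (il ψ g)⁻¹ * tt ψ N * il ψ x * ((il ψ g)⁻¹ * tt ψ N)⁻¹ = _
    group
  have hAmem : ∀ x : Fr m, g⁻¹ * (ψ ^ N) x * g ∈ A ↔ x ∈ A := by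
    intro x
    constructor
    · intro hx
      have h1 : (ψ ^ N) x ∈ A.map (MulAut.conj g).toMonoidHom :=
        ⟨_, hx, by change g * (g⁻¹ * (ψ ^ N) x * g) * g⁻¹ = _; group⟩
      rw [← hg] at h1
      obtain ⟨y, hy, e⟩ := h1
      have : y = x := (ψ ^ N).injective e
      rwa [← this]
    · intro hx
      have h1 : (ψ ^ N) x ∈ A.map (MulAut.conj g).toMonoidHom := by
        rw [← hg]; exact ⟨x, hx, rfl⟩
      obtain ⟨y, hy, e⟩ := h1
      have e' : g * y * g⁻¹ = (ψ ^ N) x := e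
      rw [← e']
      have : g⁻¹ * (g * y * g⁻¹) * g = y := by group
      rw [this]; exact hy
  have hconj : (A.map ι).map (MulAut.conj b).toMonoidHom = A.map ι := by
    ext z
    constructor
    · rintro ⟨_, ⟨x, hx, rfl⟩, rfl⟩
      exact ⟨_, (hAmem x).2 hx, (hb x).symm⟩
    · rintro ⟨y, hy, rfl⟩
      let x : Fr m := (ψ ^ N)⁻¹ (g * y * g⁻¹)
      have hx : (ψ ^ N) x = g * y * g⁻¹ := MulAut.apply_inv_self _ _ _
      have hx' : g⁻¹ * (ψ ^ N) x * g = y := by rw [hx]; group
      refine ⟨ι x, ⟨x, (hAmem x).1 (by rw [hx']; exact hy), rfl⟩, ?_⟩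
      have := hb x
      rw [hx'] at this
      exact this
  have hht : ∀ k : ℤ, ht (b ^ k) = N * k := by
    intro k
    induction k using Int.induction_on with
    | zero => simp [ht_one]
    | succ i ih =>
      rw [zpow_add_one, ht_mul, ih]
      change _ + ht ((il ψ g)⁻¹ * tt ψ N) = _
      rw [ht_mul, ht_inv, ht_il, ht_tt]; ring
    | pred i ih =>
      rw [zpow_sub_one, ht_mul, ih, ht_inv]
      change _ + -ht ((il ψ g)⁻¹ * tt ψ N) = _
      rw [ht_mul, ht_inv, ht_il, ht_tt]; ring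
  have hA0 : ∀ z ∈ A.map ι, ht z = 0 := by
    rintro _ ⟨x, _, rfl⟩; rfl
  have c1 : (A.map ι).FG := by
    rw [← Group.fg_iff_subgroup_fg]
    have h1 : (ι.comp (retr bs (B i))).range = A.map ι := by
      rw [MonoidHom.range_comp, retr_range]
    rw [← h1]
    infer_instance
  have c2 : A.map ι ≠ ⊥ := by
    rw [Ne, Subgroup.map_eq_bot_iff_of_injective _ hι]
    exact (hpr i).1
  have c3 : IsFreeGroup (A.map ι) := by
    have h1 : IsFreeGroup A := subgroupIsFreeOfIsFree _
    exact IsFreeGroup.ofMulEquiv (Subgroup.equivMapOfInjective A ι hι)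
  have c5 : ∀ k : ℕ, 1 ≤ k → b ^ k ∉ A.map ι := by
    intro k hk hmem
    have h1 := hA0 _ hmem
    rw [← zpow_natCast, hht] at h1
    have : (N : ℤ) * k ≠ 0 := by positivity
    exact this h1
  have key := h (A.map ι) b c1 c2 c3 hconj c5
  -- a basis element outside of the factor
  obtain ⟨j, hj⟩ : ∃ j, j ∉ B i := by
    by_contra hcon
    push Not at hcon
    apply (hpr i).2
    rw [eq_top_iff, ← closure_basis bs]
    apply Subgroup.closure_mono
    rintro _ ⟨j, rfl⟩
    exact ⟨j, hcon j, rfl⟩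
  obtain ⟨k, hk, _, hkm⟩ := Subgroup.exists_pow_mem_of_index_ne_zero key.index_ne_zero (ι (bs j))
  obtain ⟨β, hβ, p, hp⟩ := mem_sup_zpowers hconj hkm
  have h1 : ht (ι (bs j) ^ k) = 0 := by rw [← map_pow]; rfl
  have h2 : (N : ℤ) * p = 0 := by
    rw [hp, ht_mul, hA0 β hβ, hht, zero_add] at h1
    exact h1
  have h3 : p = 0 := by
    rcases mul_eq_zero.1 h2 with h3 | h3
    · omega
    · exact h3
  rw [h3, zpow_zero, mul_one, ← map_pow] at hp
  have h4 : (bs j) ^ k ∈ A := by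
    obtain ⟨y, hy, e⟩ := hβ
    have : (bs j) ^ k = y := hι (hp.trans e.symm)
    rw [this]; exact hy
  have h5 := retr_fix bs h4
  rw [map_pow, retr_notMem bs hj, one_pow] at h5
  have h6 : (FreeGroup.of j : FreeGroup J) ^ k = 1 := by
    have h7 := congrArg bs.repr h5
    rw [map_pow, FreeGroupBasis.repr_apply_coe, _root_.map_one] at h7
    exact h7.symm
  have h8 : FreeGroup.of j = (1 : FreeGroup J) := by
    have h9 := (zpow_left_injective (G := FreeGroup J) (n := (k : ℤ)) (by omega))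
    apply h9
    change FreeGroup.of j ^ (k : ℤ) = 1 ^ (k : ℤ)
    rw [zpow_natCast, h6, one_zpow]
  exact FreeGroup.of_ne_one j h8

end Pool.Agent.FBC61
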