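import Mathlib

/-! # Automorphisms of the Cayley tree of a free group -/

namespace Pool.Agent.FBC61

open FreeGroup
set_option linter.unusedSectionVars false

lemma pai {X : Type*} (α : Equiv.Perm X) (x : X) : α (α⁻¹ x) = x := α.apply_symm_apply x

lemma pia {X : Type*} (α : Equiv.Perm X) (x : X) : α⁻¹ (α x) = x := α.symm_apply_apply x

variable {ι : Type} [DecidableEq ι]

/-- The element of the free group given by a letter. -/
def lt (x : ι × Bool) : FreeGroup ι := FreeGroup.mk [x]

/-- The inverse letter. -/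
def bar (x : ι × Bool) : ι × Bool := (x.1, !x.2)

omit [DecidableEq ι] in
@[simp] lemma bar_bar (x : ι × Bool) : bar (bar x) = x := by simp [bar]

omit [DecidableEq ι] in
lemma lt_bar (x : ι × Bool) : lt (bar x) = (lt x)⁻¹ := by
  simp [lt, bar, FreeGroup.inv_mk, FreeGroup.invRev]

omit [DecidableEq ι] in
lemma lt_true (i : ι) : lt (i, true) = FreeGroup.of i := rfl

omit [DecidableEq ι] in
lemma lt_false (i : ι) : lt (i, false) = (FreeGroup.of i)⁻¹ := by
  simp [lt, FreeGroup.of, FreeGroup.inv_mk, FreeGroup.invRev]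

omit [DecidableEq ι] in
lemma mk_cons (x : ι × Bool) (L : List (ι × Bool)) :
    FreeGroup.mk (x :: L) = lt x * FreeGroup.mk L := by
  simp [lt, FreeGroup.mul_mk]

lemma norm_lt (x : ι × Bool) : FreeGroup.norm (lt x) = 1 := by
  rcases x with ⟨i, _ | _⟩
  · rw [lt_false, norm_inv_eq, norm_of]
  · rw [lt_true, norm_of]

lemma lt_ne_one (x : ι × Bool) : lt x ≠ 1 := by
  intro h
  have := norm_lt x
  rw [h, FreeGroup.norm_one] at this
  omega

lemma norm_mk_reduced {L : List (ι × Bool)} (h : IsReduced L) : FreeGroup.norm (FreeGroup.mk L) = L.length := by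
  unfold FreeGroup.norm
  rw [toWord_mk, h.reduce_eq]

/-- Edges of the Cayley tree. -/
def adj (x y : FreeGroup ι) : Prop := ∃ l : ι × Bool, y = x * lt l

/-- Automorphisms of the Cayley tree. -/
def IsoT (α : Equiv.Perm (FreeGroup ι)) : Prop := ∀ x y, adj (α x) (α y) ↔ adj x y

lemma IsoT.one : IsoT (1 : Equiv.Perm (FreeGroup ι)) := fun x y => by simp

lemma IsoT.mul {α β : Equiv.Perm (FreeGroup ι)} (ha : IsoT α) (hb : IsoT β) : IsoT (α * β) :=
  fun x y => by
    rw [Equiv.Perm.mul_apply, Equiv.Perm.mul_apply, ha, hb]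

lemma IsoT.inv {α : Equiv.Perm (FreeGroup ι)} (ha : IsoT α) : IsoT α⁻¹ := fun x y => by
  rw [← ha, pai, pai]

/-- Left translations. -/
def Lm : FreeGroup ι →* Equiv.Perm (FreeGroup ι) := MulAction.toPermHom _ _

@[simp] lemma Lm_apply (g x : FreeGroup ι) : Lm g x = g * x := rfl

@[simp] lemma Lm_inv_apply (g x : FreeGroup ι) : (Lm g)⁻¹ x = g⁻¹ * x := by
  have h : (Lm g)⁻¹ = Lm g⁻¹ := (map_inv Lm g).symm
  rw [h]; rfl

omit [DecidableEq ι] in
lemma Lm_inj {g h : FreeGroup ι} (e : Lm g = Lm h) : g = h := by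
  have := congrArg (fun p => p 1) e
  simpa using this

lemma isoT_Lm (g : FreeGroup ι) : IsoT (Lm g) := fun x y => by
  simp only [adj, Lm_apply, mul_assoc, mul_right_inj]

lemma IsoT.norm_le {α : Equiv.Perm (FreeGroup ι)} (ha : IsoT α) :
    ∀ (L : List (ι × Bool)) (x : FreeGroup ι),
      FreeGroup.norm ((α x)⁻¹ * α (x * FreeGroup.mk L)) ≤ L.length := by
  intro L
  induction L with
  | nil => intro x; simp [← FreeGroup.one_eq_mk]
  | cons l L ih =>
    intro x
    obtain ⟨l', hl'⟩ := (ha x (x * lt l)).2 ⟨l, rfl⟩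
    have h1 := ih (x * lt l)
    rw [mk_cons, ← mul_assoc]
    have h2 : (α x)⁻¹ * α (x * lt l * FreeGroup.mk L) =
        lt l' * ((α (x * lt l))⁻¹ * α (x * lt l * FreeGroup.mk L)) := by
      rw [hl']; group
    rw [h2]
    refine (FreeGroup.norm_mul_le _ _).trans ?_
    rw [norm_lt, List.length_cons]
    omega

lemma IsoT.norm_le' {α : Equiv.Perm (FreeGroup ι)} (ha : IsoT α) (x y : FreeGroup ι) :
    FreeGroup.norm ((α x)⁻¹ * α y) ≤ FreeGroup.norm (x⁻¹ * y) := by
  have h := ha.norm_le (toWord (x⁻¹ * y)) x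
  rwa [mk_toWord, mul_inv_cancel_left] at h

lemma IsoT.norm_eq {α : Equiv.Perm (FreeGroup ι)} (ha : IsoT α) (x y : FreeGroup ι) :
    FreeGroup.norm ((α x)⁻¹ * α y) = FreeGroup.norm (x⁻¹ * y) := by
  refine le_antisymm (ha.norm_le' x y) ?_
  have h := ha.inv.norm_le' (α x) (α y)
  rwa [pia, pia] at h

lemma toWord_mul_of_norm {w v : FreeGroup ι} (h : FreeGroup.norm (w * v) = FreeGroup.norm w + FreeGroup.norm v) :
    toWord (w * v) = toWord w ++ toWord v :=
  (toWord_mul_sublist w v).eq_of_length (by rw [List.length_append]; exact h)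

/-- An automorphism of the tree that fixes `1` and `w v` (reduced product) fixes `w`. -/
lemma IsoT.fix_left {α : Equiv.Perm (FreeGroup ι)} (ha : IsoT α) (h1 : α 1 = 1)
    {w v : FreeGroup ι} (hn : FreeGroup.norm (w * v) = FreeGroup.norm w + FreeGroup.norm v) (h : α (w * v) = w * v) :
    α w = w := by
  have e1 : FreeGroup.norm (α w) = FreeGroup.norm w := by
    have := ha.norm_eq 1 w
    simpa [h1] using this
  have e2 : FreeGroup.norm ((α w)⁻¹ * (w * v)) = FreeGroup.norm v := by
    have := ha.norm_eq w (w * v)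
    rw [h] at this
    rw [this]; simp
  have e3 : α w * ((α w)⁻¹ * (w * v)) = w * v := by group
  have e4 : toWord (w * v) = toWord (α w) ++ toWord ((α w)⁻¹ * (w * v)) := by
    have := toWord_mul_of_norm (w := α w) (v := (α w)⁻¹ * (w * v))
      (by rw [e3, e1, e2, hn])
    rwa [e3] at this
  have e5 := toWord_mul_of_norm hn
  have e6 : toWord (α w) = toWord w := by
    have := e4.symm.trans e5
    exact (List.append_inj this (by exact e1)).1
  exact toWord_injective e6

lemma finite_ball [Finite ι] (N : ℕ) : {g : FreeGroup ι | FreeGroup.norm g ≤ N}.Finite := by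
  have h := (List.finite_length_le (ι × Bool) N).image (FreeGroup.mk)
  refine h.subset ?_
  intro g hg
  exact ⟨toWord g, hg, mk_toWord⟩

end Pool.Agent.FBC61
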