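import Pool.Agent.FBC61.FindB
import Pool.Agent.FBC61.Fin

/-! # The twisted automorphism and the finiteness of the stabiliser of a vertex -/

namespace Pool.Agent.FBC61

open FreeGroup
set_option linter.unusedSectionVars false

variable {n : ℕ} {φ : MulAut (Fr n)} {Q : Set (MT φ)}

/-- Conjugation by `b` on the fibre. -/
def tw (b : MT φ) : MulAut (Fr n) := MulAut.conj b.left * φ ^ (ht b)

lemma tw_spec (b : MT φ) (x : Fr n) : il φ (tw b x) = b * il φ x * b⁻¹ := by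
  have h1 : tw b x = b.left * (φ ^ (ht b)) x * b.left⁻¹ := rfl
  have h2 : il φ (b.left⁻¹) = (il φ b.left)⁻¹ := _root_.map_inv _ _
  have h3 := tt_il (φ := φ) (ht b) x
  rw [h1, il_mul, il_mul, h2]
  have h4 : il φ ((φ ^ (ht b)) x) = tt φ (ht b) * il φ x * (tt φ (ht b))⁻¹ := by
    rw [h3]; group
  rw [h4]
  conv_rhs => rw [decomp b]
  group

lemma tw_zpow (b : MT φ) (k : ℤ) (x : Fr n) :
    il φ ((tw b ^ k) x) = b ^ k * il φ x * (b ^ k)⁻¹ := by
  have hinv : ∀ y : Fr n, il φ ((tw b)⁻¹ y) = b⁻¹ * il φ y * b := by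
    intro y
    have h1 := tw_spec b ((tw b)⁻¹ y)
    rw [MulAut.apply_inv_self] at h1
    rw [h1]; group
  induction k using Int.induction_on generalizing x with
  | zero => simp
  | succ i ih =>
    rw [zpow_add_one, MulAut.mul_apply, ih, tw_spec, zpow_add_one]
    group
  | pred i ih =>
    rw [zpow_sub_one, MulAut.mul_apply, ih, hinv, zpow_sub_one]
    group

/-- The restriction to the fibre is a tree automorphism on all levels for the twisted
automorphism. -/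
lemma rr_mem_autA {b : MT φ} (hb : SameSt Q 1 b) (κ : L0 φ Q) : rr κ ∈ autA (tw b) := by
  intro k x y
  have e : ∀ z : Fr n, (pm (tw b) ^ k * rr κ * (pm (tw b) ^ k)⁻¹) z =
      (tw b ^ k) (rr κ ((tw b ^ (-k)) z)) := by
    intro z
    rw [Equiv.Perm.mul_apply, Equiv.Perm.mul_apply, pm_zpow, pm_inv, ← zpow_neg]
    rfl
  have hinv' : ∀ z : Fr n, (tw b ^ k) ((tw b ^ (-k)) z) = z := by
    intro z
    rw [← MulAut.mul_apply, ← zpow_add]
    simp
  have hlev : ∀ z : Fr n, il φ ((tw b ^ k) z) = (b ^ (-k))⁻¹ * il φ z * b ^ (-k) := by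
    intro z
    rw [tw_zpow, zpow_neg]; group
  have h1 := level_conj (tw b ^ k) (b ^ (-k)) hlev (rr κ ((tw b ^ (-k)) x))
    (rr κ ((tw b ^ (-k)) y))
  have h2 := level_conj (tw b ^ k) (b ^ (-k)) hlev ((tw b ^ (-k)) x) ((tw b ^ (-k)) y)
  rw [hinv', hinv'] at h2
  rw [e, e, ← h1, ← rr_spec, ← rr_spec, ← comm_b_zpow hb κ.2, ← comm_b_zpow hb κ.2, κ.2.1.1, h2]

/-- Powers of `conj u ∘ φ^m`. -/
lemma pow_twist (u : Fr n) (m : ℤ) (k : ℕ) :
    ∃ v : Fr n, (MulAut.conj u * φ ^ m) ^ k = MulAut.conj v * φ ^ (m * k) := by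
  induction k with
  | zero => exact ⟨1, by simp⟩
  | succ k ih =>
    obtain ⟨v, hv⟩ := ih
    refine ⟨v * (φ ^ (m * k)) u, ?_⟩
    rw [pow_succ, hv]
    apply MulEquiv.ext
    intro x
    simp only [MulAut.mul_apply, MulAut.conj_apply, _root_.map_mul, _root_.map_inv]
    have e : (φ ^ (m * (k : ℤ))) ((φ ^ m) x) = (φ ^ (m * ((k + 1 : ℕ) : ℤ))) x := by
      rw [← MulAut.mul_apply, ← zpow_add]
      congr 2
      push_cast
      ring
    rw [e, mul_inv_rev]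

lemma map_pow_eq {θ : MulAut (Fr n)} {A : Subgroup (Fr n)} {m : ℤ} {v g : Fr n} (k : ℕ)
    (hm : 1 ≤ m) (hk : 1 ≤ k) (hθ : θ = MulAut.conj v * φ ^ (m * k))
    (h : A.map θ.toMonoidHom = A.map (MulAut.conj g).toMonoidHom) :
    ∃ (K : ℕ) (w : Fr n), 1 ≤ K ∧ A.map (φ ^ K).toMonoidHom = A.map (MulAut.conj w).toMonoidHom := by
  obtain ⟨K, hK⟩ : ∃ K : ℕ, (K : ℤ) = m * k := ⟨(m * k).toNat, Int.toNat_of_nonneg (by positivity)⟩
  refine ⟨K, v⁻¹ * g, ?_, ?_⟩
  · have : (1 : ℤ) ≤ m * k := by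
      have h1 : (1 : ℤ) ≤ k := by exact_mod_cast hk
      nlinarith
    omega
  · have e1 : φ ^ K = MulAut.conj v⁻¹ * θ := by
      rw [hθ, ← mul_assoc, ← _root_.map_mul, inv_mul_cancel, _root_.map_one, one_mul, ← hK,
        zpow_natCast]
    have e2 : ∀ α β : MulAut (Fr n), A.map (α * β).toMonoidHom =
        (A.map β.toMonoidHom).map α.toMonoidHom := by
      intro α β
      rw [Subgroup.map_map]; rfl
    rw [e1, e2, h, _root_.map_mul, e2]

/-- A fully irreducible automorphism has only irreducible twisted powers. -/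
lemma not_reducible_tw (hfi : FullyIrreducible φ) {b : MT φ} (hb : 1 ≤ ht b) :
    ¬ Reducible (tw b) := by
  rintro ⟨κ, J, bs, B, σ, hκ, ⟨i⟩, _, hpr, hmap⟩
  have hpow : ∀ k : ℕ, ∀ j, ∃ g : Fr n, (Subgroup.closure (bs '' B j)).map
      ((tw b) ^ k).toMonoidHom = (Subgroup.closure (bs '' B ((σ ^ k) j))).map
      (MulAut.conj g).toMonoidHom := by
    intro k
    induction k with
    | zero => intro j; exact ⟨1, by simp⟩
    | succ k ih =>
      intro j
      obtain ⟨g, hg⟩ := hmap j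
      obtain ⟨g', hg'⟩ := ih (σ j)
      refine ⟨((tw b) ^ k) g * g', ?_⟩
      have e1 : (Subgroup.closure (bs '' B j)).map ((tw b) ^ (k + 1)).toMonoidHom =
          ((Subgroup.closure (bs '' B j)).map (tw b).toMonoidHom).map
            ((tw b) ^ k).toMonoidHom := by
        rw [Subgroup.map_map, pow_succ]; rfl
      have e2 : ((Subgroup.closure (bs '' B (σ j))).map (MulAut.conj g).toMonoidHom).map
          ((tw b) ^ k).toMonoidHom = ((Subgroup.closure (bs '' B (σ j))).map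
            ((tw b) ^ k).toMonoidHom).map (MulAut.conj (((tw b) ^ k) g)).toMonoidHom := by
        rw [Subgroup.map_map, Subgroup.map_map]
        congr 1
        ext x
        simp [MulAut.conj_apply]
      have e3 : ((Subgroup.closure (bs '' B ((σ ^ k) (σ j)))).map
          (MulAut.conj g').toMonoidHom).map (MulAut.conj (((tw b) ^ k) g)).toMonoidHom =
          (Subgroup.closure (bs '' B ((σ ^ k) (σ j)))).map
          (MulAut.conj (((tw b) ^ k) g * g')).toMonoidHom := by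
        rw [Subgroup.map_map]
        congr 1
        ext x
        simp [MulAut.conj_apply]
      rw [e1, hg, e2, hg', e3, pow_succ]; rfl
  obtain ⟨N, hN, hσ⟩ : ∃ N : ℕ, 0 < N ∧ σ ^ N = 1 := by
    rw [← isOfFinOrder_iff_pow_eq_one]
    exact isOfFinOrder_of_finite σ
  obtain ⟨g, hg⟩ := hpow N i
  rw [hσ, Equiv.Perm.one_apply] at hg
  obtain ⟨v, hv⟩ := pow_twist (φ := φ) b.left (ht b) N
  obtain ⟨K, w, hK, hw⟩ := map_pow_eq N hb hN hv hg
  exact hfi J bs (B i) K w hK (hpr i).1 (hpr i).2 hw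

lemma closure_zero {n : ℕ} (hn : 2 ≤ n) : ∃ B : Set (Fin n),
    Subgroup.closure ((FreeGroupBasis.ofFreeGroup (Fin n)) '' B) ≠ ⊥ ∧
    Subgroup.closure ((FreeGroupBasis.ofFreeGroup (Fin n)) '' B) ≠ ⊤ := by
  let i0 : Fin n := ⟨0, by omega⟩
  let i1 : Fin n := ⟨1, by omega⟩
  have h01 : i1 ≠ i0 := by
    intro h
    have := congrArg Fin.val h
    simp [i0, i1] at this
  refine ⟨{i0}, ?_, ?_⟩
  · intro h
    rw [Set.image_singleton, Subgroup.closure_eq_bot_iff] at h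
    have h1 := h rfl
    have h2 : (FreeGroupBasis.ofFreeGroup (Fin n)) i0 = FreeGroup.of i0 := rfl
    rw [h2] at h1
    exact (FreeGroup.of_ne_one i0) h1
  · intro h
    have h1 : FreeGroup.of i1 ∈ Subgroup.closure ((FreeGroupBasis.ofFreeGroup (Fin n)) '' {i0}) := by
      rw [h]; trivial
    have h2 := of_mem_closure (n := n) (B := {i0}) (j := i1) h1
    exact h01 h2

lemma pow_ne_one_tw (hn : 2 ≤ n) (hfi : FullyIrreducible φ) {b : MT φ} (hb : 1 ≤ ht b) :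
    ∀ k : ℕ, 1 ≤ k → (tw b) ^ k ≠ 1 := by
  intro k hk h
  obtain ⟨B, hB1, hB2⟩ := closure_zero hn
  obtain ⟨v, hv⟩ := pow_twist (φ := φ) b.left (ht b) k
  obtain ⟨K, w, hK, hw⟩ := map_pow_eq (φ := φ) (θ := 1)
    (A := Subgroup.closure ((FreeGroupBasis.ofFreeGroup (Fin n)) '' B)) (g := 1) k hb hk
    (by rw [← hv]; exact h.symm) (by rw [_root_.map_one])
  exact hfi _ _ B K w hK hB1 hB2 hw

/-- The stabiliser of `1` in the group of the height preserving automorphisms is finite. -/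
theorem K0_finite (hn : 2 ≤ n) (hfi : FullyIrreducible φ) (hQ : ∀ q ∈ Q, ht q = 1)
    (hne : Q.Nonempty) (hfin : Q.Finite) :
    {κ : Equiv.Perm (MT φ) | κ ∈ L0 φ Q ∧ κ 1 = 1}.Finite := by
  obtain ⟨b, hb, hst⟩ := exists_b hQ hne hfin
  have hK := Kst_finite (not_reducible_tw hfi hb) (pow_ne_one_tw hn hfi hb)
  have hKf : Finite (Kst (tw b) 1 : Subgroup (Equiv.Perm (Fr n))) := hK
  have h1 : ∀ κ : {κ : Equiv.Perm (MT φ) // κ ∈ L0 φ Q ∧ κ 1 = 1},
      rr ⟨κ.1, κ.2.1⟩ ∈ Kst (tw b) 1 := by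
    intro κ
    rw [mem_Kone]
    refine ⟨rr_mem_autA hst _, ?_⟩
    apply il_injective (φ := φ)
    rw [← rr_spec]
    have e : il φ (1 : Fr n) = 1 := _root_.map_one _
    rw [e]
    exact κ.2.2
  have hinj : Function.Injective (fun κ : {κ : Equiv.Perm (MT φ) // κ ∈ L0 φ Q ∧ κ 1 = 1} =>
      (⟨rr ⟨κ.1, κ.2.1⟩, h1 κ⟩ : (Kst (tw b) 1 : Subgroup (Equiv.Perm (Fr n))))) := by
    intro κ κ' h
    have h2 := rr_injective hn hQ hne hfin (congrArg Subtype.val h)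
    exact Subtype.ext (Subtype.mk.inj h2)
  have := Finite.of_injective _ hinj
  exact this

/-- The stabiliser of `1` is finite. -/
theorem S0Q_finite (hn : 2 ≤ n) (hfi : FullyIrreducible φ) (hQ : ∀ q ∈ Q, ht q = 1)
    (hne : Q.Nonempty) (hfin : Q.Finite) :
    {κ : Equiv.Perm (MT φ) | κ ∈ AutQ φ Q ∧ κ 1 = 1}.Finite := by
  have hK := K0_finite hn hfi hQ hne hfin
  by_cases hm : ∃ κ0 ∈ AutQ φ Q, κ0 1 = 1 ∧ ∀ x, ht (κ0 x) = - ht x
  · obtain ⟨κ0, h0, h01, h02⟩ := hm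
    refine (hK.union (hK.image (fun κ => κ0 * κ))).subset ?_
    rintro κ ⟨hκ, hκ1⟩
    rcases ht_autQ hQ hne hκ with h | h
    · left
      refine ⟨⟨hκ, fun x => ?_⟩, hκ1⟩
      rw [h, hκ1, ht_one, zero_add]
    · right
      have hinv : ∀ x, ht (κ0⁻¹ x) = - ht x := by
        intro x
        have := h02 (κ0⁻¹ x)
        rw [pai] at this
        omega
      refine ⟨κ0⁻¹ * κ, ⟨⟨mul_mem (inv_mem h0) hκ, fun x => ?_⟩, ?_⟩, by simp⟩
      · rw [Equiv.Perm.mul_apply, hinv, h, hκ1, ht_one]; omega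
      · rw [Equiv.Perm.mul_apply, hκ1, Equiv.Perm.inv_eq_iff_eq, h01]
  · refine hK.subset ?_
    rintro κ ⟨hκ, hκ1⟩
    rcases ht_autQ hQ hne hκ with h | h
    · refine ⟨⟨hκ, fun x => ?_⟩, hκ1⟩
      rw [h, hκ1, ht_one, zero_add]
    · exfalso
      apply hm
      refine ⟨κ, hκ, hκ1, fun x => ?_⟩
      rw [h, hκ1, ht_one, zero_sub]

/-- A group that acts through a group `A` of permutations with finite vertex stabiliser and
containing the left translations acts, after passage to a subgroup of finite index, by left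
translations. -/
theorem acts_general {H : Type} [Group H] (A : Subgroup (Equiv.Perm (MT φ)))
    (hLG : ∀ g, LG φ g ∈ A) (hA : {κ : Equiv.Perm (MT φ) | κ ∈ A ∧ κ 1 = 1}.Finite)
    (a : H →* Equiv.Perm (MT φ)) (hmem : ∀ h, a h ∈ A)
    (D : Set (MT φ)) (hD : D.Finite) (hcov : ∀ x, ∃ h, ∃ d ∈ D, a h d = x) :
    ∃ (H₀ : Subgroup H) (ρ : H₀ →* MT φ), H₀.FiniteIndex ∧ ρ.range.FiniteIndex ∧
      ∀ (h : H₀) (x : MT φ), a h x = ρ h * x := by
  classical
  let H₀ : Subgroup H := (LG φ).range.comap a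
  have hH₀ : ∀ h : H, h ∈ H₀ ↔ ∃ g, LG φ g = a h := fun h => Iff.rfl
  have hspec : ∀ h : H₀, ∀ x, a h x = a h 1 * x := by
    rintro ⟨h, hh⟩ x
    obtain ⟨g, hg⟩ := (hH₀ h).1 hh
    change a h x = a h 1 * x
    rw [← hg, LG_apply, LG_apply, mul_one]
  let ρ : H₀ →* MT φ :=
    { toFun := fun h => a h 1
      map_one' := by simp
      map_mul' := fun h h' => by
        rw [Subgroup.coe_mul, _root_.map_mul, Equiv.Perm.mul_apply]
        exact hspec h _ }
  have hfin : Finite {κ : Equiv.Perm (MT φ) // κ ∈ A ∧ κ 1 = 1} := hA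
  let f : H → {κ : Equiv.Perm (MT φ) // κ ∈ A ∧ κ 1 = 1} := fun h =>
    ⟨(LG φ (a h 1))⁻¹ * a h, mul_mem (inv_mem (hLG _)) (hmem h), by
      rw [Equiv.Perm.mul_apply, Equiv.Perm.inv_eq_iff_eq, LG_apply, mul_one]⟩
  have hf : ∀ h h', f h = f h' → h * h'⁻¹ ∈ H₀ := by
    intro h h' e
    have e1 : (LG φ (a h 1))⁻¹ * a h = (LG φ (a h' 1))⁻¹ * a h' := congrArg Subtype.val e
    rw [hH₀]
    refine ⟨a h 1 * (a h' 1)⁻¹, ?_⟩
    rw [_root_.map_mul, _root_.map_inv, _root_.map_mul, _root_.map_inv]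
    have e2 : a h = LG φ (a h 1) * ((LG φ (a h' 1))⁻¹ * a h') := by
      rw [← e1]; group
    conv_rhs => rw [e2]
    group
  refine ⟨H₀, ρ, ?_, ?_, hspec⟩
  · apply finiteIndex_of_map H₀ (fun h => f h⁻¹)
    intro h h' e
    have := hf _ _ e
    simpa using this
  · choose hh dd hdd using hcov
    have hDf : Finite D := hD
    apply finiteIndex_of_map ρ.range
      (fun g : MT φ => (f (hh g⁻¹), (⟨dd g⁻¹, (hdd g⁻¹).1⟩ : D)))
    intro g g' e
    have e1 : f (hh g⁻¹) = f (hh g'⁻¹) := congrArg Prod.fst e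
    have e2 : dd g⁻¹ = dd g'⁻¹ := congrArg Subtype.val (congrArg Prod.snd e)
    have h1 := hf _ _ e1
    have h3 := hspec ⟨_, h1⟩ g'⁻¹
    have h5 : (a (hh g'⁻¹))⁻¹ g'⁻¹ = dd g'⁻¹ := by
      rw [Equiv.Perm.inv_eq_iff_eq]; exact (hdd g'⁻¹).2.symm
    have h4 : a (hh g⁻¹ * (hh g'⁻¹)⁻¹) g'⁻¹ = g⁻¹ := by
      have h6 : a (hh g⁻¹ * (hh g'⁻¹)⁻¹) = a (hh g⁻¹) * (a (hh g'⁻¹))⁻¹ := by
        rw [_root_.map_mul, _root_.map_inv a]
      rw [h6, Equiv.Perm.mul_apply, h5, ← e2]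
      exact (hdd g⁻¹).2
    exact ⟨⟨_, h1⟩, eq_mul_of_mul_inv_eq (h3.symm.trans h4)⟩

end Pool.Agent.FBC61
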